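import Pool.Agent.Lib.MP_8c1a1d_lc.Defs

set_option linter.unusedSectionVars false
set_option linter.unusedVariables false

namespace Pool.Agent.KM

open Cardinal Order

universe u v

/-! ## Nodes -/

section Nodes

variable {K : Type u} [LinearOrder K] [OrderBot K]

theorem Node.le_def {s t : Node K} : s ≤ t ↔ s.len ≤ t.len ∧ ∀ i < s.len, s.val i = t.val i :=
  Iff.rfl

theorem Node.le_refl (t : Node K) : t ≤ t := ⟨le_rfl, fun _ _ => rfl⟩

theorem Node.le_trans {r s t : Node K} (h₁ : r ≤ s) (h₂ : s ≤ t) : r ≤ t :=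
  ⟨h₁.1.trans h₂.1, fun i hi => (h₁.2 i hi).trans (h₂.2 i (hi.trans_le h₁.1))⟩

theorem Node.eq_of {s t : Node K} (h : s.len = t.len) (h' : ∀ i < s.len, s.val i = t.val i) :
    s = t := by
  apply Node.ext h
  funext i
  by_cases hi : i < s.len
  · exact h' i hi
  · rw [s.out i (not_lt.1 hi), t.out i (h ▸ not_lt.1 hi)]

theorem Node.le_antisymm {s t : Node K} (h₁ : s ≤ t) (h₂ : t ≤ s) : s = t :=
  Node.eq_of (_root_.le_antisymm h₁.1 h₂.1) h₁.2

/-- two nodes below a common node are comparable -/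
theorem Node.le_of_le_of_le {r s t : Node K} (h₁ : r ≤ t) (h₂ : s ≤ t) (h : r.len ≤ s.len) :
    r ≤ s := ⟨h, fun i hi => (h₁.2 i hi).trans (h₂.2 i (hi.trans_le h)).symm⟩

@[simp] theorem cut_len (x : K → K) (β : K) : (cut x β).len = β := rfl

theorem cut_val {x : K → K} {β i : K} (h : i < β) : (cut x β).val i = x i := if_pos h

@[simp] theorem res_len (t : Node K) (β : K) : (t.res β).len = β := rfl

theorem res_val {t : Node K} {β i : K} (h : i < β) : (t.res β).val i = t.val i := if_pos h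

theorem res_self (t : Node K) : t.res t.len = t := Node.eq_of rfl fun _ hi => res_val hi

theorem res_le {t : Node K} {β : K} (h : β ≤ t.len) : t.res β ≤ t := ⟨h, fun _ hi => res_val hi⟩

theorem res_res {t : Node K} {β γ : K} (h : β ≤ γ) : (t.res γ).res β = t.res β :=
  Node.eq_of rfl fun i (hi : i < β) => by
    rw [res_val hi, res_val hi, res_val (lt_of_lt_of_le hi h)]

theorem cut_res {x : K → K} {β γ : K} (h : β ≤ γ) : (cut x γ).res β = cut x β :=
  Node.eq_of rfl fun i (hi : i < β) => by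
    rw [res_val hi, cut_val (lt_of_lt_of_le hi h), cut_val hi]

theorem res_eq_of_le {s t : Node K} (h : s ≤ t) : t.res s.len = s :=
  Node.eq_of rfl fun i (hi : i < s.len) => by rw [res_val hi]; exact (h.2 i hi).symm

theorem res_eq_res {s t : Node K} (h : s ≤ t) {β : K} (hβ : β ≤ s.len) : t.res β = s.res β :=
  Node.eq_of rfl fun i (hi : i < β) => by
    rw [res_val hi, res_val hi]; exact (h.2 i (lt_of_lt_of_le hi hβ)).symm

theorem res_le_res {t : Node K} {β γ : K} (h : β ≤ γ) : t.res β ≤ t.res γ :=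
  ⟨h, fun i (hi : i < β) => by
    rw [res_val hi, res_val (hi.trans_le h)]⟩

theorem le_iff_res {s t : Node K} : s ≤ t ↔ s.len ≤ t.len ∧ t.res s.len = s :=
  ⟨fun h => ⟨h.1, res_eq_of_le h⟩, fun h => ⟨h.1, fun i hi => by
    rw [← res_val (t := t) hi, h.2]⟩⟩

theorem cut_le_cut (x : K → K) {β γ : K} (h : β ≤ γ) : cut x β ≤ cut x γ :=
  ⟨h, fun i (hi : i < β) => by
    rw [cut_val hi, cut_val (hi.trans_le h)]⟩

/-- the node of length `⊥` -/
def root : Node K := cut (fun _ => ⊥) ⊥

@[simp] theorem root_len : (root : Node K).len = ⊥ := rfl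

theorem eq_root {t : Node K} (h : t.len = ⊥) : t = root :=
  Node.eq_of h fun i hi => absurd (h ▸ hi) not_lt_bot

theorem root_le (t : Node K) : (root : Node K) ≤ t := ⟨bot_le, fun _ hi => absurd hi not_lt_bot⟩

variable [SuccOrder K] [NoMaxOrder K]

@[simp] theorem snoc_len (t : Node K) (a : K) : (t.snoc a).len = succ t.len := rfl

theorem snoc_val_lt {t : Node K} {a i : K} (h : i < t.len) : (t.snoc a).val i = t.val i := by
  have : i < succ t.len := h.trans (lt_succ _)
  show (if i < succ t.len then (if i < t.len then t.val i else a) else ⊥) = _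
  rw [if_pos this, if_pos h]

theorem snoc_val_len (t : Node K) (a : K) : (t.snoc a).val t.len = a := by
  show (if t.len < succ t.len then (if t.len < t.len then t.val t.len else a) else ⊥) = _
  rw [if_pos (lt_succ _), if_neg (lt_irrefl _)]

theorem le_snoc (t : Node K) (a : K) : t ≤ t.snoc a :=
  ⟨(lt_succ _).le, fun _ hi => (snoc_val_lt hi).symm⟩

theorem snoc_res (t : Node K) (a : K) : (t.snoc a).res t.len = t := res_eq_of_le (le_snoc t a)

theorem res_snoc_le {t : Node K} {a β : K} (h : β ≤ t.len) : (t.snoc a).res β = t.res β :=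
  res_eq_res (le_snoc t a) h

/-- a node of successor length is a `snoc` -/
theorem eq_snoc {t : Node K} {β : K} (h : t.len = succ β) : t = (t.res β).snoc (t.val β) := by
  apply Node.eq_of h
  intro i hi
  rw [h] at hi
  rcases (lt_succ_iff.1 hi).lt_or_eq with h' | h'
  · rw [snoc_val_lt (show i < (t.res β).len from h'), res_val h']
  · subst h'
    exact (snoc_val_len (t.res i) (t.val i)).symm

/-- if `t ≤ s` properly then `t.snoc (s.val t.len) ≤ s` -/
theorem snoc_le {s t : Node K} (h : t ≤ s) (hl : t.len < s.len) : t.snoc (s.val t.len) ≤ s := by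
  refine ⟨succ_le_of_lt hl, fun i hi => ?_⟩
  rcases (lt_succ_iff.1 hi).lt_or_eq with h' | h'
  · rw [snoc_val_lt h']; exact h.2 i h'
  · rw [h', snoc_val_len]

theorem res_succ {t : Node K} {β : K} (h : β < t.len) :
    t.res (succ β) = (t.res β).snoc (t.val β) :=
  res_eq_of_le (snoc_le (res_le h.le) (show (t.res β).len < t.len from h))

theorem snoc_inj {t : Node K} {a b : K} (h : t.snoc a = t.snoc b) : a = b := by
  rw [← snoc_val_len t a, h, snoc_val_len]

theorem snoc_not_le {t : Node K} {a b : K} (h : a ≠ b) : ¬ t.snoc a ≤ t.snoc b := by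
  intro hle
  apply h
  have := hle.2 t.len (lt_succ _)
  rwa [snoc_val_len, snoc_val_len] at this

end Nodes

/-! ## Existence of a first difference -/

section Diff

variable {K : Type u} [LinearOrder K] [OrderBot K] [WellFoundedLT K]

/-- two incomparable nodes have a common initial segment after which they differ -/
theorem exists_diff {s t : Node K} (h₁ : ¬ s ≤ t) (h₂ : ¬ t ≤ s) :
    ∃ δ, δ < s.len ∧ δ < t.len ∧ s.res δ = t.res δ ∧ s.val δ ≠ t.val δ := by
  classical
  have hex : ∃ i, i < s.len ∧ i < t.len ∧ s.val i ≠ t.val i := by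
    by_contra hcon
    push Not at hcon
    rcases le_total s.len t.len with h | h
    · exact h₁ ⟨h, fun i hi => hcon i hi (hi.trans_le h)⟩
    · exact h₂ ⟨h, fun i hi => (hcon i (hi.trans_le h) hi).symm⟩
  let i₀ := WellFounded.min (wellFounded_lt (α := K)) {i | i < s.len ∧ i < t.len ∧ s.val i ≠ t.val i} hex
  have hmem := WellFounded.min_mem (wellFounded_lt (α := K)) {i | i < s.len ∧ i < t.len ∧ s.val i ≠ t.val i} hex
  refine ⟨i₀, hmem.1, hmem.2.1, ?_, hmem.2.2⟩
  refine Node.eq_of rfl fun i (hi : i < i₀) => ?_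
  rw [res_val hi, res_val hi]
  by_contra hne
  exact WellFounded.not_lt_min (wellFounded_lt (α := K)) _ (x := i)
    (show i ∈ {i | i < s.len ∧ i < t.len ∧ s.val i ≠ t.val i} from
      ⟨hi.trans hmem.1, hi.trans hmem.2.1, hne⟩) hi

end Diff

/-! ## Truth values -/

section Truth

variable {P : Type u} [Preorder P] {φ ψ : P → Prop}

theorem Reg.mono (h : Reg φ) {p q : P} (hq : q ≤ p) (hp : φ p) : φ q := h.1 p q hq hp

theorem Reg.dense (h : Reg φ) {p : P} (hp : ∀ q ≤ p, ∃ r ≤ q, φ r) : φ p := h.2 p hp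

/-- persistence -/
def Pers (φ : P → Prop) : Prop := ∀ p q, q ≤ p → φ p → φ q

theorem Reg.pers (h : Reg φ) : Pers φ := h.1

theorem reg_fNot (h : Pers φ) : Reg (fNot φ) :=
  ⟨fun _ _ hq h r hr => h r (hr.trans hq), fun p hd q hq hφ => by
    obtain ⟨r, hr, h'⟩ := hd q hq
    exact h' r le_rfl (h q r hr hφ)⟩

theorem reg_fImp (h : Pers φ) (h' : Reg ψ) : Reg (fImp φ ψ) :=
  ⟨fun _ _ hq h r hr => h r (hr.trans hq), fun p hd q hq hφ => by
    refine h'.dense fun r hr => ?_
    obtain ⟨s, hs, hi⟩ := hd r (hr.trans hq)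
    exact ⟨s, hs, hi s le_rfl (h q s (hs.trans hr) hφ)⟩⟩

theorem reg_fAnd (h : Reg φ) (h' : Reg ψ) : Reg (fAnd φ ψ) :=
  ⟨fun p q hq hp => ⟨h.mono hq hp.1, h'.mono hq hp.2⟩, fun p hd =>
    ⟨h.dense fun q hq => (hd q hq).imp fun r hr => ⟨hr.1, hr.2.1⟩,
      h'.dense fun q hq => (hd q hq).imp fun r hr => ⟨hr.1, hr.2.2⟩⟩⟩

theorem reg_fOr : Reg (fOr φ ψ) :=
  ⟨fun _ _ hq h r hr => h r (hr.trans hq), fun p hd q hq => by
    obtain ⟨r, hr, h'⟩ := hd q hq
    obtain ⟨s, hs, h''⟩ := h' r le_rfl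
    exact ⟨s, hs.trans hr, h''⟩⟩

theorem reg_fAll {I : Sort*} {φ : I → P → Prop} (h : ∀ i, Reg (φ i)) : Reg (fAll φ) :=
  ⟨fun p q hq hp i => (h i).mono hq (hp i), fun p hd i =>
    (h i).dense fun q hq => (hd q hq).imp fun r hr => ⟨hr.1, hr.2 i⟩⟩

theorem reg_fEx {I : Sort*} {φ : I → P → Prop} : Reg (fEx φ) :=
  ⟨fun _ _ hq h r hr => h r (hr.trans hq), fun p hd q hq => by
    obtain ⟨r, hr, h'⟩ := hd q hq
    obtain ⟨s, hs, h''⟩ := h' r le_rfl
    exact ⟨s, hs.trans hr, h''⟩⟩

theorem reg_fFact (a : Prop) : Reg (fFact (P := P) a) :=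
  ⟨fun _ _ _ h => h, fun p hd => by obtain ⟨r, _, h⟩ := hd p le_rfl; exact h⟩

theorem fEx_intro {I : Sort*} {φ : I → P → Prop} (h : ∀ i, Pers (φ i)) {p : P} (i : I)
    (hi : φ i p) : fEx φ p := fun q hq => ⟨q, le_rfl, i, h i p q hq hi⟩

theorem fEx_get {I : Sort*} {φ : I → P → Prop} {p : P} (h : fEx φ p) :
    ∃ r ≤ p, ∃ i, φ i r := h p le_rfl

theorem fOr_inl (h : Pers φ) {p : P} (hp : φ p) : fOr φ ψ p :=
  fun q hq => ⟨q, le_rfl, Or.inl (h p q hq hp)⟩

theorem fOr_inr (h : Pers ψ) {p : P} (hp : ψ p) : fOr φ ψ p :=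
  fun q hq => ⟨q, le_rfl, Or.inr (h p q hq hp)⟩

/-- either `φ` is decided negatively below or some extension forces it -/
theorem decide_or (φ : P → Prop) (p : P) : (∃ q ≤ p, φ q) ∨ fNot φ p := by
  by_cases h : ∃ q ≤ p, φ q
  · exact Or.inl h
  · exact Or.inr fun q hq hφ => h ⟨q, hq, hφ⟩

variable {K : Type u} [LinearOrder K] [OrderBot K]

theorem reg_starts (h : FunName P K K) (t : Node K) : Reg (Starts h t) :=
  ⟨fun p q hq hp i hi => (h.reg _ _).mono hq (hp i hi), fun p hd i hi =>
    (h.reg _ _).dense fun q hq => (hd q hq).imp fun r hr => ⟨hr.1, hr.2 i hi⟩⟩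

theorem reg_resIn (h : FunName P K K) (β : K) (S : SetName P (Node K)) : Reg (ResIn h β S) :=
  reg_fEx

theorem reg_inBody (h : FunName P K K) (S : SetName P (Node K)) : Reg (InBody h S) :=
  reg_fAll fun _ => reg_fEx

theorem reg_inProj (h : FunName P K K) (C : SetName P (Node K × Node K)) : Reg (InProj h C) :=
  reg_fEx

theorem starts_le {h : FunName P K K} {s t : Node K} {p : P} (hst : s ≤ t) (ht : Starts h t p) :
    Starts h s p := fun i hi => by
  rw [hst.2 i hi]; exact ht i (hi.trans_le hst.1)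

/-- nodes forced to be initial segments of `h` by the same condition are comparable -/
theorem starts_comp {h : FunName P K K} {s t : Node K} {p : P} (hs : Starts h s p)
    (ht : Starts h t p) (hl : s.len ≤ t.len) : s ≤ t :=
  ⟨hl, fun i hi => h.sv _ _ _ _ (hs i hi) (ht i (hi.trans_le hl))⟩

theorem starts_eq {h : FunName P K K} {s t : Node K} {p : P} (hs : Starts h s p)
    (ht : Starts h t p) (hl : s.len = t.len) : s = t :=
  Node.eq_of hl fun i hi => h.sv _ _ _ _ (hs i hi) (ht i (hl ▸ hi))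

theorem starts_root (h : FunName P K K) (p : P) : Starts h root p :=
  fun _ hi => absurd hi not_lt_bot

variable [SuccOrder K] [NoMaxOrder K]

theorem starts_snoc {h : FunName P K K} {t : Node K} {a : K} {p : P} :
    Starts h (t.snoc a) p ↔ Starts h t p ∧ h.app t.len a p := by
  constructor
  · intro hs
    refine ⟨starts_le (le_snoc t a) hs, ?_⟩
    have := hs t.len (lt_succ _)
    rwa [snoc_val_len] at this
  · rintro ⟨h1, h2⟩ i hi
    rcases (lt_succ_iff.1 hi).lt_or_eq with h' | h'
    · rw [snoc_val_lt h']; exact h1 i h'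
    · subst h'; rw [snoc_val_len]; exact h2

end Truth

/-! ## The check name of a ground model function -/

section Check

variable {P : Type u} [Preorder P] {A B : Type u}

/-- the name of a ground model function -/
def checkFun (P : Type u) [Preorder P] {A B : Type u} (x : A → B) : FunName P A B where
  app a b _ := x a = b
  reg a b := reg_fFact _
  sv a b c _ h h' := h.symm.trans h'
  tot a p := ⟨p, le_rfl, x a, rfl⟩

variable {K : Type u} [LinearOrder K] [OrderBot K]

theorem starts_check {x : K → K} {t : Node K} {p : P} :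
    Starts (checkFun P x) t p ↔ cut x t.len = t := by
  constructor
  · intro h
    exact Node.eq_of rfl fun i (hi : i < t.len) => by rw [cut_val hi]; exact h i hi
  · intro h i hi
    show x i = t.val i
    rw [← h, cut_val hi]

theorem resIn_check {x : K → K} {β : K} {S : SetName P (Node K)} {p : P} :
    ResIn (checkFun P x) β S p ↔ S.mem (cut x β) p := by
  constructor
  · intro h
    refine (S.reg _).dense fun q hq => ?_
    obtain ⟨r, hr, t, ht, hs, hm⟩ := h q hq
    have ht' : t.len = β := ht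
    have := starts_check.1 hs
    rw [ht'] at this
    exact ⟨r, hr, this ▸ hm⟩
  · intro h q hq
    exact ⟨q, le_rfl, cut x β, rfl, starts_check.2 rfl, (S.reg _).mono hq h⟩

end Check

end Pool.Agent.KM
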