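import Pool.Agent.Lib.MP_8c1a1d_lc.FnPoset

set_option linter.unusedSectionVars false
set_option linter.unusedVariables false

namespace Pool.Agent.KM

open Cardinal Order

universe u v

/-! ## Well-orders of type a regular cardinal -/

section KFacts

variable {O : Type u} [LinearOrder O] [WellFoundedLT O] {θ : Cardinal.{u}}

theorem card_of_type (hO : Ordinal.type (fun a b : O => a < b) = θ.ord) : #O = θ := by
  have := congrArg Ordinal.card hO
  simpa using this

theorem card_Iio_lt (hO : Ordinal.type (fun a b : O => a < b) = θ.ord) (a : O) :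
    #(Set.Iio a) < θ := by
  have h := Ordinal.typein_lt_type (fun a b : O => a < b) a
  rw [hO, Cardinal.lt_ord, Ordinal.card_typein] at h
  exact h

theorem exists_card_Iio (hO : Ordinal.type (fun a b : O => a < b) = θ.ord) {c : Cardinal.{u}}
    (hc : c < θ) : ∃ a : O, #(Set.Iio a) = c := by
  have h : c.ord < Ordinal.type (fun a b : O => a < b) := by rw [hO]; exact Cardinal.ord_lt_ord.2 hc
  refine ⟨Ordinal.enum (fun a b : O => a < b) ⟨c.ord, h⟩, ?_⟩
  have h2 := Ordinal.card_typein (r := fun a b : O => a < b)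
    (Ordinal.enum (fun a b : O => a < b) ⟨c.ord, h⟩)
  rw [Ordinal.typein_enum, Cardinal.card_ord] at h2
  exact h2.symm

theorem exists_bound (hθ : θ.IsRegular) (hO : Ordinal.type (fun a b : O => a < b) = θ.ord)
    (Y : Set O) (hY : #Y < θ) : ∃ b, ∀ y ∈ Y, y < b := by
  let f : Y → Ordinal.{u} := fun y => Order.succ (Ordinal.typein (fun a b : O => a < b) y.1)
  have hlim : Order.IsSuccLimit θ.ord := Cardinal.isSuccLimit_ord hθ.aleph0_le
  have hf : ∀ y, f y < θ.ord := fun y => by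
    refine hlim.succ_lt ?_
    rw [← hO]; exact Ordinal.typein_lt_type _ _
  have hsup : iSup f < θ.ord := by
    refine Ordinal.iSup_lt_of_lt_cof ?_ hf
    rw [hθ.cof_ord]; exact hY
  rw [← hO] at hsup
  refine ⟨Ordinal.enum (fun a b : O => a < b) ⟨iSup f, hsup⟩, fun y hy => ?_⟩
  have h1 : Ordinal.typein (fun a b : O => a < b) y < iSup f :=
    lt_of_lt_of_le (Order.lt_succ _) (Ordinal.le_iSup f ⟨y, hy⟩)
  have h2 := Ordinal.typein_lt_typein (fun a b : O => a < b) (a := y)
    (b := Ordinal.enum (fun a b : O => a < b) ⟨iSup f, hsup⟩)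
  rw [Ordinal.typein_enum] at h2
  exact h2.1 h1

theorem noMaxOrder_of_type (hθ : θ.IsRegular) (hO : Ordinal.type (fun a b : O => a < b) = θ.ord) :
    NoMaxOrder O := by
  refine ⟨fun a => ?_⟩
  obtain ⟨b, hb⟩ := exists_bound hθ hO {a} (by
    rw [Cardinal.mk_singleton]; exact Cardinal.one_lt_aleph0.trans_le hθ.aleph0_le)
  exact ⟨b, hb a rfl⟩

end KFacts

/-! ## The number of small subsets -/

theorem card_small_sets {θ : Cardinal.{u}} (hθ : θ.IsRegular) (hpow : ∀ c < θ, θ ^ c ≤ θ)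
    {B : Type u} (hB : #B ≤ θ) : #{G : Set B // #G < θ} ≤ θ := by
  let O := θ.ord.ToType
  have hO : Ordinal.type (fun a b : O => a < b) = θ.ord := Ordinal.type_toType _
  have hsub : {G : Set B | #G < θ} ⊆ ⋃ a : O, {G : Set B | #G ≤ #(Set.Iio a)} := by
    intro G hG
    obtain ⟨a, ha⟩ := exists_card_Iio hO hG
    exact Set.mem_iUnion.2 ⟨a, ha.ge⟩
  refine (Cardinal.mk_le_mk_of_subset hsub).trans ?_
  refine Cardinal.mk_iUnion_le_sum_mk.trans ?_
  have h1 : ∀ a : O, #{G : Set B | #G ≤ #(Set.Iio a)} ≤ θ := by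
    intro a
    change #{G : Set B // #G ≤ #(Set.Iio a)} ≤ θ
    refine (Cardinal.mk_bounded_set_le B _).trans ?_
    refine le_trans (Cardinal.power_le_power_right (max_le hB hθ.aleph0_le)) ?_
    exact hpow _ (card_Iio_lt hO a)
  refine (Cardinal.sum_le_sum _ (fun _ => θ) h1).trans ?_
  rw [Cardinal.sum_const', card_of_type hO]
  exact (Cardinal.mul_eq_self hθ.aleph0_le).le

/-- the number of conditions supported in a small set of coordinates -/
theorem card_supported {θ : Cardinal.{u}} (hθ : θ.IsRegular) (hpow : ∀ c < θ, θ ^ c ≤ θ)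
    {E A : Type u} (hA : #A ≤ θ) (J : Set E) (hJ : #J ≤ θ) :
    #{p : Fn θ E A // ∀ e, p.f e ≠ none → e ∈ J} ≤ θ := by
  have hB : #(J × A) ≤ θ := by
    rw [Cardinal.mk_prod, Cardinal.lift_id, Cardinal.lift_id]
    exact (mul_le_mul' hJ hA).trans (Cardinal.mul_eq_self hθ.aleph0_le).le
  refine le_trans ?_ (card_small_sets hθ hpow hB)
  -- the graph of a condition
  refine Cardinal.mk_le_of_injective
    (f := fun p : {p : Fn θ E A // ∀ e, p.f e ≠ none → e ∈ J} =>
      (⟨{x : J × A | p.1.f x.1 = some x.2}, ?_⟩ : {G : Set (J × A) // #G < θ})) ?_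
  · refine lt_of_le_of_lt ?_ p.1.small
    refine Cardinal.mk_le_of_injective
      (f := fun x : {x : J × A | p.1.f x.1 = some x.2} =>
        (⟨x.1.1.1, by have := x.2; simp only [Set.mem_ofPred_eq] at this; rw [this]; simp⟩ :
          {e // p.1.f e ≠ none})) ?_
    rintro ⟨⟨⟨e, he⟩, a⟩, hx⟩ ⟨⟨⟨e', he'⟩, a'⟩, hx'⟩ h
    simp only [Subtype.mk.injEq] at h
    subst h
    simp only [Set.mem_ofPred_eq] at hx hx'
    rw [hx] at hx'
    cases hx'
    rfl
  · rintro ⟨p, hp⟩ ⟨q, hq⟩ h
    simp only [Subtype.mk.injEq] at h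
    apply Subtype.ext
    refine Fn.ext' fun e => ?_
    show p.f e = q.f e
    by_cases he : e ∈ J
    · have h' : ∀ a, p.f e = some a ↔ q.f e = some a := fun a =>
        Set.ext_iff.1 h (⟨e, he⟩, a)
      cases hpe : p.f e with
      | none =>
        cases hqe : q.f e with
        | none => rfl
        | some a => rw [(h' a).2 hqe] at hpe; cases hpe
      | some a => exact ((h' a).1 hpe).symm
    · have h1 : p.f e = none := by by_contra hne; exact he (hp e hne)
      have h2 : q.f e = none := by by_contra hne; exact he (hq e hne)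
      rw [h1, h2]

/-! ## Supports -/

/-- Every family of at most `θ` many dense sets is captured by `θ` many coordinates. -/
theorem exists_support {θ : Cardinal.{u}} (hθ : θ.IsRegular) (hpow : ∀ c < θ, θ ^ c ≤ θ)
    {E A ι : Type u} (hA : #A ≤ θ) (π : E → ι) (hπ : ∀ i, #{e // π e = i} ≤ θ)
    {N : Type u} (hN : #N ≤ θ) (D : N → Fn θ E A → Prop) (hd : ∀ n p, ∃ q ≤ p, D n q) :
    ∃ J : Set ι, #J ≤ θ ∧ ∀ n (p : Fn θ E A), (∀ e, p.f e ≠ none → π e ∈ J) →
      ∃ q ≤ p, (∀ e, q.f e ≠ none → π e ∈ J) ∧ D n q := by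
  classical
  let O := θ.ord.ToType
  have hO : Ordinal.type (fun a b : O => a < b) = θ.ord := Ordinal.type_toType _
  have hOc : #O = θ := card_of_type hO
  choose ext hext hextD using hd
  -- one step of the closure
  let cl : Set ι → Set ι := fun J => J ∪
    ⋃ x : N × {p : Fn θ E A // ∀ e, p.f e ≠ none → e ∈ π ⁻¹' J},
      π '' {e | (ext x.1 x.2.1).f e ≠ none}
  have hcl : ∀ J : Set ι, #J ≤ θ → #(cl J) ≤ θ := by
    intro J hJ
    have hJ' : #(π ⁻¹' J) ≤ θ := by
      have hsub : π ⁻¹' J ⊆ ⋃ i : J, {e | π e = i} := fun e he => Set.mem_iUnion.2 ⟨⟨π e, he⟩, rfl⟩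
      refine (Cardinal.mk_le_mk_of_subset hsub).trans (Cardinal.mk_iUnion_le_sum_mk.trans ?_)
      refine (Cardinal.sum_le_sum _ (fun _ => θ) fun i : J => hπ i).trans ?_
      rw [Cardinal.sum_const']
      exact (mul_le_mul' hJ le_rfl).trans (Cardinal.mul_eq_self hθ.aleph0_le).le
    refine (Cardinal.mk_union_le _ _).trans ?_
    refine (add_le_add hJ ?_).trans (Cardinal.add_eq_self hθ.aleph0_le).le
    refine Cardinal.mk_iUnion_le_sum_mk.trans ?_
    refine (Cardinal.sum_le_sum _ (fun _ => θ) fun x => ?_).trans ?_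
    · exact Cardinal.mk_image_le.trans (ext x.1 x.2.1).small.le
    · rw [Cardinal.sum_const', Cardinal.mk_prod, Cardinal.lift_id, Cardinal.lift_id]
      refine (mul_le_mul' (mul_le_mul' hN (card_supported hθ hpow hA _ hJ')) le_rfl).trans ?_
      rw [Cardinal.mul_eq_self hθ.aleph0_le, Cardinal.mul_eq_self hθ.aleph0_le]
  let step : (a : O) → ((b : O) → b < a → Set ι) → Set ι :=
    fun a G => ⋃ b : Set.Iio a, cl (G b.1 b.2)
  let Jf : O → Set ι := WellFounded.fix (wellFounded_lt (α := O)) step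
  have hJf : ∀ a, Jf a = ⋃ b : Set.Iio a, cl (Jf b) := fun a =>
    WellFounded.fix_eq (wellFounded_lt (α := O)) step a
  have hJcard : ∀ a, #(Jf a) ≤ θ := by
    intro a
    induction a using WellFoundedLT.induction with
    | ind a ih =>
      rw [hJf]
      refine Cardinal.mk_iUnion_le_sum_mk.trans ?_
      refine (Cardinal.sum_le_sum _ (fun _ => θ) fun b : Set.Iio a => hcl _ (ih b.1 b.2)).trans ?_
      rw [Cardinal.sum_const']
      exact (mul_le_mul' (card_Iio_lt hO a).le le_rfl).trans (Cardinal.mul_eq_self hθ.aleph0_le).le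
  have hsucc : ∀ a b, a < b → cl (Jf a) ⊆ Jf b := by
    intro a b hab
    rw [hJf b]
    exact Set.subset_iUnion (fun c : Set.Iio b => cl (Jf c)) ⟨a, hab⟩
  have hmono : ∀ a b, a ≤ b → Jf a ⊆ Jf b := by
    intro a b hab
    rcases hab.lt_or_eq with h | h
    · exact Set.subset_union_left.trans (hsucc a b h)
    · rw [h]
  refine ⟨⋃ a, Jf a, ?_, ?_⟩
  · refine Cardinal.mk_iUnion_le_sum_mk.trans ?_
    refine (Cardinal.sum_le_sum _ (fun _ => θ) fun b => hJcard b).trans ?_
    rw [Cardinal.sum_const', hOc]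
    exact (Cardinal.mul_eq_self hθ.aleph0_le).le
  · intro n p hp
    -- the support of `p` lies in some `Jf a`
    have hch : ∀ e : {e // p.f e ≠ none}, ∃ a : O, π e ∈ Jf a := fun e => Set.mem_iUnion.1 (hp e e.2)
    choose g hg using hch
    obtain ⟨b, hb⟩ := exists_bound hθ hO (Set.range g)
      (Cardinal.mk_range_le.trans_lt p.small)
    have hpb : ∀ e, p.f e ≠ none → e ∈ π ⁻¹' (Jf b) := fun e he =>
      hmono _ _ (hb _ ⟨⟨e, he⟩, rfl⟩).le (hg ⟨e, he⟩)
    have := noMaxOrder_of_type hθ hO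
    obtain ⟨b', hb'⟩ := exists_gt b
    refine ⟨ext n p, hext n p, fun e he => ?_, hextD n p⟩
    refine Set.mem_iUnion.2 ⟨b', hsucc b b' hb' ?_⟩
    right
    exact Set.mem_iUnion.2 ⟨(n, ⟨p, hpb⟩), e, he, rfl⟩

section

variable {θ : Cardinal.{u}} {E A : Type u} (hθ : ℵ₀ ≤ θ)

include hθ in
/-- A regular truth value decided densely inside `J` depends only on `J`. -/
theorem spers_of_dense {J : Set E} {B : Sort*} {φ : B → Fn θ E A → Prop}
    (hreg : ∀ b, Reg (φ b)) (hsv : ∀ a b p, φ a p → φ b p → a = b)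
    (hd : ∀ p : Fn θ E A, (∀ e, p.f e ≠ none → e ∈ J) →
      ∃ q ≤ p, (∀ e, q.f e ≠ none → e ∈ J) ∧ ∃ b, φ b q) (b : B) : SPers J (φ b) := by
  intro p q hq hp
  refine (hreg b).dense fun r hr => ?_
  -- the `J` part of `r`
  obtain ⟨s, hs, hsJ, b', hb'⟩ := hd (mix hθ J r (Fn.empty hθ)) (by
    intro e he
    by_contra hne
    exact he (mix_f_not_mem hθ hne))
  -- `s` is compatible with `p` and with `r`
  have hsr : LeOn J s r := (LeOn.of_le hs).trans (mix_leOn_left hθ)
  have hsp : LeOn J s p := hsr.trans ((LeOn.of_le hr).trans hq)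
  have hle : ∀ x, mix hθ J s x ≤ s := by
    intro x e a ha
    have he : e ∈ J := hsJ e (by rw [ha]; simp)
    rw [mix_f_mem hθ he]; exact ha
  have hbb : b' = b := hsv _ _ (mix hθ J s p) ((hreg b').mono (hle p) hb')
    ((hreg b).mono (mix_le hθ hsp) hp)
  subst hbb
  exact ⟨mix hθ J s r, mix_le hθ hsr, (hreg _).mono (hle r) hb'⟩

end

end Pool.Agent.KM
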