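import Pool.Agent.Lib.MP_8c1a1d_lc.Perfect
import Pool.Agent.Lib.MP_8c1a1d_lc.Support

set_option linter.unusedSectionVars false
set_option linter.unusedVariables false

namespace Pool.Agent.KM

open Cardinal Order

universe u v

/-! ## The topology -/

section Topology

variable {K : Type u} [LinearOrder K] [OrderBot K] [WellFoundedLT K]

theorem cut_eq_mono {x z : K → K} {β γ : K} (h : cut z γ = cut x γ) (hβ : β ≤ γ) :
    cut z β = cut x β := by
  rw [← cut_res hβ, h, cut_res hβ]

theorem isOpen_node (t : Node K) : IsOpen {x : GB K | cut x t.len = t} :=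
  TopologicalSpace.isOpen_generateFrom_of_mem ⟨t, rfl⟩

theorem open_nhds {V : Set (GB K)} (hV : IsOpen V) {x : GB K} (hx : x ∈ V) :
    ∃ β : K, ∀ z : GB K, cut z β = cut x β → z ∈ V := by
  have hV' : TopologicalSpace.GenerateOpen
      {N | ∃ t : Node K, N = {x : GB K | cut x t.len = t}} V := hV
  clear hV
  induction hV' with
  | basic s hs =>
    obtain ⟨t, rfl⟩ := hs
    refine ⟨t.len, fun z hz => ?_⟩
    show cut z t.len = t
    rw [hz]; exact hx
  | univ => exact ⟨⊥, fun z _ => trivial⟩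
  | inter s t _ _ ihs iht =>
    obtain ⟨β, hβ⟩ := ihs hx.1
    obtain ⟨γ, hγ⟩ := iht hx.2
    refine ⟨max β γ, fun z hz => ⟨hβ z ?_, hγ z ?_⟩⟩
    · exact cut_eq_mono hz (le_max_left β γ)
    · exact cut_eq_mono hz (le_max_right β γ)
  | sUnion S _ ih =>
    obtain ⟨s, hs, hxs⟩ := hx
    obtain ⟨β, hβ⟩ := ih s hs hxs
    exact ⟨β, fun z hz => ⟨s, hs, hβ z hz⟩⟩

theorem isClosed_body (U : Set (Node K)) : IsClosed (X := GB K) (Body U) := by
  refine isOpen_compl_iff.1 (isOpen_iff_forall_mem_open.2 ?_)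
  intro x hx
  have hx' : ¬ ∀ β, cut x β ∈ U := hx
  push Not at hx'
  obtain ⟨β, hβ⟩ := hx'
  refine ⟨{z : GB K | cut z (cut x β).len = cut x β}, ?_, isOpen_node _, rfl⟩
  intro z (hz : cut z β = cut x β) hzU
  have h1 : cut z β ∈ U := hzU β
  rw [hz] at h1
  exact hβ h1

end Topology

/-! ## Sets covered by `κ` many `κ`-compact sets are bounded -/

section Bounded

variable {θ : Cardinal.{u}}
variable {K : Type u} [LinearOrder K] [OrderBot K] [WellFoundedLT K] [SuccOrder K] [NoMaxOrder K]

theorem bounded_of_kkappa (hreg : θ.IsRegular)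
    (hO : Ordinal.type (fun a b : K => a < b) = θ.ord) {B : Set (GB K)} (hB : IsKKappa θ B) :
    ∃ g : K → K, ∀ x ∈ B, ∃ β, ∀ γ, β ≤ γ → x γ < g γ := by
  classical
  obtain ⟨D, hD, rfl⟩ := hB
  have key : ∀ ξ γ : K, ∃ b, ∀ x ∈ D ξ, x γ < b := by
    intro ξ γ
    obtain ⟨𝒱, h1, h2, h3⟩ := hD ξ {N | ∃ t : Node K, t.len = succ γ ∧
      N = {x : GB K | cut x t.len = t}} (by rintro V ⟨t, _, rfl⟩; exact isOpen_node t) (by
        intro x _
        exact ⟨_, ⟨cut x (succ γ), rfl, rfl⟩, rfl⟩)
    have h1' : ∀ V : 𝒱, ∃ t : Node K, t.len = succ γ ∧ V.1 = {x : GB K | cut x t.len = t} :=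
      fun V => h1 V.2
    choose tt ht1 ht2 using h1'
    obtain ⟨b, hb⟩ := exists_bound hreg hO (Set.range fun V : 𝒱 => (tt V).val γ)
      (Cardinal.mk_range_le.trans_lt h2)
    refine ⟨b, fun x hx => ?_⟩
    obtain ⟨V, hV, hxV⟩ := h3 hx
    have h4 : cut x (tt ⟨V, hV⟩).len = tt ⟨V, hV⟩ := by
      have := ht2 ⟨V, hV⟩
      change V = _ at this
      rw [this] at hxV
      exact hxV
    have h5 : (tt ⟨V, hV⟩).val γ = x γ := by
      have h6 : (cut (K := K) x (tt ⟨V, hV⟩).len).val γ = x γ := cut_val (K := K) (by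
        rw [ht1]; exact lt_succ γ)
      exact (congrArg (fun s : Node K => s.val γ) h4).symm.trans h6
    rw [← h5]
    exact hb _ ⟨⟨V, hV⟩, rfl⟩
  choose b hb using key
  have hG : ∀ γ : K, ∃ G, ∀ ξ ≤ γ, b ξ γ < G := by
    intro γ
    obtain ⟨G, hG⟩ := exists_bound hreg hO (Set.range fun ξ : Set.Iio (succ γ) => b ξ γ)
      (Cardinal.mk_range_le.trans_lt (card_Iio_lt hO _))
    exact ⟨G, fun ξ hξ => hG _ ⟨⟨ξ, lt_succ_iff.2 hξ⟩, rfl⟩⟩
  choose G hG using hG
  refine ⟨G, fun x hx => ?_⟩
  obtain ⟨ξ, hξ⟩ := Set.mem_iUnion.1 hx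
  exact ⟨ξ, fun γ hγ => (hb ξ γ x hξ).trans (hG γ ξ hγ)⟩

end Bounded

/-! ## Homeomorphic copies of the generalized Baire space -/

section Copy

variable {θ : Cardinal.{u}}
variable {K : Type u} [LinearOrder K] [OrderBot K] [WellFoundedLT K] [SuccOrder K] [NoMaxOrder K]

/-- the nodes, longer nodes being stronger -/
def RNode (K : Type u) [LinearOrder K] [OrderBot K] : Type u := Node K

instance : Preorder (RNode K) where
  le q p := (show Node K from p) ≤ (show Node K from q)
  le_refl p := Node.le_refl _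
  le_trans p q r h h' := Node.le_trans h' h

theorem rnode_closed (hreg : θ.IsRegular) (hO : Ordinal.type (fun a b : K => a < b) = θ.ord) :
    IsClosedPoset K (RNode K) := by
  classical
  intro α f hf
  let f' : K → Node K := f
  obtain ⟨L, hL⟩ := exists_bound hreg hO (Set.range fun β : Set.Iio α => (f' β).len)
    (Cardinal.mk_range_le.trans_lt (card_Iio_lt hO _))
  let x : K → K := fun i => if h : ∃ β < α, i < (f' β).len then (f' h.choose).val i else ⊥
  refine ⟨cut x L, fun β hβ => ?_⟩
  show f' β ≤ cut x L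
  have hlt : (f' β).len < L := hL _ ⟨⟨β, hβ⟩, rfl⟩
  refine ⟨hlt.le, fun i hi => ?_⟩
  rw [cut_val (hi.trans hlt)]
  have hex : ∃ β < α, i < (f' β).len := ⟨β, hβ, hi⟩
  show _ = if h : ∃ β < α, i < (f' β).len then (f' h.choose).val i else ⊥
  rw [dif_pos hex]
  obtain ⟨h1, h2⟩ := hex.choose_spec
  rcases le_total β hex.choose with h | h
  · exact (show f' β ≤ f' hex.choose from hf _ _ h h1).2 i hi
  · exact ((show f' hex.choose ≤ f' β from hf _ _ h hβ).2 i h2).symm

theorem perfect_of_copy (hreg : θ.IsRegular)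
    (hO : Ordinal.type (fun a b : K => a < b) = θ.ord) {U : Set (Node K)} {E : Set (GB K)}
    (hE : E ⊆ Body U) (e : GB K ≃ₜ E) :
    ∃ S : Set (Node K), S ⊆ U ∧ Superclosed S ∧ IsPerfect S := by
  classical
  have hcont : Continuous fun z : GB K => ((e z : E) : GB K) := continuous_subtype_val.comp e.continuous
  let E' : GB K → K → K := fun z => ((e z : E) : GB K)
  have hinj : ∀ x y : GB K, E' x = E' y → x = y := fun x y h => e.injective (Subtype.ext h)
  refine exists_perfect (rnode_closed hreg hO)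
    (fun (t : Node K) (v : RNode K) => ∀ z : GB K, cut z (show Node K from v).len = v →
      cut (E' z) t.len = t) ?_ ?_ ?_ ?_ ?_ U ?_
  · exact ⟨(root : Node K), fun z _ => eq_root rfl⟩
  · intro t q q' hq' h z hz
    refine h z ?_
    have hle : (show Node K from q) ≤ (show Node K from q') := hq'
    have h1 := cut_res (x := z) hle.1
    rw [hz] at h1
    rw [← h1]
    exact res_eq_of_le hle
  · intro t q h β hβ z hz
    have h1 := h z hz
    show cut (E' z) β = t.res β
    rw [← cut_res hβ, h1]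
  · intro t q hl hall z hz
    refine Node.eq_of rfl fun i (hi : i < t.len) => ?_
    have h1 := hall (succ i) (hl.succ_lt hi) z hz
    have h2 : (cut (E' z) (succ i)).val i = (t.res (succ i)).val i :=
      congrArg (fun s : Node K => s.val i) h1
    rw [cut_val (lt_succ i), res_val (lt_succ i)] at h2
    rw [cut_val hi]; exact h2
  · intro t v hR
    let v' : Node K := v
    -- two points
    let x : GB K := v'.val
    obtain ⟨b, hb⟩ : ∃ b : K, b ≠ ⊥ := ⟨succ ⊥, (lt_succ _).ne'⟩
    let y : GB K := fun i => if i = v'.len then b else v'.val i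
    have hx : cut x v'.len = v' := Node.eq_of rfl fun i hi => cut_val hi
    have hy : cut y v'.len = v' := Node.eq_of rfl fun i (hi : i < v'.len) => by
      rw [cut_val hi]; exact if_neg hi.ne
    have hxy : x ≠ y := by
      intro h
      have h1 := congrFun h v'.len
      have h2 : y v'.len = b := if_pos rfl
      have h3 : x v'.len = ⊥ := v'.out _ le_rfl
      rw [h2, h3] at h1
      exact hb h1.symm
    have hne : ∃ δ, E' x δ ≠ E' y δ := by
      by_contra hcon
      push Not at hcon
      exact hxy (hinj x y (funext hcon))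
    let δ := WellFounded.min (wellFounded_lt (α := K)) {δ | E' x δ ≠ E' y δ} hne
    have hδ : E' x δ ≠ E' y δ := WellFounded.min_mem (wellFounded_lt (α := K)) _ hne
    have hδ' : ∀ i < δ, E' x i = E' y i := by
      intro i hi
      by_contra hc
      exact WellFounded.not_lt_min (wellFounded_lt (α := K)) {δ | E' x δ ≠ E' y δ} (x := i) hc hi
    have ex := hR x hx
    have ey := hR y hy
    have htδ : t.len ≤ δ := by
      by_contra hlt
      rw [not_le] at hlt
      apply hδ
      have h1 := congrArg (fun s : Node K => s.val δ) ex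
      have h2 := congrArg (fun s : Node K => s.val δ) ey
      simp only [cut_val hlt] at h1 h2
      rw [h1, h2]
    have hcutxy : cut (E' x) δ = cut (E' y) δ := Node.eq_of rfl fun i (hi : i < δ) => by
      rw [cut_val hi, cut_val hi]; exact hδ' i hi
    -- neighbourhoods
    have nb : ∀ w : GB K, cut w v'.len = v' → ∃ v₁ : Node K, v' ≤ v₁ ∧
        ∀ z : GB K, cut z v₁.len = v₁ →
          cut (E' z) ((cut (E' w) δ).snoc (E' w δ)).len = (cut (E' w) δ).snoc (E' w δ) := by
      intro w hw
      have hsn : (cut (E' w) δ).snoc (E' w δ) = cut (E' w) (succ δ) := by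
        have h1 := eq_snoc (t := cut (E' w) (succ δ)) (β := δ) rfl
        rw [cut_res (le_succ δ), cut_val (lt_succ δ)] at h1
        exact h1.symm
      rw [hsn]
      have hop := (isOpen_node (cut (E' w) (succ δ))).preimage hcont
      obtain ⟨β, hβ⟩ := open_nhds hop (x := w) rfl
      refine ⟨cut w (max β v'.len), ?_, fun z hz => ?_⟩
      · have h2 := cut_le_cut w (le_max_right β v'.len)
        rwa [hw] at h2
      · have hz' : cut z (max β v'.len) = cut w (max β v'.len) := hz
        exact hβ z (cut_eq_mono hz' (le_max_left β v'.len))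
    obtain ⟨v₁, hv₁, h1⟩ := nb x hx
    obtain ⟨v₂, hv₂, h2⟩ := nb y hy
    refine ⟨cut (E' x) δ, ?_, E' x δ, E' y δ, hδ, v₁, hv₁, v₂, hv₂, h1, ?_⟩
    · rw [← ex]; exact cut_le_cut _ htδ
    · rw [hcutxy]; exact h2
  · intro t v hR
    let v' : Node K := v
    have h1 := hR v'.val (Node.eq_of rfl fun i hi => cut_val hi)
    rw [← h1]
    exact hE (e v'.val).2 t.len

/-- **ZFC.** If `[U]` is unbounded and `U` has no superclosed perfect subtree then the closed set
`[U]` fails the Hurewicz dichotomy. -/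
theorem not_hurewicz (hreg : θ.IsRegular)
    (hO : Ordinal.type (fun a b : K => a < b) = θ.ord) {U : Set (Node K)}
    (hU : IsUnbounded (Body U)) (hU' : NoPerfect U) :
    IsClosed (X := GB K) (Body U) ∧ ¬ Hurewicz θ (K := K) (Body U) := by
  refine ⟨isClosed_body U, ?_⟩
  rintro (⟨B, hB, hsub⟩ | ⟨E, hE, _, ⟨e⟩⟩)
  · obtain ⟨g, hg⟩ := bounded_of_kkappa hreg hO hB
    obtain ⟨x, hx, hxg⟩ := hU g
    obtain ⟨β, hβ⟩ := hg x (hsub hx)
    obtain ⟨γ, h1, h2⟩ := hxg β
    exact absurd (hβ γ h1) (not_lt.2 h2.le)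
  · exact hU' (perfect_of_copy hreg hO hE e.symm)

end Copy

end Pool.Agent.KM
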