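import Pool.Agent.Lib.MP_8c1a1d_lc.CohenReal
import Pool.Agent.Lib.MP_8c1a1d_lc.Hurewicz

set_option linter.unusedSectionVars false
set_option linter.unusedVariables false

namespace Pool.Agent.KM

open Cardinal Order

universe u v

/-! ## Cantor schemes and perfect trees -/

section Scheme

variable {κ : Cardinal.{u}}
variable {K : Type u} [LinearOrder K] [OrderBot K] [WellFoundedLT K] [SuccOrder K] [NoMaxOrder K]

theorem path_length (x : ℕ → Bool) (n : ℕ) : (path x n).length = n := by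
  induction n with
  | zero => rfl
  | succ n ih => simp [path, ih]

/-- a superclosed perfect tree contains a Cantor scheme -/
theorem exists_scheme (hreg : κ.IsRegular) (hunc : ℵ₀ < κ)
    (hO : Ordinal.type (fun a b : K => a < b) = κ.ord) {S U : Set (Node K)} (hSU : S ⊆ U)
    (hsc : Superclosed S) (hpf : IsPerfect S) : ∃ e, CantorScheme U e := by
  classical
  obtain ⟨⟨t₀, ht₀⟩, hpf⟩ := hpf
  have hch : ∀ t : S, ∃ y : S × S, t.1 ≤ y.1.1 ∧ t.1 ≤ y.2.1 ∧ ¬ y.1.1 ≤ y.2.1 ∧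
      ¬ y.2.1 ≤ y.1.1 := by
    rintro ⟨t, ht⟩
    obtain ⟨s, hs, s', hs', h⟩ := hpf t ht
    exact ⟨(⟨s, hs⟩, ⟨s', hs'⟩), h⟩
  choose f f1 f2 f3 f4 using hch
  let e : List Bool → S := fun s =>
    List.rec ⟨t₀, ht₀⟩ (fun i _ t => if i then (f t).1 else (f t).2) s
  have he : ∀ i s, e (i :: s) = if i then (f (e s)).1 else (f (e s)).2 := fun i s => rfl
  have hle : ∀ s i, (e s).1 ≤ (e (i :: s)).1 := by
    intro s i
    rw [he]
    cases i
    · exact f2 _
    · exact f1 _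
  have hnle : ∀ s i, ¬ (e (i :: s)).1 ≤ (e s).1 := by
    intro s i h
    rw [he] at h
    cases i
    · exact f4 (e s) (Node.le_trans h (f1 _))
    · exact f3 (e s) (Node.le_trans h (f2 _))
  have hlen : ∀ s i, (e s).1.len < (e (i :: s)).1.len := by
    intro s i
    by_contra hnl
    rw [not_lt] at hnl
    exact hnle s i ⟨hnl, fun j hj => ((hle s i).2 j (hj.trans_le hnl)).symm⟩
  refine ⟨fun s => (e s).1, fun s => hSU (e s).2, hle, fun s => ?_, fun x => ?_⟩
  · exact ⟨f3 (e s), f4 (e s)⟩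
  · let t : ℕ → Node K := fun n => (e (path x n)).1
    have htS : ∀ n, t n ∈ S := fun n => (e (path x n)).2
    have ht1 : ∀ n, t n ≤ t (n + 1) := fun n => hle (path x n) (x n)
    have ht2 : ∀ n, (t n).len < (t (n + 1)).len := fun n => hlen (path x n) (x n)
    have hmono : ∀ m n, m ≤ n → t m ≤ t n := by
      intro m n hmn
      induction n, hmn using Nat.le_induction with
      | base => exact Node.le_refl _
      | succ n _ ih => exact Node.le_trans ih (ht1 n)
    have hbd : ∃ b, b ∈ {b | ∀ n, (t n).len ≤ b} := by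
      obtain ⟨b, hb⟩ := exists_bound hreg hO (Set.range fun n : ULift.{u} ℕ => (t n.down).len) (by
        refine Cardinal.mk_range_le.trans_lt ?_
        rw [Cardinal.mk_uLift, Cardinal.mk_nat, Cardinal.lift_aleph0]; exact hunc)
      exact ⟨b, fun n => (hb _ ⟨⟨n⟩, rfl⟩).le⟩
    let l := WellFounded.min (wellFounded_lt (α := K)) {b | ∀ n, (t n).len ≤ b} hbd
    have hl : ∀ n, (t n).len ≤ l :=
      WellFounded.min_mem (wellFounded_lt (α := K)) {b | ∀ n, (t n).len ≤ b} hbd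
    have hl' : ∀ a < l, ∃ n, a < (t n).len := by
      intro a ha
      by_contra hcon
      push Not at hcon
      exact WellFounded.not_lt_min (wellFounded_lt (α := K)) {b | ∀ n, (t n).len ≤ b}
        (x := a) hcon ha
    let X : K → K := fun i => if h : ∃ n, i < (t n).len then (t h.choose).val i else ⊥
    have hX : ∀ n, ∀ i < (t n).len, X i = (t n).val i := by
      intro n i hi
      have hex : ∃ n, i < (t n).len := ⟨n, hi⟩
      show (if h : ∃ n, i < (t n).len then (t h.choose).val i else ⊥) = _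
      rw [dif_pos hex]
      rcases le_total n hex.choose with h | h
      · exact ((hmono _ _ h).2 i hi).symm
      · exact (hmono _ _ h).2 i hex.choose_spec
    have hlim : IsSuccLimit l := by
      refine ⟨?_, isSuccPrelimit_of_succ_lt fun a ha => ?_⟩
      · rw [isMin_iff_eq_bot]
        intro h0
        have := (ht2 0).trans_le (hl 1)
        rw [h0] at this
        exact not_lt_bot this
      · obtain ⟨n, hn⟩ := hl' a ha
        exact (succ_le_of_lt hn).trans_lt ((ht2 n).trans_le (hl (n + 1)))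
    have hw : ∀ n, t n ≤ cut X l := fun n => ⟨hl n, fun i hi => by
      rw [cut_val (hi.trans_le (hl n)), hX n i hi]⟩
    refine ⟨cut X l, hSU (hsc.2 _ hlim fun β hβ => ?_), hw⟩
    obtain ⟨n, hn⟩ := hl' β hβ
    rw [res_eq_res (hw n) hn.le]
    exact hsc.1 _ (htS n) β hn.le

theorem noPerfect_of_noCantor (hreg : κ.IsRegular) (hunc : ℵ₀ < κ)
    (hO : Ordinal.type (fun a b : K => a < b) = κ.ord) {U : Set (Node K)} (hU : NoCantor U) :
    NoPerfect U := by
  rintro ⟨S, h1, h2, h3⟩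
  exact hU (exists_scheme hreg hunc hO h1 h2 h3)

end Scheme

/-! ## Preservation -/

section Preservation

variable {P : Type u} [Preorder P]
variable {K : Type u} [LinearOrder K] [OrderBot K]

theorem IsOmegaClosed.distrib (hcl : IsOmegaClosed P) {X : Type*} (φ : ℕ → X → P → Prop)
    (hp : ∀ n x p q, q ≤ p → φ n x p → φ n x q) (p₀ : P)
    (hd : ∀ n, ∀ p ≤ p₀, ∃ q ≤ p, ∃ x, φ n x q) : ∃ q ≤ p₀, ∀ n, ∃ x, φ n x q := by
  have step : ∀ (n : ℕ) (p : {p // p ≤ p₀}), ∃ q : {p // p ≤ p₀}, q.1 ≤ p.1 ∧ ∃ x, φ n x q.1 := by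
    rintro n ⟨p, hp⟩
    obtain ⟨q, hq, x, hx⟩ := hd n p hp
    exact ⟨⟨q, hq.trans hp⟩, hq, x, hx⟩
  choose f f1 f2 using step
  let s : ℕ → {p // p ≤ p₀} := fun n => Nat.rec ⟨p₀, le_rfl⟩ (fun n p => f n p) n
  have hs : ∀ n, s (n + 1) = f n (s n) := fun n => rfl
  obtain ⟨q, hq⟩ := hcl (fun n => (s n).1) (fun n => by rw [hs]; exact f1 n _)
  refine ⟨q, (hq 0).trans (s 0).2, fun n => ?_⟩
  obtain ⟨x, hx⟩ := f2 n (s n)
  have := hq (n + 1)
  rw [hs] at this
  exact ⟨x, hp n x _ _ this hx⟩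

/-- `ω`-closed posets add no Cantor scheme. -/
theorem fNoCantor_of_closed (hcl : IsOmegaClosed P) {U : Set (Node K)} (hU : NoCantor U) (p : P) :
    fNoCantor (checkSet U) p := by
  intro q hq hex
  obtain ⟨r, hr, e, h1, h2, h3, h4⟩ := hex q le_rfl
  obtain ⟨g, hg⟩ := exists_surjective_nat (List Bool)
  obtain ⟨q', hq', hdec⟩ := hcl.distrib (fun n t q => e.app ⟨g n⟩ t q)
    (fun n t p q hq h => (e.reg _ _).mono hq h) r (fun n p _ => e.tot _ p)
  have hdec' : ∀ s : List Bool, ∃ t, e.app ⟨s⟩ t q' := by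
    intro s
    obtain ⟨n, rfl⟩ := hg s
    exact hdec n
  choose e₀ he₀ using hdec'
  have key : ∀ s t, ∀ q'' ≤ q', e.app ⟨s⟩ t q'' → t = e₀ s := fun s t q'' hq'' h =>
    e.sv _ _ _ _ h ((e.reg _ _).mono hq'' (he₀ s))
  apply hU
  refine ⟨e₀, fun s => ?_, fun s i => ?_, fun s => ?_, fun x => ?_⟩
  · obtain ⟨q'', hq'', t, ht, hU'⟩ := h1 s q' hq'
    rw [← key s t q'' hq'' ht]; exact hU'
  · obtain ⟨q'', hq'', ⟨t, t'⟩, a1, a2, a3⟩ := h2 s i q' hq'
    rw [← key s t q'' hq'' a2, ← key (i :: s) t' q'' hq'' a3]; exact a1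
  · obtain ⟨q'', hq'', ⟨t, t'⟩, a1, a2, a3⟩ := h3 s q' hq'
    rw [← key (true :: s) t q'' hq'' a2, ← key (false :: s) t' q'' hq'' a3]; exact a1
  · let x' : FunName P (ULift.{u} ℕ) (ULift.{u} Bool) := checkFun P fun n => ⟨x n.down⟩
    have hpath : ∀ n (p : P), Path x' (path x n) p := by
      intro n p
      induction n with
      | zero => trivial
      | succ n ih =>
        refine ⟨?_, ih⟩
        show (⟨x (path x n).length⟩ : ULift.{u} Bool) = ⟨x n⟩
        rw [path_length]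
    obtain ⟨q'', hq'', w, hw, hall⟩ := h4 x' q' hq'
    exact ⟨w, hw, fun n => hall (path x n) (e₀ (path x n)) q'' le_rfl (hpath n q'') q'' le_rfl
      ((e.reg _ _).mono hq'' (he₀ _))⟩

variable {κ : Cardinal.{u}} [WellFoundedLT K] [SuccOrder K] [NoMaxOrder K]

/-- `κ`-c.c. posets preserve unboundedness. -/
theorem fUnbounded_of_cc (hreg : κ.IsRegular)
    (hO : Ordinal.type (fun a b : K => a < b) = κ.ord) (hcc : HasCC κ P) {U : Set (Node K)}
    (hU : IsUnbounded (Body U)) (p : P) : fUnbounded (checkSet U) p := by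
  intro g
  have hG : ∀ γ : K, ∃ G : K, ∀ b, (∃ r, g.app γ b r) → b < G := by
    intro γ
    have hsm : #{b | ∃ r, g.app γ b r} < κ := by
      have hch : ∀ b : {b | ∃ r, g.app γ b r}, ∃ r, g.app γ b r := fun b => b.2
      choose f hf using hch
      have hinj : Function.Injective f := fun b b' h =>
        Subtype.ext (g.sv _ _ _ _ (hf b) (by rw [h]; exact hf b'))
      rw [← Cardinal.mk_range_eq f hinj]
      refine hcc _ ?_
      rintro _ ⟨b, rfl⟩ _ ⟨b', rfl⟩ hne ⟨r, h1, h2⟩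
      apply hne
      have : b = b' := Subtype.ext (g.sv _ _ _ _ ((g.reg _ _).mono h1 (hf b))
        ((g.reg _ _).mono h2 (hf b')))
      rw [this]
    obtain ⟨G, hG⟩ := exists_bound hreg hO {b | ∃ r, g.app γ b r} hsm
    exact ⟨G, fun b hb => hG b hb⟩
  choose G hG using hG
  obtain ⟨x, hx, hxG⟩ := hU G
  refine fEx_intro (fun y => ?_) (checkFun _ x) ⟨?_, ?_⟩
  · exact (reg_fAnd (reg_inBody _ _) (reg_fAll fun _ => reg_fEx)).pers
  · intro β
    exact resIn_check.2 (hx β)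
  · intro β q _
    obtain ⟨γ, hγ, hlt⟩ := hxG β
    obtain ⟨r, hr, b, hb⟩ := g.tot γ q
    exact ⟨r, hr, (γ, b, x γ), ⟨hγ, (hG γ b ⟨r, hb⟩).trans hlt⟩, hb, rfl⟩

end Preservation

end Pool.Agent.KM
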