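import Pool.Agent.Lib.MP_8c1a1d_lc.Fusion

set_option linter.unusedSectionVars false
set_option linter.unusedVariables false

namespace Pool.Agent.KM

open Cardinal Order

universe u v

section Names

variable {P : Type u} [Preorder P] {K : Type u} [LinearOrder K] [OrderBot K]

theorem mem_of_resIn {h : FunName P K K} {S : SetName P (Node K)} {t : Node K} {p : P}
    (hb : ResIn h t.len S p) (ht : Starts h t p) : S.mem t p := by
  refine (S.reg t).dense fun q hq => ?_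
  obtain ⟨r, hr, s, hs, hs1, hs2⟩ := hb q hq
  have hs' : s.len = t.len := hs
  have := starts_eq hs1 ((reg_starts h t).mono (hr.trans hq) ht) hs'
  exact ⟨r, hr, this ▸ hs2⟩

theorem resIn_of_mem {h : FunName P K K} {S : SetName P (Node K)} {t : Node K} {p : P} {β : K}
    (hβ : t.len = β) (ht : Starts h t p) (hm : S.mem t p) : ResIn h β S p :=
  fun q hq => ⟨q, le_rfl, t, hβ, (reg_starts h t).mono hq ht, (S.reg t).mono hq hm⟩

end Names

section Case1

variable {θ : Cardinal.{u}} {E A : Type u}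
variable {K : Type u} [LinearOrder K] [OrderBot K] [WellFoundedLT K] [SuccOrder K] [NoMaxOrder K]
variable (hθ : ℵ₀ ≤ θ) (J : Set E)
variable (h y : FunName (Fn θ E A) K K) (p₁ : Fn θ E A)

/-- `F` is a solution of the recursion. -/
structure IsRec (F : Node K → St θ E A K → Fn θ E A → Prop) : Prop where
  reg : ∀ t x, Reg (F t x)
  sp : ∀ t x, SPers J (F t x)
  sv : ∀ t x y p, F t x p → F t y p → x = y
  ex : ∀ (t : Node K) p, ∃ q ≤ p, ∃ Xs : K → St θ E A K,
    (∀ β ≤ t.len, F (t.res β) (Xs β) q) ∧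
    ∀ β ≤ t.len, Rule hθ J h y p₁ (t.res β) Xs (Xs β) q

variable {h y p₁} {F : Node K → St θ E A K → Fn θ E A → Prop}

/-- The tree of all nodes whose history obeys the rules. -/
def treeS (F : Node K → St θ E A K → Fn θ E A → Prop) (h : FunName (Fn θ E A) K K) :
    SetName (Fn θ E A) (Node K) where
  mem t := fEx fun Xs : K → St θ E A K =>
    fAnd (fAll fun β : Set.Iio t.len => F (t.res β) (Xs β)) (inS hθ J h t Xs)
  reg t := reg_fEx

variable {hθ J}

theorem treeS_intro (hF : IsRec hθ J h y p₁ F) {t : Node K} {Xs : K → St θ E A K} {p : Fn θ E A}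
    (h1 : ∀ β < t.len, F (t.res β) (Xs β) p) (h2 : inS hθ J h t Xs p) :
    (treeS hθ J F h).mem t p :=
  fun q hq => ⟨q, le_rfl, Xs, fun β => (hF.reg _ _).mono hq (h1 β β.2),
    (reg_inS hθ J h t Xs).mono hq h2⟩

theorem treeS_inS (hF : IsRec hθ J h y p₁ F) {t : Node K} {Xs : K → St θ E A K} {p : Fn θ E A}
    (hm : (treeS hθ J F h).mem t p) (h1 : ∀ β < t.len, F (t.res β) (Xs β) p) :
    inS hθ J h t Xs p := by
  refine (reg_inS hθ J h t Xs).dense fun q hq => ?_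
  obtain ⟨r, hr, Ys, h2, h3⟩ := hm q hq
  refine ⟨r, hr, inS_congr hθ J h (fun β hβ => ?_) h3⟩
  exact hF.sv _ _ _ r (h2 ⟨β, hβ⟩) ((hF.reg _ _).mono (hr.trans hq) (h1 β hβ))

theorem treeS_root (hF : IsRec hθ J h y p₁ F) (p : Fn θ E A) :
    (treeS hθ J F h).mem root p :=
  treeS_intro hF (Xs := fun _ => (p, root, root)) (fun β hβ => absurd hβ not_lt_bot)
    (fun β => absurd β.2 not_lt_bot)

theorem treeS_tree (hF : IsRec hθ J h y p₁ F) (p : Fn θ E A) : fTree (treeS hθ J F h) p := by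
  intro t β q hq hm r hr hβ r' hr'
  have hβ' : β ≤ t.len := hβ
  obtain ⟨s, hs, Xs, h1, h2⟩ := hm r' (hr'.trans hr)
  refine ⟨s, hs, Xs, ?_, inS_res hθ J h hβ' h2⟩
  rintro ⟨γ, hγ⟩
  have hγ' : γ < β := hγ
  have := h1 ⟨γ, hγ'.trans_le hβ'⟩
  show F ((t.res β).res γ) (Xs γ) s
  rw [res_res hγ'.le]
  exact this

theorem treeS_limit (hF : IsRec hθ J h y p₁ F) {t : Node K} (hl : IsSuccLimit t.len)
    {p : Fn θ E A} (hm : ∀ β < t.len, (treeS hθ J F h).mem (t.res β) p) :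
    (treeS hθ J F h).mem t p := by
  refine ((treeS hθ J F h).reg t).dense fun q hq => ?_
  obtain ⟨r, hr, Xs, h1, h2⟩ := hF.ex t q
  refine ⟨r, hr, treeS_intro hF (fun β hβ => h1 β hβ.le) ?_⟩
  rintro ⟨γ, hγ⟩
  have hγ' : γ < t.len := hγ
  have hs : succ γ < t.len := hl.succ_lt hγ'
  have h3 : inS hθ J h (t.res (succ γ)) Xs r := by
    refine treeS_inS hF (((treeS hθ J F h).reg _).mono (hr.trans hq) (hm _ hs)) ?_
    intro β (hβ : β < succ γ)
    rw [res_res hβ.le]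
    exact h1 β (hβ.trans hs).le
  have h4 := h3 ⟨γ, lt_succ γ⟩
  change Allowed hθ J h ((t.res (succ γ)).res γ) (Xs γ) ((t.res (succ γ)).val γ) r at h4
  rw [res_res (le_succ γ), res_val (lt_succ γ)] at h4
  exact h4

theorem treeS_superclosed (hcl : IsClosedPoset K (Fn θ E A)) (hF : IsRec hθ J h y p₁ F)
    (p : Fn θ E A) : fSuperclosed (treeS hθ J F h) p := by
  refine ⟨treeS_tree hF p, ?_⟩
  intro g l q hq hl r hr hall r' hr'
  have hl' : IsSuccLimit l := hl
  obtain ⟨r'', hr'', t, ht, hst⟩ := decide_res hcl g l r'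
  have hm : (treeS hθ J F h).mem t r'' := by
    refine treeS_limit hF (by rw [ht]; exact hl') fun β hβ => ?_
    have h1 : ResIn g (t.res β).len (treeS hθ J F h) r'' :=
      (reg_resIn _ _ _).mono (hr''.trans hr') (hall ⟨β, by rw [← ht]; exact hβ⟩)
    exact mem_of_resIn h1 (starts_le (res_le hβ.le) hst)
  exact ⟨r'', hr'', t, ht, hst, hm⟩

/-- deciding the history of a node of the tree -/
theorem treeS_hist (hF : IsRec hθ J h y p₁ F) {t : Node K} {p : Fn θ E A} (hp : LeOn J p p₁)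
    (hm : (treeS hθ J F h).mem t p) :
    ∃ q ≤ p, ∃ Xs : K → St θ E A K, (∀ β ≤ t.len, F (t.res β) (Xs β) q) ∧
      (∀ β ≤ t.len, Rule hθ J h y p₁ (t.res β) Xs (Xs β) q) ∧ inS hθ J h t Xs q ∧
      ∀ β ≤ t.len, Valid hθ J h y p₁ t Xs β q := by
  obtain ⟨q, hq, Xs, h1, h2⟩ := hF.ex t p
  have hi : inS hθ J h t Xs q := treeS_inS hF (((treeS hθ J F h).reg _).mono hq hm)
    fun β hβ => h1 β hβ.le
  refine ⟨q, hq, Xs, h1, h2, hi, fun β hβ => ?_⟩
  exact valid_of_hist hθ J h y p₁ ((LeOn.of_le hq).trans hp) β hβ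
    (fun γ hγ => h2 γ (hγ.trans hβ)) (inS_res hθ J h hβ hi)

/-- the walk to the target -/
theorem walk (hF : IsRec hθ J h y p₁ F) {t : Node K} {Xs : K → St θ E A K} {q : Fn θ E A}
    (hq : LeOn J q p₁) (h1 : ∀ β ≤ t.len, F (t.res β) (Xs β) q) (hi : inS hθ J h t Xs q)
    (hle : t ≤ (Xs t.len).2.1) :
    ∀ γ, t.len ≤ γ → γ ≤ (Xs t.len).2.1.len → F ((Xs t.len).2.1.res γ) (Xs t.len) q := by
  intro γ
  induction γ using WellFoundedLT.induction with
  | ind γ ih =>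
    intro g1 g2
    rcases g1.eq_or_lt with h0 | hlt
    · rw [← h0, res_eq_of_le hle]
      have := h1 t.len le_rfl
      rwa [res_self] at this
    refine (hF.reg _ _).dense fun r₀ hr₀ => ?_
    obtain ⟨r₁, hr₁, Zs, z1, z2⟩ := hF.ex ((Xs t.len).2.1.res γ) r₀
    have hr : r₁ ≤ q := hr₁.trans hr₀
    have zlow : ∀ δ < t.len, Zs δ = Xs δ := by
      intro δ hδ
      have a1 := z1 δ ((hδ.trans hlt).le)
      rw [res_res (hδ.trans hlt).le, res_eq_res hle hδ.le] at a1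
      exact hF.sv _ _ _ r₁ a1 ((hF.reg _ _).mono hr (h1 δ hδ.le))
    have zhigh : ∀ δ, t.len ≤ δ → δ < γ → Zs δ = Xs t.len := by
      intro δ d1 d2
      have a1 := z1 δ d2.le
      rw [res_res d2.le] at a1
      exact hF.sv _ _ _ r₁ a1 ((hF.reg _ _).mono hr (ih δ d2 d1 (d2.le.trans g2)))
    have hne : ∀ δ < γ, (Xs t.len).2.1.res δ ≠ (Xs t.len).2.1 := by
      intro δ hδ he
      have : δ = (Xs t.len).2.1.len := congrArg Node.len he
      rw [← this] at g2
      exact absurd hδ (not_lt.2 g2)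
    have hkeep : Keep ((Xs t.len).2.1.res γ) Zs t.len := by
      refine ⟨hlt, fun δ d1 d2 => ?_⟩
      have d2' : δ < γ := d2
      rw [zhigh δ d1 d2', zhigh t.len le_rfl hlt, res_res d2'.le]
      exact ⟨rfl, hne δ d2'⟩
    have hin : inS hθ J h ((Xs t.len).2.1.res γ) Zs r₁ := by
      rintro ⟨δ, hδ⟩
      have hδ' : δ < γ := hδ
      show Allowed hθ J h (((Xs t.len).2.1.res γ).res δ) (Zs δ) (((Xs t.len).2.1.res γ).val δ) r₁
      rw [res_res hδ'.le, res_val hδ']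
      rcases lt_or_ge δ t.len with h' | h'
      · rw [zlow δ h', res_eq_res hle h'.le, ← hle.2 δ h']
        exact (reg_allowed hθ J h _ _ _).mono hr (hi ⟨δ, h'⟩)
      · rw [zhigh δ h' hδ']
        exact ⟨fun _ => rfl, fun he => absurd he (hne δ hδ')⟩
    have hz := (z2 γ le_rfl r₁ le_rfl ⟨(LeOn.of_le hr).trans hq, by
      have := hin
      rwa [show ((Xs t.len).2.1.res γ).res γ = (Xs t.len).2.1.res γ from res_res le_rfl]⟩).1
      t.len (by rwa [show ((Xs t.len).2.1.res γ).res γ = (Xs t.len).2.1.res γ from res_res le_rfl])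
    rw [zhigh t.len le_rfl hlt] at hz
    have a1 := z1 γ le_rfl
    rw [hz, show ((Xs t.len).2.1.res γ).res γ = (Xs t.len).2.1.res γ from res_res le_rfl] at a1
    exact ⟨r₁, hr₁, a1⟩

/-- the target of the state at `t` is in the tree and splits -/
theorem treeS_target (hF : IsRec hθ J h y p₁ F) {t : Node K} {Xs : K → St θ E A K}
    {q : Fn θ E A} (hq : LeOn J q p₁) (h1 : ∀ β ≤ t.len, F (t.res β) (Xs β) q)
    (hi : inS hθ J h t Xs q) (hV : Valid hθ J h y p₁ t Xs t.len q) :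
    (treeS hθ J F h).mem (Xs t.len).2.1 q ∧ fSplits (treeS hθ J F h) (Xs t.len).2.1 q := by
  classical
  obtain ⟨v1, v2, v3, v4, v5, v6, v7⟩ := hV
  rw [res_self] at v2
  have hw := walk hF hq h1 hi v2
  let Ys : K → St θ E A K := fun δ => if δ < t.len then Xs δ else Xs t.len
  have ylow : ∀ δ < t.len, Ys δ = Xs δ := fun δ hδ => if_pos hδ
  have yhigh : ∀ δ, t.len ≤ δ → Ys δ = Xs t.len := fun δ hδ => if_neg (not_lt.2 hδ)
  have hFY : ∀ δ ≤ (Xs t.len).2.1.len, F ((Xs t.len).2.1.res δ) (Ys δ) q := by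
    intro δ hδ
    rcases lt_or_ge δ t.len with h' | h'
    · rw [ylow δ h', res_eq_res v2 h'.le]; exact h1 δ h'.le
    · rw [yhigh δ h']; exact hw δ h' hδ
  have hall : ∀ δ < (Xs t.len).2.1.len, Allowed hθ J h ((Xs t.len).2.1.res δ) (Ys δ)
      ((Xs t.len).2.1.val δ) q := by
    intro δ hδ
    rcases lt_or_ge δ t.len with h' | h'
    · rw [ylow δ h', res_eq_res v2 h'.le, ← v2.2 δ h']
      exact hi ⟨δ, h'⟩
    · rw [yhigh δ h']
      exact ⟨fun _ => rfl, fun he => absurd (congrArg Node.len he) (ne_of_lt hδ)⟩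
  refine ⟨treeS_intro hF (fun δ hδ => hFY δ hδ.le) fun δ => hall δ δ.2, ?_⟩
  intro β r hr
  obtain ⟨r', hr', a, ha, hP⟩ := v3 β r hr
  refine ⟨r', hr', a, ha, ?_⟩
  refine treeS_intro hF (Xs := Ys) ?_ ?_
  · intro δ hδ
    have hδ' : δ ≤ (Xs t.len).2.1.len := lt_succ_iff.1 hδ
    rw [res_snoc_le hδ']
    exact (hF.reg _ _).mono (hr'.trans hr) (hFY δ hδ')
  · rintro ⟨δ, hδ⟩
    have hδ' : δ ≤ (Xs t.len).2.1.len := lt_succ_iff.1 hδ
    show Allowed hθ J h (((Xs t.len).2.1.snoc a).res δ) (Ys δ) (((Xs t.len).2.1.snoc a).val δ) r'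
    rw [res_snoc_le hδ']
    rcases hδ'.lt_or_eq with h' | h'
    · rw [snoc_val_lt h']
      exact (reg_allowed hθ J h _ _ _).mono (hr'.trans hr) (hall δ h')
    · subst h'
      rw [res_self, snoc_val_len, yhigh _ v2.1]
      exact ⟨fun he => absurd rfl he, fun _ => hP⟩

theorem treeS_miller (hcl : IsClosedPoset K (Fn θ E A)) (hF : IsRec hθ J h y p₁ F) :
    fMiller (treeS hθ J F h) p₁ := by
  refine ⟨fun q hq => ⟨q, le_rfl, root, treeS_root hF q⟩, treeS_superclosed hcl hF p₁, ?_⟩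
  intro t q hq hm q' hq'
  obtain ⟨r, hr, Xs, h1, h2, hi, hV⟩ := treeS_hist hF (LeOn.of_le (hq'.trans hq))
    (((treeS hθ J F h).reg t).mono hq' hm)
  have hrp : LeOn J r p₁ := LeOn.of_le (hr.trans (hq'.trans hq))
  obtain ⟨h3, h4⟩ := treeS_target hF hrp h1 hi (hV t.len le_rfl)
  have h5 := (hV t.len le_rfl).2.1
  rw [res_self] at h5
  exact ⟨r, hr, (Xs t.len).2.1, h5, h3, h4⟩

theorem treeS_sub {T : SetName (Fn θ E A) (Node K)} (hT : ∀ t, SPers J (T.mem t))
    (hb : InBody h T p₁) (hF : IsRec hθ J h y p₁ F) : fSub (treeS hθ J F h) T p₁ := by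
  intro t q hq hm
  refine (T.reg t).dense fun q' hq' => ?_
  obtain ⟨r, hr, Xs, h1, h2, hi, hV⟩ := treeS_hist hF (LeOn.of_le (hq'.trans hq))
    (((treeS hθ J F h).reg t).mono hq' hm)
  have hrp : LeOn J r p₁ := LeOn.of_le (hr.trans (hq'.trans hq))
  obtain ⟨v1, v2, v3, v4, v5, v6, v7⟩ := hV t.len le_rfl
  rw [res_self] at v2
  obtain ⟨s, hs, a, _, hP⟩ := v3 ⊥ r le_rfl
  obtain ⟨m, hm', hS⟩ := Poss.get hθ J hP
  obtain ⟨m1, m2⟩ := (le_mix_iff hθ).1 hm'
  have hmr : LeOn J m r := m1.trans (LeOn.of_le hs)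
  have hmp : m ≤ p₁ := (le_iff_leOn J).2 ⟨hmr.trans hrp, m2.trans v1⟩
  have hTm : T.mem t m := mem_of_inBody ((reg_inBody h T).mono hmp hb)
    (starts_le (Node.le_trans v2 (le_snoc _ a)) hS)
  refine ⟨mix hθ J m r, (mix_le hθ hmr).trans hr, ?_⟩
  exact hT t m _ (mix_leOn_left hθ) hTm

/-- along a branch of the tree the decided initial segments of `y` get long -/
theorem long_hist (hcl : IsClosedPoset K (Fn θ E A)) (hF : IsRec hθ J h y p₁ F)
    {g : FunName (Fn θ E A) K K} {q : Fn θ E A} (hq : LeOn J q p₁)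
    (hg : InBody g (treeS hθ J F h) q) (β : K) :
    ∃ s ≤ q, ∃ w x, Starts g w s ∧ F w x s ∧ β < x.2.2.len := by
  classical
  -- the state at the initial segment of length `β`
  obtain ⟨q₁, hq₁, w₀, hw₀, hs₀⟩ := decide_res hcl g β q
  obtain ⟨q₂, hq₂, Xs₀, a1, a2⟩ := hF.ex w₀ q₁
  let x₀ : St θ E A K := Xs₀ w₀.len
  have hx₀ : F w₀ x₀ q₂ := by have := a1 w₀.len le_rfl; rwa [res_self] at this
  -- a long initial segment
  obtain ⟨q₃, hq₃, t, ht, hst⟩ := decide_res hcl g (succ (succ (max β x₀.2.1.len))) q₂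
  have hq₃q : q₃ ≤ q := hq₃.trans (hq₂.trans hq₁)
  have hm : (treeS hθ J F h).mem t q₃ := mem_of_inBody ((reg_inBody _ _).mono hq₃q hg) hst
  obtain ⟨r, hr, Xs, h1, h2, hi, hV⟩ := treeS_hist hF ((LeOn.of_le hq₃q).trans hq) hm
  have hrp : LeOn J r p₁ := (LeOn.of_le (hr.trans hq₃q)).trans hq
  have hw₀t : w₀ ≤ t := by
    refine starts_comp ((reg_starts g w₀).mono (hq₃.trans hq₂) hs₀) hst ?_
    rw [hw₀, ht]
    exact (le_max_left _ _).trans ((le_succ _).trans (le_succ _))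
  have hβt : β < t.len := by
    rw [ht]
    exact (le_max_left _ _).trans_lt ((lt_succ _).trans (lt_succ _))
  have hXβ : Xs β = x₀ := by
    have b1 := h1 β hβt.le
    rw [← hw₀, res_eq_of_le hw₀t] at b1
    rw [← hw₀]
    exact hF.sv _ _ _ r b1 ((hF.reg _ _).mono (hr.trans hq₃) hx₀)
  let S : Set K := {γ | β ≤ γ ∧ γ < t.len ∧ ¬ (Xs γ = Xs β ∧ t.res γ ≠ (Xs β).2.1)}
  let b := max β x₀.2.1.len
  have hbt : succ b < t.len := by rw [ht]; exact lt_succ _
  have hblt : b < t.len := (lt_succ b).trans hbt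
  have hex : ∃ γ, γ ∈ S ∧ γ ≤ b := by
    by_contra hcon
    have hno : ∀ γ, β ≤ γ → γ ≤ b → Xs γ = Xs β ∧ t.res γ ≠ (Xs β).2.1 := by
      intro γ g1 g2
      by_contra hne
      exact hcon ⟨γ, ⟨g1, g2.trans_lt hblt, hne⟩, g2⟩
    have h3 := hno b (le_max_left _ _) le_rfl
    have h4 : t.res b ≤ (Xs b).2.1 := (hV b hblt.le).2.1
    rw [h3.1] at h4
    have h5 : b ≤ (Xs β).2.1.len := h4.1
    have h6 : b = (Xs β).2.1.len := by
      refine le_antisymm h5 ?_
      rw [hXβ]; exact le_max_right _ _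
    refine h3.2 (Node.le_antisymm h4 ⟨h6.ge, fun i hi' => ?_⟩)
    exact (h4.2 i (by rw [← h6] at hi'; exact hi')).symm
  obtain ⟨γ₀, hγ₀, hγ₀b⟩ := hex
  let γ := WellFounded.min (wellFounded_lt (α := K)) S ⟨γ₀, hγ₀⟩
  obtain ⟨g1, g2, g3⟩ := WellFounded.min_mem (wellFounded_lt (α := K)) S ⟨γ₀, hγ₀⟩
  have hγb : γ ≤ b := by
    refine le_trans ?_ hγ₀b
    by_contra hlt
    rw [not_le] at hlt
    exact WellFounded.not_lt_min (wellFounded_lt (α := K)) S (x := γ₀) hγ₀ hlt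
  have hbelow : ∀ δ, β ≤ δ → δ < γ → Xs δ = Xs β ∧ t.res δ ≠ (Xs β).2.1 := by
    intro δ d1 d2
    by_contra hne
    exact WellFounded.not_lt_min (wellFounded_lt (α := K)) S (x := δ)
      ⟨d1, d2.trans g2, hne⟩ d2
  have hXγ : Xs γ = Xs β := by
    by_contra hne
    have hlt : β < γ := lt_of_le_of_ne g1 (fun h => hne (by rw [← h]))
    refine hne ((h2 γ g2.le r le_rfl ⟨hrp, inS_res hθ J h g2.le hi⟩).1 β ?_)
    refine ⟨hlt, fun δ d1 d2 => ?_⟩
    have d2' : δ < γ := d2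
    rw [res_res d2'.le]
    exact hbelow δ d1 d2'
  have hres : t.res γ = (Xs β).2.1 := by
    by_contra hne; exact g3 ⟨hXγ, hne⟩
  have hlt : succ γ < t.len := (succ_le_succ hγb).trans_lt hbt
  obtain ⟨_, hn⟩ := h2 (succ γ) hlt.le r le_rfl ⟨hrp, inS_res hθ J h hlt.le hi⟩
  have hnk2 : ¬ ∃ β₀, Keep (t.res (succ γ)) Xs β₀ := by
    rintro ⟨β₀, hk1, hk2⟩
    have e1 : β₀ ≤ γ := lt_succ_iff.1 hk1
    have := hk2 γ e1 (lt_succ γ)
    rw [res_res (le_succ γ)] at this
    exact this.2 (by rw [hres, ← this.1, hXγ])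
  obtain ⟨⟨_, _, _, n4⟩, _⟩ := hn hnk2
  have n4' : (Xs (succ γ)).2.2.len = succ γ := n4
  refine ⟨r, hr.trans hq₃q, t.res (succ γ), Xs (succ γ), ?_, h1 _ hlt.le, ?_⟩
  · exact (reg_starts g _).mono hr (starts_le (res_le hlt.le) hst)
  · rw [n4']; exact lt_of_le_of_lt g1 (lt_succ γ)

/-- every branch of the tree is in the projection -/
theorem treeS_proj (hcl : IsClosedPoset K (Fn θ E A)) (hF : IsRec hθ J h y p₁ F)
    {C : SetName (Fn θ E A) (Node K × Node K)} (hC : ∀ tu, SPers J (C.mem tu))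
    (hpair : PairIn h y C p₁) {g : FunName (Fn θ E A) K K} {q : Fn θ E A} (hq : q ≤ p₁)
    (hg : InBody g (treeS hθ J F h) q) : InProj g C q := by
  classical
  let app₀ : K → K → Fn θ E A → Prop := fun i v =>
    fEx fun wx : Node K × St θ E A K => fAnd (fFact (i < wx.2.2.2.len ∧ wx.2.2.2.val i = v))
      (fAnd (Starts g wx.1) (F wx.1 wx.2))
  have happ : ∀ (wx : Node K × St θ E A K) (i v : K) (p : Fn θ E A), i < wx.2.2.2.len →
      wx.2.2.2.val i = v → Starts g wx.1 p → F wx.1 wx.2 p → app₀ i v p := by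
    intro wx i v p h1 h2 h3 h4 r hr
    exact ⟨r, le_rfl, wx, ⟨h1, h2⟩, (reg_starts _ _).mono hr h3, (hF.reg _ _).mono hr h4⟩
  -- the pieces are coherent
  have coh : ∀ (p : Fn θ E A), p ≤ q → ∀ w w' x x', Starts g w p → Starts g w' p → F w x p →
      F w' x' p → w.len ≤ w'.len → x.2.2 ≤ x'.2.2 := by
    intro p hp w w' x x' hw hw' hx hx' hl
    have hww : w ≤ w' := starts_comp hw hw' hl
    have hm : (treeS hθ J F h).mem w' p := mem_of_inBody ((reg_inBody _ _).mono hp hg) hw'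
    obtain ⟨r, hr, Xs, h1, h2, hi, hV⟩ := treeS_hist hF (LeOn.of_le (hp.trans hq)) hm
    have e1 : Xs w.len = x := by
      have := h1 w.len hl
      rw [res_eq_of_le hww] at this
      exact hF.sv _ _ _ r this ((hF.reg _ _).mono hr hx)
    have e2 : Xs w'.len = x' := by
      have := h1 w'.len le_rfl
      rw [res_self] at this
      exact hF.sv _ _ _ r this ((hF.reg _ _).mono hr hx')
    have := ((hV w'.len le_rfl).2.2.2.2.2.2 w.len hl).2
    rwa [e1, e2] at this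
  obtain ⟨y', hy'⟩ := exists_funName (A := K) (B := K) q app₀ (fun a b => reg_fEx)
    (by
      intro i b c p hp hb hc
      obtain ⟨s, hs, ⟨w, x⟩, ⟨h1, h2⟩, h3, h4⟩ := hb p le_rfl
      obtain ⟨s', hs', ⟨w', x'⟩, ⟨h1', h2'⟩, h3', h4'⟩ := hc s hs
      have h3s := (reg_starts g w).mono hs' h3
      have h4s := (hF.reg w x).mono hs' h4
      have hs'q : s' ≤ q := hs'.trans (hs.trans hp)
      rcases le_total w.len w'.len with hl | hl
      · have := coh s' hs'q w w' x x' h3s h3' h4s h4' hl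
        rw [← h2, ← h2']; exact this.2 i h1
      · have := coh s' hs'q w' w x' x h3' h3s h4' h4s hl
        rw [← h2, ← h2']; exact (this.2 i h1').symm)
    (by
      intro i p hp
      obtain ⟨s, hs, w, x, h1, h2, h3⟩ := long_hist hcl hF (LeOn.of_le (hp.trans hq))
        ((reg_inBody _ _).mono hp hg) i
      exact ⟨s, hs, x.2.2.val i, happ (w, x) i _ s h3 rfl h1 h2⟩)
  refine fEx_intro (fun y'' => (reg_pairIn g y'' C).pers) y' ?_
  intro β p hp
  obtain ⟨s, hs, w, x, h1, h2, h3⟩ := long_hist hcl hF (LeOn.of_le (hp.trans hq))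
    ((reg_inBody _ _).mono hp hg) β
  have hm : (treeS hθ J F h).mem w s :=
    mem_of_inBody ((reg_inBody _ _).mono (hs.trans hp) hg) h1
  obtain ⟨r, hr, Xs, k1, k2, hi, hV⟩ := treeS_hist hF (LeOn.of_le (hs.trans (hp.trans hq))) hm
  have e2 : Xs w.len = x := by
    have := k1 w.len le_rfl
    rw [res_self] at this
    exact hF.sv _ _ _ r this ((hF.reg _ _).mono hr h2)
  obtain ⟨v1, v2, v3, v4, v5, v6, v7⟩ := hV w.len le_rfl
  rw [e2] at v1 v4 v5 v6
  have hrp : LeOn J r p₁ := LeOn.of_le (hr.trans (hs.trans (hp.trans hq)))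
  refine ⟨r, hr.trans hs, (w.res β, x.2.2.res β), ⟨rfl, rfl⟩, ?_, ?_, ?_⟩
  · exact (reg_starts g _).mono hr (starts_le (res_le (h3.le.trans v4)) h1)
  · intro i hi'
    have hi'' : i < β := hi'
    have : app₀ i ((x.2.2.res β).val i) r := by
      refine (happ (w, x) i _ r (hi''.trans h3) ?_ ((reg_starts g _).mono hr h1)
        ((hF.reg _ _).mono hr h2))
      exact (res_val hi'').symm
    exact hy' i _ r (hr.trans (hs.trans hp)) this
  · have hmp : mix hθ J r x.1 ≤ p₁ := (le_iff_leOn J).2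
      ⟨(mix_leOn_left hθ).trans hrp, (mix_leOn_right hθ).trans v1⟩
    have hCm : C.mem (w.res β, x.2.2.res β) (mix hθ J r x.1) := by
      refine mem_of_pairIn ((reg_pairIn h y C).mono hmp hpair) ?_ ?_ rfl
      · have : w.res β ≤ w.res x.2.2.len := res_le_res h3.le
        exact starts_le this v5
      · exact starts_le (res_le h3.le) v6
    exact hC _ _ r (leOn_mix_left hθ) hCm

/-- **Case 1**: a wide branch name in the projection gives a Miller tree inside the projection. -/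
theorem case_one [Nonempty A] (hcl : IsClosedPoset K (Fn θ E A))
    {T : SetName (Fn θ E A) (Node K)} (hT : ∀ t, SPers J (T.mem t))
    {C : SetName (Fn θ E A) (Node K × Node K)} (hC : ∀ tu, SPers J (C.mem tu))
    (hb : InBody h T p₁) (hpair : PairIn h y C p₁)
    (hw : ∀ r ≤ p₁, ∃ r' ≤ r, ∃ t, Wide hθ J h r t r') :
    ∃ S : SetName (Fn θ E A) (Node K), fMiller S p₁ ∧ fSub S T p₁ ∧
      (fAll fun g : FunName (Fn θ E A) K K => fImp (InBody g S) (InProj g C)) p₁ := by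
  have : Nonempty (St θ E A K) := ⟨(p₁, root, root)⟩
  obtain ⟨F, f1, f2, f3, f4⟩ := forced_recursion hθ J hcl (X := St θ E A K)
    (Rule hθ J h y p₁) (reg_rule hθ J h y p₁) (spers_rule hθ J h y p₁)
    (rule_congr hθ J h y p₁) (rule_exists hθ J h y p₁ hcl hw)
  have hF : IsRec hθ J h y p₁ F := ⟨f1, f2, f3, f4⟩
  exact ⟨treeS hθ J F h, treeS_miller hcl hF, treeS_sub hT hb hF,
    fun g q hq hg => treeS_proj hcl hF hC hpair hq hg⟩

end Case1

end Pool.Agent.KM
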