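import Pool.Agent.Lib.MP_8c1a1d_lc.Case1
import Pool.Agent.Lib.MP_8c1a1d_lc.Support

set_option linter.unusedSectionVars false
set_option linter.unusedVariables false

namespace Pool.Agent.KM

open Cardinal Order

universe u v

/-! ## Targets -/

section Target

variable {P : Type u} [Preorder P]
variable {K : Type u} [LinearOrder K] [OrderBot K] [WellFoundedLT K] [SuccOrder K] [NoMaxOrder K]

theorem reg_splits (T : SetName P (Node K)) (s : Node K) : Reg (fSplits T s) :=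
  reg_fAll fun _ => reg_fEx

/-- `τ` is a splitting extension of `s` in `T` -/
def SplExt (T : SetName P (Node K)) (s τ : Node K) : P → Prop :=
  fAnd (fFact (s ≤ τ)) (fAnd (T.mem τ) (fSplits T τ))

theorem reg_splExt (T : SetName P (Node K)) (s τ : Node K) : Reg (SplExt T s τ) :=
  reg_fAnd (reg_fFact _) (reg_fAnd (T.reg _) (reg_splits T τ))

/-- `τ` is the first splitting extension of `s` in `T`, in a fixed well-order of all nodes -/
def Tgt (T : SetName P (Node K)) (s τ : Node K) : P → Prop :=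
  fAnd (SplExt T s τ)
    (fAll fun τ' : {τ' : Node K // WellOrderingRel τ' τ} => fNot (SplExt T s τ'))

theorem reg_tgt (T : SetName P (Node K)) (s τ : Node K) : Reg (Tgt T s τ) :=
  reg_fAnd (reg_splExt T s τ) (reg_fAll fun _ => reg_fNot (reg_splExt T s _).pers)

theorem Tgt.unique {T : SetName P (Node K)} {s τ τ' : Node K} {p : P} (h : Tgt T s τ p)
    (h' : Tgt T s τ' p) : τ = τ' := by
  rcases trichotomous_of (WellOrderingRel (α := Node K)) τ τ' with hr | hr | hr
  · exact absurd h.1 (h'.2 ⟨τ, hr⟩ p le_rfl)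
  · exact hr
  · exact absurd h'.1 (h.2 ⟨τ', hr⟩ p le_rfl)

theorem Tgt.up {T : SetName P (Node K)} {s s' τ : Node K} {p : P} (h : Tgt T s τ p)
    (h1 : s ≤ s') (h2 : s' ≤ τ) : Tgt T s' τ p := by
  refine ⟨⟨h2, h.1.2⟩, fun τ' q hq hs => ?_⟩
  exact h.2 τ' q hq ⟨Node.le_trans h1 hs.1, hs.2⟩

end Target

section Case2

variable {θ : Cardinal.{u}} {ι : Type u}
variable {K : Type u} [LinearOrder K] [OrderBot K] [WellFoundedLT K] [SuccOrder K] [NoMaxOrder K]
variable (hθ : ℵ₀ ≤ θ) (J : Set (ι × K)) (T : SetName (Fn θ (ι × K) K) (Node K)) (i₀ : ι)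

/-- the constraint on the value `v` at the node `s` -/
def Cons (s : Node K) (v : K) : Fn θ (ι × K) K → Prop :=
  fAnd (fImp (fNot (fSplits T s)) (fEx fun τ : Node K =>
      fAnd (fFact (s.len < τ.len ∧ τ.val s.len = v)) (Tgt T s τ)))
    (fImp (fSplits T s) (fEx fun c : K => fAnd (fFact (c ≤ v))
      (fun p => p.f (i₀, s.len) = some c)))

theorem reg_cons (s : Node K) (v : K) : Reg (Cons T i₀ s v) :=
  reg_fAnd (reg_fImp (reg_fNot (reg_splits T s).pers).pers reg_fEx)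
    (reg_fImp (reg_splits T s).pers reg_fEx)

/-- the nodes of `T` which follow the targets at the nodes which do not split, and are above the
new function at the nodes which split -/
def treeZ : SetName (Fn θ (ι × K) K) (Node K) where
  mem t := fAnd (T.mem t) (fAll fun β : Set.Iio t.len => Cons T i₀ (t.res β) (t.val β))
  reg t := reg_fAnd (T.reg t) (reg_fAll fun _ => reg_cons T i₀ _ _)

variable {T i₀}

theorem Cons.stem {s : Node K} {v : K} {p : Fn θ (ι × K) K} (h : Cons T i₀ s v p)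
    (hn : fNot (fSplits T s) p) {τ : Node K} (ht : Tgt T s τ p) : s.len < τ.len ∧ τ.val s.len = v := by
  obtain ⟨r, hr, τ', h1, h2⟩ := h.1 p le_rfl hn p le_rfl
  have := Tgt.unique ((reg_tgt T s τ).mono hr ht) h2
  rw [this]; exact h1

theorem Cons.split {s : Node K} {v : K} {p : Fn θ (ι × K) K} (h : Cons T i₀ s v p)
    (hn : fSplits T s p) {c : K} (ht : p.f (i₀, s.len) = some c) : c ≤ v := by
  obtain ⟨r, hr, c', h1, h2⟩ := h.2 p le_rfl hn p le_rfl
  have h3 := hr _ _ ht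
  have h2' : r.f (i₀, s.len) = some c' := h2
  rw [h2'] at h3
  cases h3
  exact h1

theorem treeZ_sub (p : Fn θ (ι × K) K) : fSub (treeZ T i₀) T p := fun t q _ hm => hm.1

theorem treeZ_tree {p : Fn θ (ι × K) K} (hT : fTree T p) : fTree (treeZ T i₀) p := by
  intro t β q hq hm r hr hβ
  have hβ' : β ≤ t.len := hβ
  refine ⟨hT t β q hq hm.1 r hr hβ, ?_⟩
  rintro ⟨γ, hγ⟩
  have hγ' : γ < β := hγ
  show Cons T i₀ ((t.res β).res γ) ((t.res β).val γ) r
  rw [res_res hγ'.le, res_val hγ']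
  exact (reg_cons T i₀ _ _).mono hr (hm.2 ⟨γ, hγ'.trans_le hβ'⟩)

theorem treeZ_superclosed (hcl : IsClosedPoset K (Fn θ (ι × K) K)) {p : Fn θ (ι × K) K}
    (hT : fSuperclosed T p) : fSuperclosed (treeZ T i₀) p := by
  refine ⟨treeZ_tree hT.1, ?_⟩
  intro g l q hq hl r hr hall r' hr'
  have hl' : IsSuccLimit l := hl
  obtain ⟨r'', hr'', t, ht, hst⟩ := decide_res hcl g l r'
  have hm : ∀ β < l, (treeZ T i₀).mem (t.res β) r'' := by
    intro β hβ
    have h1 : ResIn g (t.res β).len (treeZ T i₀) r'' :=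
      (reg_resIn _ _ _).mono (hr''.trans hr') (hall ⟨β, hβ⟩)
    refine mem_of_resIn h1 (starts_le (res_le ?_) hst)
    rw [ht]; exact hβ.le
  have hTt : T.mem t r'' := by
    refine mem_of_resIn (h := g) ?_ hst
    rw [ht]
    refine hT.2 g l r'' (hr''.trans (hr'.trans (hr.trans hq))) hl r'' le_rfl ?_
    rintro ⟨β, hβ⟩
    have hβ' : β < l := hβ
    refine resIn_of_mem (t := t.res β) rfl (starts_le (res_le ?_) hst) (hm β hβ).1
    rw [ht]; exact hβ'.le
  refine ⟨r'', hr'', t, ht, hst, hTt, ?_⟩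
  rintro ⟨γ, hγ⟩
  have hγ' : γ < l := by rw [← ht]; exact hγ
  have hs : succ γ < l := hl'.succ_lt hγ'
  have h4 := (hm (succ γ) hs).2 ⟨γ, lt_succ γ⟩
  change Cons T i₀ ((t.res (succ γ)).res γ) ((t.res (succ γ)).val γ) r'' at h4
  rw [res_res (le_succ γ), res_val (lt_succ γ)] at h4
  exact h4

include hθ

theorem spers_splits (hT : ∀ t, SPers J (T.mem t)) (s : Node K) : SPers J (fSplits T s) :=
  spers_fAll fun β => spers_fEx hθ fun a => spers_fAnd (spers_fFact J _) (hT _)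

theorem spers_splExt (hT : ∀ t, SPers J (T.mem t)) (s τ : Node K) : SPers J (SplExt T s τ) :=
  spers_fAnd (spers_fFact J _) (spers_fAnd (hT _) (spers_splits hθ J hT τ))

/-- Deciding the target and the first splitting node on the way to the target. -/
theorem exists_target (hT : ∀ t, SPers J (T.mem t)) {t : Node K} {q : Fn θ (ι × K) K}
    (hm : T.mem t q)
    (hmil : (fAll fun t : Node K => fImp (T.mem t)
      (fEx fun s : Node K => fAnd (fFact (t ≤ s)) (fAnd (T.mem s) (fSplits T s)))) q) :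
    ∃ r ≤ q, (∀ e, e ∉ J → r.f e = q.f e) ∧ ∃ τ γ, t.len ≤ γ ∧ γ ≤ τ.len ∧ Tgt T t τ r ∧
      fSplits T (τ.res γ) r ∧ ∀ δ, t.len ≤ δ → δ < γ → fNot (fSplits T (τ.res δ)) r := by
  classical
  have hex : ∃ τ, ∃ r ≤ q, SplExt T t τ r := by
    obtain ⟨r, hr, τ, h⟩ := hmil t q le_rfl hm q le_rfl
    exact ⟨τ, r, hr, h⟩
  let τ := WellOrderingRel.isWellOrder.wf.min {τ | ∃ r ≤ q, SplExt T t τ r} hex
  obtain ⟨r₀, hr₀, hτ₀⟩ := WellOrderingRel.isWellOrder.wf.min_mem {τ | ∃ r ≤ q, SplExt T t τ r} hex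
  have hmin : ∀ τ', WellOrderingRel τ' τ → ∀ r ≤ q, ¬ SplExt T t τ' r := by
    intro τ' hτ' r hr hs
    exact WellOrderingRel.isWellOrder.wf.not_lt_min {τ | ∃ r ≤ q, SplExt T t τ r}
      (x := τ') ⟨r, hr, hs⟩ hτ'
  -- only the coordinates in `J` matter
  let r₁ := mix hθ J r₀ q
  have hr₁ : r₁ ≤ q := mix_le hθ (LeOn.of_le hr₀)
  have hr₁J : ∀ e, e ∉ J → r₁.f e = q.f e := fun e he => mix_f_not_mem hθ he
  have hτ₁ : SplExt T t τ r₁ := spers_splExt hθ J hT t τ r₀ r₁ (mix_leOn_left hθ) hτ₀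
  have htgt : Tgt T t τ r₁ := ⟨hτ₁, fun τ' r hr => hmin τ'.1 τ'.2 r (hr.trans hr₁)⟩
  let G : Set K := {γ | t.len ≤ γ ∧ γ ≤ τ.len ∧ ∃ r ≤ r₁, fSplits T (τ.res γ) r}
  have hG : ∃ γ, γ ∈ G := ⟨τ.len, hτ₁.1.1, le_rfl, r₁, le_rfl, by rw [res_self]; exact hτ₁.2.2⟩
  let γ := WellFounded.min (wellFounded_lt (α := K)) G hG
  obtain ⟨g1, g2, r₂, hr₂, g3⟩ := WellFounded.min_mem (wellFounded_lt (α := K)) G hG
  have hγmin : ∀ δ, t.len ≤ δ → δ < γ → ∀ r ≤ r₁, ¬ fSplits T (τ.res δ) r := by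
    intro δ d1 d2 r hr hs
    exact WellFounded.not_lt_min (wellFounded_lt (α := K)) G (x := δ)
      ⟨d1, d2.le.trans g2, r, hr, hs⟩ d2
  let r₃ := mix hθ J r₂ r₁
  have hr₃ : r₃ ≤ r₁ := mix_le hθ (LeOn.of_le hr₂)
  refine ⟨r₃, hr₃.trans hr₁, fun e he => ?_, τ, γ, g1, g2, (reg_tgt T t τ).mono hr₃ htgt,
    spers_splits hθ J hT _ r₂ r₃ (mix_leOn_left hθ) g3, fun δ d1 d2 r hr => ?_⟩
  · rw [← hr₁J e he]; exact mix_f_not_mem hθ he
  · exact hγmin δ d1 d2 r (hr.trans hr₃)

/-- the tree below the new function is a Miller tree -/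
theorem treeZ_miller [Nonempty K] (hcl : IsClosedPoset K (Fn θ (ι × K) K))
    (hT : ∀ t, SPers J (T.mem t)) {p : Fn θ (ι × K) K} (hp : fMiller T p) :
    fMiller (treeZ T i₀) p := by
  classical
  obtain ⟨h1, h2, h3⟩ := hp
  refine ⟨?_, treeZ_superclosed hcl h2, ?_⟩
  · intro q hq
    obtain ⟨r, hr, t, ht⟩ := h1 q hq
    refine ⟨r, hr, t.res ⊥, h2.1 t ⊥ r (hr.trans hq) ht r le_rfl bot_le, ?_⟩
    rintro ⟨γ, hγ⟩
    exact absurd hγ not_lt_bot
  · intro t q hq hm q' hq'
    obtain ⟨r, hr, _, τ, γ, g1, g2, g3, g4, g5⟩ := exists_target hθ J hT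
      ((T.reg t).mono hq' hm.1) ((reg_fAll fun t => reg_fImp (T.reg t).pers reg_fEx).mono
        (hq'.trans hq) h3)
    have htτ : t ≤ τ := g3.1.1
    have hrp : r ≤ p := hr.trans (hq'.trans hq)
    have hTs : T.mem (τ.res γ) r := h2.1 τ γ r hrp g3.1.2.1 r le_rfl g2
    have hcons : ∀ δ < γ, Cons T i₀ (τ.res δ) (τ.val δ) r := by
      intro δ hδ
      rcases lt_or_ge δ t.len with h' | h'
      · rw [res_eq_res htτ h'.le, ← htτ.2 δ h']
        exact (reg_cons T i₀ _ _).mono (hr.trans hq') (hm.2 ⟨δ, h'⟩)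
      · refine ⟨fun r' hr' _ => ?_, fun r' hr' hs => absurd hs (g5 δ h' hδ r' hr')⟩
        intro r'' hr''
        refine ⟨r'', le_rfl, τ, ⟨hδ.trans_le g2, rfl⟩, ?_⟩
        refine (reg_tgt T _ _).mono (hr''.trans hr') (Tgt.up g3 ?_ (res_le (hδ.le.trans g2)))
        have := res_le_res (t := τ) h'
        rwa [res_eq_of_le htτ] at this
    refine ⟨r, hr, τ.res γ, ?_, ⟨hTs, ?_⟩, ?_⟩
    · have := res_le_res (t := τ) g1
      rwa [res_eq_of_le htτ] at this
    · rintro ⟨δ, hδ⟩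
      have hδ' : δ < γ := hδ
      show Cons T i₀ ((τ.res γ).res δ) ((τ.res γ).val δ) r
      rw [res_res hδ'.le, res_val hδ']
      exact hcons δ hδ'
    · intro β r₁ hr₁
      -- decide the new function at `γ`
      obtain ⟨r₂, hr₂, c, hc⟩ : ∃ r₂ ≤ r₁, ∃ c, r₂.f (i₀, γ) = some c := by
        cases hcase : r₁.f (i₀, γ) with
        | some c => exact ⟨r₁, le_rfl, c, hcase⟩
        | none =>
          have hext : ∃ r₂ : Fn θ (ι × K) K, ∀ e, r₂.f e = if e = (i₀, γ) then some (⊥ : K)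
              else r₁.f e := by
            refine ⟨⟨fun e => if e = (i₀, γ) then some (⊥ : K) else r₁.f e, ?_⟩, fun e => rfl⟩
            have hsub : {e | (if e = (i₀, γ) then some (⊥ : K) else r₁.f e) ≠ none} ⊆
                {(i₀, γ)} ∪ {e | r₁.f e ≠ none} := by
              intro e he
              by_cases h : e = (i₀, γ)
              · left; exact h
              · right; simpa [h] using he
            refine (Cardinal.mk_le_mk_of_subset hsub).trans_lt
              ((Cardinal.mk_union_le _ _).trans_lt (Cardinal.add_lt_of_lt hθ ?_ r₁.small))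
            rw [Cardinal.mk_singleton]
            exact Cardinal.one_lt_aleph0.trans_le hθ
          obtain ⟨r₂, hr₂⟩ := hext
          refine ⟨r₂, fun e a ha => ?_, ⊥, by rw [hr₂]; simp⟩
          rw [hr₂]
          by_cases h : e = (i₀, γ)
          · rw [h, hcase] at ha; cases ha
          · simp [h, ha]
      obtain ⟨r₃, hr₃, a, ha, hm₃⟩ := g4 (max β c) r₂ (hr₂.trans hr₁)
      have ha' : max β c ≤ a := ha
      refine ⟨r₃, hr₃.trans hr₂, a, (le_max_left _ _).trans ha', hm₃, ?_⟩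
      rintro ⟨δ, hδ⟩
      have hδ' : δ ≤ γ := lt_succ_iff.1 hδ
      show Cons T i₀ (((τ.res γ).snoc a).res δ) (((τ.res γ).snoc a).val δ) r₃
      rw [res_snoc_le (show δ ≤ (τ.res γ).len from hδ')]
      have hr₃r : r₃ ≤ r := hr₃.trans (hr₂.trans hr₁)
      rcases hδ'.lt_or_eq with h' | h'
      · rw [snoc_val_lt (show δ < (τ.res γ).len from h'), res_res h'.le, res_val h']
        exact (reg_cons T i₀ _ _).mono hr₃r (hcons δ h')
      · subst h'
        have e1 : ((τ.res δ).snoc a).val δ = a := snoc_val_len (τ.res δ) a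
        rw [e1, res_res le_rfl]
        refine ⟨fun r' hr' hn => absurd ((reg_splits T _).mono (hr'.trans hr₃r) g4)
          (hn r' le_rfl), fun r' hr' _ => ?_⟩
        intro r'' hr''
        exact ⟨r'', le_rfl, c, (le_max_right _ _).trans ha',
          (hr''.trans (hr'.trans hr₃)) _ _ hc⟩

omit [LinearOrder K] [OrderBot K] [WellFoundedLT K] [SuccOrder K] [NoMaxOrder K] in
/-- adding one value to a condition -/
theorem Fn.exists_insert {E A : Type u} (p : Fn θ E A) (e₀ : E) (a : A) (hp : p.f e₀ = none) :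
    ∃ r ≤ p, r.f e₀ = some a ∧ ∀ e, e ≠ e₀ → r.f e = p.f e := by
  classical
  have hext : ∃ r₂ : Fn θ E A, ∀ e, r₂.f e = if e = e₀ then some a else p.f e := by
    refine ⟨⟨fun e => if e = e₀ then some a else p.f e, ?_⟩, fun e => rfl⟩
    have hsub : {e | (if e = e₀ then some a else p.f e) ≠ none} ⊆
        {e₀} ∪ {e | p.f e ≠ none} := by
      intro e he
      by_cases h : e = e₀
      · left; exact h
      · right; simpa [h] using he
    refine (Cardinal.mk_le_mk_of_subset hsub).trans_lt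
      ((Cardinal.mk_union_le _ _).trans_lt (Cardinal.add_lt_of_lt hθ ?_ p.small))
    rw [Cardinal.mk_singleton]
    exact Cardinal.one_lt_aleph0.trans_le hθ
  obtain ⟨r₂, hr₂⟩ := hext
  refine ⟨r₂, fun e b hb => ?_, by rw [hr₂]; simp, fun e he => by rw [hr₂]; simp [he]⟩
  rw [hr₂]
  by_cases h : e = e₀
  · rw [h, hp] at hb; cases hb
  · simp [h, hb]

omit hθ

/-- a condition which decides `g` exactly as far as it decides the new function -/
theorem exists_wait (hreg : θ.IsRegular) (hunc : ℵ₀ < θ)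
    (hO : Ordinal.type (fun a b : K => a < b) = θ.ord) (i₀ : ι)
    (hcl : IsClosedPoset K (Fn θ (ι × K) K))
    (g : FunName (Fn θ (ι × K) K) K K) (q : Fn θ (ι × K) K) :
    ∃ r ≤ q, ∃ t, Starts g t r ∧ ∀ β, t.len ≤ β → r.f (i₀, β) = none := by
  classical
  have step : ∀ x : Fn θ (ι × K) K × K, ∃ y : Fn θ (ι × K) K × K, y.1 ≤ x.1 ∧
      (∃ t : Node K, t.len = x.2 ∧ Starts g t y.1) ∧ x.2 ≤ y.2 ∧
      ∀ β, y.2 ≤ β → y.1.f (i₀, β) = none := by
    rintro ⟨r, α⟩
    obtain ⟨r', hr', t, ht, hst⟩ := decide_res hcl g α r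
    obtain ⟨b, hb⟩ := exists_bound hreg hO {β | r'.f (i₀, β) ≠ none} (by
      refine lt_of_le_of_lt (Cardinal.mk_le_of_injective
        (f := fun β : {β | r'.f (i₀, β) ≠ none} => (⟨(i₀, β.1), β.2⟩ : {e // r'.f e ≠ none})) ?_)
        r'.small
      intro β γ h
      have := congrArg (fun e : {e // r'.f e ≠ none} => e.1.2) h
      exact Subtype.ext this)
    refine ⟨(r', max α b), hr', ⟨t, ht, hst⟩, le_max_left _ _, fun β hβ => ?_⟩
    by_contra hne
    exact absurd (hb β hne) (not_lt.2 ((le_max_right _ _).trans hβ))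
  choose f f1 f2 f3 f4 using step
  let s : ℕ → Fn θ (ι × K) K × K := fun n => f^[n] (q, ⊥)
  have hs : ∀ n, s (n + 1) = f (s n) := fun n => Function.iterate_succ_apply' f n _
  have hmono : ∀ m n, m ≤ n → (s n).1 ≤ (s m).1 := by
    intro m n hmn
    induction n, hmn using Nat.le_induction with
    | base => exact le_rfl
    | succ n _ ih => rw [hs]; exact (f1 _).trans ih
  obtain ⟨r, hr, hr'⟩ := Fn.exists_inf hreg (I := ULift.{u} ℕ) (by
    rw [Cardinal.mk_uLift, Cardinal.mk_nat, Cardinal.lift_aleph0]; exact hunc)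
    (fun n => (s n.down).1) (fun m n => by
      rcases le_total m.down n.down with h | h
      · right; exact hmono _ _ h
      · left; exact hmono _ _ h)
  have hbd : ∃ b, ∀ n, (s n).2 ≤ b := by
    obtain ⟨b, hb⟩ := exists_bound hreg hO (Set.range fun n : ULift.{u} ℕ => (s n.down).2) (by
      refine Cardinal.mk_range_le.trans_lt ?_
      rw [Cardinal.mk_uLift, Cardinal.mk_nat, Cardinal.lift_aleph0]; exact hunc)
    exact ⟨b, fun n => (hb _ ⟨⟨n⟩, rfl⟩).le⟩
  let α := WellFounded.min (wellFounded_lt (α := K)) {b | ∀ n, (s n).2 ≤ b} hbd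
  have hα : ∀ n, (s n).2 ≤ α :=
    WellFounded.min_mem (wellFounded_lt (α := K)) {b | ∀ n, (s n).2 ≤ b} hbd
  have hα' : ∀ i < α, ∃ n, i < (s n).2 := by
    intro i hi
    by_contra hcon
    push Not at hcon
    exact WellFounded.not_lt_min (wellFounded_lt (α := K)) {b | ∀ n, (s n).2 ≤ b} (x := i) hcon hi
  have hdec : ∀ i < α, ∃ v, g.app i v r := by
    intro i hi
    obtain ⟨n, hn⟩ := hα' i hi
    obtain ⟨t, ht, hst⟩ := f2 (s n)
    refine ⟨t.val i, (g.reg _ _).mono ?_ (hst i (by rw [ht]; exact hn))⟩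
    have := hr ⟨n + 1⟩
    rwa [show (s (ULift.down (⟨n + 1⟩ : ULift.{u} ℕ))).1 = (f (s n)).1 from by
      show (s (n + 1)).1 = _; rw [hs]] at this
  let x : K → K := fun i => if h : i < α then (hdec i h).choose else ⊥
  refine ⟨r, hr ⟨0⟩, cut x α, ?_, ?_⟩
  · intro i (hi : i < α)
    rw [cut_val hi]
    show g.app i (if h : i < α then (hdec i h).choose else ⊥) r
    rw [dif_pos hi]
    exact (hdec i hi).choose_spec
  · intro β (hβ : α ≤ β)
    by_contra hne
    obtain ⟨a, ha⟩ := Option.ne_none_iff_exists'.1 hne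
    obtain ⟨⟨n⟩, hn⟩ := hr' _ _ ha
    have h1 : (s (n + 1)).1.f (i₀, β) = some a := (hmono n (n + 1) (Nat.le_succ n)) _ _ hn
    have h2 := f4 (s n) β (by rw [← hs]; exact (hα (n + 1)).trans hβ)
    rw [hs, h2] at h1
    cases h1

/-- **Case 2**: if no branch name in the projection is wide then the tree below the new function
is disjoint from the projection. -/
theorem case_two [Nonempty K] (hreg : θ.IsRegular) (hunc : ℵ₀ < θ)
    (hO : Ordinal.type (fun a b : K => a < b) = θ.ord) (hJ : ∀ β, (i₀, β) ∉ J)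
    (hcl : IsClosedPoset K (Fn θ (ι × K) K))
    (hT : ∀ t, SPers J (T.mem t)) {C : SetName (Fn θ (ι × K) K) (Node K × Node K)}
    {p : Fn θ (ι × K) K} (hp : fMiller T p)
    (hno : ∀ p₁ ≤ p, ∀ h y, InBody h T p₁ → PairIn h y C p₁ →
      ∃ r ≤ p₁, ∀ r' ≤ r, ∀ t, ¬ Wide hreg.aleph0_le J h r t r') :
    ∃ S : SetName (Fn θ (ι × K) K) (Node K), fMiller S p ∧ fSub S T p ∧
      (fAll fun g : FunName (Fn θ (ι × K) K) K K => fImp (InBody g S) (fNot (InProj g C))) p := by
  classical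
  have hθ := hreg.aleph0_le
  refine ⟨treeZ T i₀, treeZ_miller hθ J hcl hT hp, treeZ_sub p, ?_⟩
  intro g q hq hg q' hq' hproj
  obtain ⟨r, hr, y, hy⟩ := hproj q' le_rfl
  have hgr : InBody g (treeZ T i₀) r := (reg_inBody _ _).mono (hr.trans hq') hg
  have hTr : InBody g T r := by
    intro β s hs
    obtain ⟨s', hs', t, h1, h2, h3⟩ := hgr β s hs
    exact ⟨s', hs', t, h1, h2, h3.1⟩
  obtain ⟨r₀, hr₀, hnw⟩ := hno r (hr.trans (hq'.trans hq)) g y hTr hy
  obtain ⟨r₁, hr₁, t, ht, hcol⟩ := exists_wait hreg hunc hO i₀ hcl g r₀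
  have hr₁r : r₁ ≤ r := hr₁.trans hr₀
  have hTt : T.mem t r₁ := mem_of_inBody ((reg_inBody _ _).mono hr₁r hTr) ht
  obtain ⟨r₂, hr₂, hr₂J, τ, γ, g1, g2, g3, g4, g5⟩ := exists_target hθ J hT hTt
    ((reg_fAll fun t => reg_fImp (T.reg t).pers reg_fEx).mono
      (hr₁r.trans (hr.trans (hq'.trans hq))) hp.2.2)
  have hr₂r : r₂ ≤ r := hr₂.trans hr₁r
  have htτ : t ≤ τ := g3.1.1
  -- the constraint on the next value
  have hcons : ∀ (w : Node K) (v : K) (s : Fn θ (ι × K) K), s ≤ r → Starts g w s →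
      g.app w.len v s → Cons T i₀ w v s := by
    intro w v s hs hw hv
    have h1 : (treeZ T i₀).mem (w.snoc v) s :=
      mem_of_inBody ((reg_inBody _ _).mono hs hgr) (starts_snoc.2 ⟨hw, hv⟩)
    have h2 := h1.2 ⟨w.len, lt_succ w.len⟩
    change Cons T i₀ ((w.snoc v).res w.len) ((w.snoc v).val w.len) s at h2
    rwa [snoc_res, snoc_val_len] at h2
  have hstem : ∀ i < γ, g.app i (τ.val i) r₂ := by
    intro i
    induction i using WellFoundedLT.induction with
    | ind i ih =>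
      intro hi
      rcases lt_or_ge i t.len with h' | h'
      · rw [← htτ.2 i h']
        exact (g.reg _ _).mono hr₂ (ht i h')
      · refine (g.reg _ _).dense fun s hs => ?_
        obtain ⟨s', hs', v, hv⟩ := g.tot i s
        have hst : Starts g (τ.res i) s' := by
          intro j (hj : j < i)
          rw [res_val hj]
          exact (g.reg _ _).mono (hs'.trans hs) (ih j hj (hj.trans hi))
        have hc := hcons (τ.res i) v s' (hs'.trans (hs.trans hr₂r)) hst hv
        have htg : Tgt T (τ.res i) τ s' := by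
          refine (reg_tgt T _ _).mono (hs'.trans hs) (Tgt.up g3 ?_ (res_le (hi.le.trans g2)))
          have := res_le_res (t := τ) h'
          rwa [res_eq_of_le htτ] at this
        have := (hc.stem (fun s'' hs'' => g5 i h' hi s'' (hs''.trans (hs'.trans hs))) htg).2
        have hv' : τ.val i = v := this
        exact ⟨s', hs', by rw [hv']; exact hv⟩
  have hst : Starts g (τ.res γ) r₂ := by
    intro i (hi : i < γ)
    rw [res_val hi]
    exact hstem i hi
  -- the node is not wide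
  have hnw₂ : ¬ Wide hθ J g r₂ (τ.res γ) r₂ := fun hw =>
    hnw r₂ (hr₂.trans hr₁) (τ.res γ) (Wide.mono hθ J (LeOn.of_le (hr₂.trans hr₁)) hw)
  have hex : ∃ β₀, ∃ r' ≤ r₂, ∀ s ≤ r', ∀ a, β₀ ≤ a → ¬ Poss hθ J g r₂ ((τ.res γ).snoc a) s := by
    by_contra hcon
    push Not at hcon
    apply hnw₂
    intro β₀ r' hr'
    obtain ⟨s, hs, a, h1, h2⟩ := hcon β₀ r' hr'
    exact ⟨s, hs, a, h1, h2⟩
  obtain ⟨β₀, r', hr', hnp⟩ := hex
  have hm : mix hθ J r' r₂ ≤ r₂ := mix_le hθ (LeOn.of_le hr')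
  have hnone : (mix hθ J r' r₂).f (i₀, γ) = none := by
    rw [mix_f_not_mem hθ (hJ γ), hr₂J _ (hJ γ)]
    exact hcol γ g1
  obtain ⟨r₃, hr₃, hr₃v, _⟩ := Fn.exists_insert hθ (mix hθ J r' r₂) (i₀, γ) β₀ hnone
  obtain ⟨s, hs, a, ha⟩ := g.tot γ r₃
  have hsr₂ : s ≤ r₂ := hs.trans (hr₃.trans hm)
  have hsts : Starts g (τ.res γ) s := (reg_starts _ _).mono hsr₂ hst
  have hβa : β₀ ≤ a := (hcons (τ.res γ) a s (hsr₂.trans hr₂r) hsts ha).split
    ((reg_splits T _).mono hsr₂ g4) (hs _ _ hr₃v)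
  have hstart : Starts g ((τ.res γ).snoc a) s := starts_snoc.2 ⟨hsts, ha⟩
  have hposs : Poss hθ J g r₂ ((τ.res γ).snoc a) s := by
    intro s' hs'
    refine ⟨s', le_rfl, s, LeOn.of_le hsr₂, (reg_starts _ _).mono ?_ hstart⟩
    exact mix_le hθ (LeOn.of_le hs')
  have hle : LeOn J s r' := (LeOn.of_le (hs.trans hr₃)).trans (mix_leOn_left hθ)
  exact hnp (mix hθ J s r') (mix_le hθ hle) a hβa
    (spers_poss hθ J g r₂ _ s _ (mix_leOn_left hθ) hposs)

end Case2

end Pool.Agent.KM
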