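import Pool.Agent.Lib.MP_8c1a1d_lc.Preserve

set_option linter.unusedSectionVars false
set_option linter.unusedVariables false

namespace Pool.Agent.KM

open Cardinal Order

universe u v

/-! ## Countable possibilities -/

section Countable

variable {E A B : Type u}

theorem aleph0_pow_le (c : Cardinal.{u}) (hc : c < ℵ₀) : (ℵ₀ : Cardinal.{u}) ^ c ≤ ℵ₀ := by
  obtain ⟨n, rfl⟩ := Cardinal.lt_aleph0.1 hc
  exact Cardinal.power_nat_le le_rfl

theorem countable_of_support {J : Set E} {N : Type u} (y : N → B → Fn ℵ₀ E A → Prop)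
    (hA : #A ≤ ℵ₀) (hJ : #J ≤ ℵ₀) (n : N)
    (hsv : ∀ b c p, y n b p → y n c p → b = c) (hmono : ∀ b, Reg (y n b))
    (hd : ∀ p : Fn ℵ₀ E A, (∀ e, p.f e ≠ none → e ∈ J) →
      ∃ q ≤ p, (∀ e, q.f e ≠ none → e ∈ J) ∧ ∃ b, y n b q) :
    #{b | ∃ r, y n b r} ≤ ℵ₀ := by
  classical
  have hθ : (ℵ₀ : Cardinal.{u}) ≤ ℵ₀ := le_rfl
  have hch : ∀ b : {b | ∃ r, y n b r}, ∃ q : {q : Fn ℵ₀ E A // ∀ e, q.f e ≠ none → e ∈ J},
      y n b q.1 := by
    rintro ⟨b, r, hr⟩
    obtain ⟨q, hq, hqJ, b', hb'⟩ := hd (mix hθ J r (Fn.empty hθ)) (by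
      intro e he
      by_contra hne
      exact he (mix_f_not_mem hθ hne))
    have hle : mix hθ J q r ≤ r := mix_le hθ ((LeOn.of_le hq).trans (mix_leOn_left hθ))
    have hle' : mix hθ J q r ≤ q := by
      intro e a ha
      have he : e ∈ J := hqJ e (by rw [ha]; simp)
      rw [mix_f_mem hθ he]; exact ha
    have : b = b' := hsv _ _ _ ((hmono b).mono hle hr) ((hmono b').mono hle' hb')
    exact ⟨⟨q, hqJ⟩, this ▸ hb'⟩
  choose f hf using hch
  refine (Cardinal.mk_le_of_injective (f := f) ?_).trans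
    (card_supported Cardinal.isRegular_aleph0 aleph0_pow_le hA J hJ)
  intro b b' h
  have h1 := hf b
  rw [h] at h1
  exact Subtype.ext (hsv _ _ _ h1 (hf b'))

theorem support_countable (hA : #A ≤ ℵ₀) {N : Type u} (hN : #N ≤ ℵ₀)
    (D : N → Fn ℵ₀ E A → Prop) (hd : ∀ n p, ∃ q ≤ p, D n q) :
    ∃ J : Set E, #J ≤ ℵ₀ ∧ ∀ n (p : Fn ℵ₀ E A), (∀ e, p.f e ≠ none → e ∈ J) →
      ∃ q ≤ p, (∀ e, q.f e ≠ none → e ∈ J) ∧ D n q := by
  refine exists_support Cardinal.isRegular_aleph0 aleph0_pow_le hA (id : E → E) (fun i => ?_) hN D hd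
  have : Subsingleton {e : E // id e = i} := ⟨fun a b => Subtype.ext (a.2.trans b.2.symm)⟩
  exact (Cardinal.le_one_iff_subsingleton.2 this).trans Cardinal.one_lt_aleph0.le

theorem possible_countable (hA : #A ≤ ℵ₀) {N : Type u} (y : FunName (Fn ℵ₀ E A) N B) (n : N) :
    #{b | ∃ r, y.app n b r} ≤ ℵ₀ := by
  obtain ⟨J, hJ, h⟩ := support_countable hA (N := PUnit.{u + 1}) (by simp)
    (fun _ q => ∃ b, y.app n b q) (fun _ p => y.tot n p)
  exact countable_of_support y.app hA hJ n (y.sv n) (y.reg n) (fun p hp => h PUnit.unit p hp)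

end Countable

/-! ## Adding uncountably many Cohen reals -/

section CohenReals

variable {κ : Cardinal.{u}} {E : Type u}
variable {K : Type u} [LinearOrder K] [OrderBot K] [WellFoundedLT K] [SuccOrder K] [NoMaxOrder K]

/-- The functions all of whose initial segments are in the ground model are unbounded. -/
theorem fUnbounded_ground (hreg : κ.IsRegular) (hunc : ℵ₀ < κ)
    (hO : Ordinal.type (fun a b : K => a < b) = κ.ord) {A : Type u} (hA : #A ≤ ℵ₀)
    (p : Fn ℵ₀ E A) : fUnbounded (checkSet (Set.univ : Set (Node K))) p := by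
  intro g
  have hG : ∀ γ : K, ∃ G : K, ∀ b, (∃ r, g.app γ b r) → b < G := by
    intro γ
    obtain ⟨G, hG⟩ := exists_bound hreg hO {b | ∃ r, g.app γ b r}
      ((possible_countable hA g γ).trans_lt hunc)
    exact ⟨G, fun b hb => hG b hb⟩
  choose G hG using hG
  refine fEx_intro (fun y => ?_) (checkFun _ G) ⟨?_, ?_⟩
  · exact (reg_fAnd (reg_inBody _ _) (reg_fAll fun _ => reg_fEx)).pers
  · intro β
    exact resIn_check.2 (Set.mem_univ _)
  · intro β q _
    obtain ⟨r, hr, b, hb⟩ := g.tot β q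
    exact ⟨r, hr, (β, b, G β), ⟨le_rfl, hG β b ⟨r, hb⟩⟩, hb, rfl⟩

/-- the finite sequence `s` is read off the coordinates `c 0, c 1, …` -/
def Bits (c : ℕ → E) : List Bool → Fn ℵ₀ E (ULift.{u} Bool) → Prop
  | [], _ => True
  | i :: s, p => p.f (c s.length) = some ⟨i⟩ ∧ Bits c s p

theorem Bits.mono {c : ℕ → E} {s : List Bool} {p q : Fn ℵ₀ E (ULift.{u} Bool)} (hq : q ≤ p)
    (h : Bits c s p) : Bits c s q := by
  induction s with
  | nil => trivial
  | cons i s ih => exact ⟨hq _ _ h.1, ih h.2⟩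

theorem Bits.unique {c : ℕ → E} {s s' : List Bool} {p : Fn ℵ₀ E (ULift.{u} Bool)}
    (h : Bits c s p) (h' : Bits c s' p) (hl : s.length = s'.length) : s = s' := by
  induction s generalizing s' with
  | nil => exact (List.length_eq_zero_iff.1 hl.symm).symm
  | cons i s ih =>
    cases s' with
    | nil => simp at hl
    | cons i' s' =>
      have hl' : s.length = s'.length := by simpa using hl
      have h1 := h.1
      rw [hl', h'.1] at h1
      cases h1
      rw [ih h.2 h'.2 hl']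

theorem exists_bits {c : ℕ → E} (hc : Function.Injective c) (n : ℕ)
    (p : Fn ℵ₀ E (ULift.{u} Bool)) :
    ∃ q ≤ p, q.f (c n) = p.f (c n) ∧ ∃ s : List Bool, s.length = n ∧ Bits c s q := by
  have key : ∀ m ≤ n, ∃ q ≤ p, q.f (c n) = p.f (c n) ∧ ∃ s : List Bool, s.length = m ∧
      Bits c s q := by
    intro m
    induction m with
    | zero => exact fun _ => ⟨p, le_rfl, rfl, [], rfl, trivial⟩
    | succ m ih =>
      intro hm
      obtain ⟨q, hq, hqn, s, hs, hb⟩ := ih (by omega)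
      cases hcase : q.f (c m) with
      | some a =>
        refine ⟨q, hq, hqn, a.down :: s, by simp [hs], ?_, hb⟩
        rw [hs]; exact hcase
      | none =>
        obtain ⟨r, hr, hrv, hro⟩ := Fn.exists_insert le_rfl q (c m) (⟨true⟩ : ULift.{u} Bool) hcase
        refine ⟨r, hr.trans hq, ?_, true :: s, by simp [hs], ?_, hb.mono hr⟩
        · rw [← hqn]
          exact hro _ (fun h => by have := hc h; omega)
        · rw [hs]; exact hrv
  exact key n le_rfl

end CohenReals

end Pool.Agent.KM
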