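import Mathlib

/-!
# Definitions: nodes, trees, forcing relation

`K` is a well-ordered set of order type the cardinal `κ`.  Elements of the generalized Baire space
are functions `K → K`, nodes are elements of `^{<κ}κ`.
-/

namespace Pool.Agent.KM

open Cardinal Order

universe u v

section Nodes

variable (K : Type u) [LinearOrder K] [OrderBot K]

/-- A node: an element of `^{<κ}κ`, that is a function from `{i | i < len}` to `K`
(the values outside of the domain are set to `⊥`). -/
@[ext]
structure Node where
  len : K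
  val : K → K
  out : ∀ i, len ≤ i → val i = ⊥

variable {K}

/-- The restriction of `x : K → K` to `{i | i < β}`. -/
def cut (x : K → K) (β : K) : Node K :=
  ⟨β, fun i => if i < β then x i else ⊥, fun _ hi => if_neg (not_lt.2 hi)⟩

/-- The restriction of a node to `{i | i < β}` (used for `β ≤ t.len`). -/
def Node.res (t : Node K) (β : K) : Node K := cut t.val β

/-- `s ≤ t`: the node `s` is an initial segment of the node `t`. -/
instance : LE (Node K) := ⟨fun s t => s.len ≤ t.len ∧ ∀ i < s.len, s.val i = t.val i⟩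

/-- The node `t` followed by the value `a`. -/
def Node.snoc [SuccOrder K] (t : Node K) (a : K) : Node K :=
  cut (fun i => if i < t.len then t.val i else a) (succ t.len)

/-- The closed set of branches of a set of nodes. -/
def Body (U : Set (Node K)) : Set (K → K) := {x | ∀ β, cut x β ∈ U}

/-- No single function eventually dominates all elements of `F`. -/
def IsUnbounded (F : Set (K → K)) : Prop :=
  ∀ g : K → K, ∃ x ∈ F, ∀ β, ∃ γ, β ≤ γ ∧ g γ < x γ

/-- The sequence of the first `n` digits of `x`, latest digit first. -/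
def path (x : ℕ → Bool) : ℕ → List Bool
  | 0 => []
  | n + 1 => x n :: path x n

/-- `e` assigns to the finite 0-1 sequences (latest digit first) nodes of `U`, longer nodes to
longer sequences and incomparable nodes to the two extensions of a sequence, such that along each
infinite 0-1 sequence the nodes have a common extension in `U`. -/
def CantorScheme (U : Set (Node K)) (e : List Bool → Node K) : Prop :=
  (∀ s, e s ∈ U) ∧ (∀ s i, e s ≤ e (i :: s)) ∧
  (∀ s, ¬ e (true :: s) ≤ e (false :: s) ∧ ¬ e (false :: s) ≤ e (true :: s)) ∧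
  ∀ x : ℕ → Bool, ∃ w ∈ U, ∀ n, e (path x n) ≤ w

/-- There is no Cantor scheme in `U`. -/
def NoCantor (U : Set (Node K)) : Prop := ¬ ∃ e, CantorScheme U e

/-- The set `U` of nodes is a witness: the closed set `[U]` is not eventually dominated by a
single function, and there is no Cantor scheme in `U`. -/
def Witness (U : Set (Node K)) : Prop := IsUnbounded (Body U) ∧ NoCantor U

/-- `A` is the projection of the closed subset of the plane given by the set `C` of pairs of
nodes. -/
def IsSigma11 (A : Set (K → K)) : Prop :=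
  ∃ C : Set (Node K × Node K), A = {x | ∃ y : K → K, ∀ β, (cut x β, cut y β) ∈ C}

end Nodes

section Topology

/-- The generalized Baire space `^κκ`. -/
def GB (K : Type u) : Type u := K → K

variable {K : Type u} [LinearOrder K] [OrderBot K]

/-- The bounded topology: generated by the sets of extensions of a node. -/
instance : TopologicalSpace (GB K) :=
  TopologicalSpace.generateFrom {N | ∃ t : Node K, N = {x : GB K | cut x t.len = t}}

/-- Every cover by open sets has a subcover of size less than `κ`. -/
def IsKCompact (κ : Cardinal.{u}) (A : Set (GB K)) : Prop :=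
  ∀ 𝒰 : Set (Set (GB K)), (∀ V ∈ 𝒰, IsOpen V) → A ⊆ ⋃₀ 𝒰 →
    ∃ 𝒱 : Set (Set (GB K)), 𝒱 ⊆ 𝒰 ∧ #𝒱 < κ ∧ A ⊆ ⋃₀ 𝒱

/-- A union of at most `κ` many `κ`-compact sets. -/
def IsKKappa (κ : Cardinal.{u}) (A : Set (GB K)) : Prop :=
  ∃ B : K → Set (GB K), (∀ ξ, IsKCompact κ (B ξ)) ∧ A = ⋃ ξ, B ξ

/-- The Hurewicz dichotomy for the set `A`. -/
def Hurewicz (κ : Cardinal.{u}) (A : Set (GB K)) : Prop :=
  (∃ B, IsKKappa κ B ∧ A ⊆ B) ∨ ∃ E ⊆ A, IsClosed E ∧ Nonempty (E ≃ₜ GB K)

end Topology

section Forcing

variable {P : Type u} [Preorder P]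

/-! Truth values of the forcing relation are predicates on the conditions. -/

/-- `p ⊩ ¬ φ` -/
def fNot (φ : P → Prop) : P → Prop := fun p => ∀ q ≤ p, ¬ φ q

/-- `p ⊩ φ → ψ` -/
def fImp (φ ψ : P → Prop) : P → Prop := fun p => ∀ q ≤ p, φ q → ψ q

/-- `p ⊩ φ ∧ ψ` -/
def fAnd (φ ψ : P → Prop) : P → Prop := fun p => φ p ∧ ψ p

/-- `p ⊩ φ ∨ ψ` -/
def fOr (φ ψ : P → Prop) : P → Prop := fun p => ∀ q ≤ p, ∃ r ≤ q, φ r ∨ ψ r

/-- `p ⊩ ∀ i, φ i` -/
def fAll {I : Sort*} (φ : I → P → Prop) : P → Prop := fun p => ∀ i, φ i p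

/-- `p ⊩ ∃ i, φ i` -/
def fEx {I : Sort*} (φ : I → P → Prop) : P → Prop := fun p => ∀ q ≤ p, ∃ r ≤ q, ∃ i, φ i r

/-- A fact about ground model objects. -/
def fFact (a : Prop) : P → Prop := fun _ => a

/-- A truth value: persistent, and true at `p` if true at densely many conditions below `p`. -/
def Reg (φ : P → Prop) : Prop :=
  (∀ p q, q ≤ p → φ p → φ q) ∧ ∀ p, (∀ q ≤ p, ∃ r ≤ q, φ r) → φ p

/-- A name for a subset of the ground model set `X`. -/
structure SetName (P : Type u) [Preorder P] (X : Type u) where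
  mem : X → P → Prop
  reg : ∀ x, Reg (mem x)

/-- A name for a function `A → B` between ground model sets:
`app a b p` means `p ⊩ h(a) = b`. -/
structure FunName (P : Type u) [Preorder P] (A B : Type u) where
  app : A → B → P → Prop
  reg : ∀ a b, Reg (app a b)
  sv : ∀ a b c p, app a b p → app a c p → b = c
  tot : ∀ a p, ∃ q ≤ p, ∃ b, app a b q

variable {K : Type u} [LinearOrder K] [OrderBot K]

/-- `p ⊩ t ⊆ h` -/
def Starts (h : FunName P K K) (t : Node K) : P → Prop :=
  fun p => ∀ i < t.len, h.app i (t.val i) p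

/-- `p ⊩ h ↾ β ∈ S` -/
def ResIn (h : FunName P K K) (β : K) (S : SetName P (Node K)) : P → Prop :=
  fEx fun t : Node K => fAnd (fFact (t.len = β)) (fAnd (Starts h t) (S.mem t))

/-- `p ⊩ h ∈ [S]` -/
def InBody (h : FunName P K K) (S : SetName P (Node K)) : P → Prop := fAll fun β => ResIn h β S

/-- `p ⊩ h ∈ p[C]`: there is `y` with `(h ↾ β, y ↾ β) ∈ C` for all `β`. -/
def InProj (h : FunName P K K) (C : SetName P (Node K × Node K)) : P → Prop :=
  fEx fun y : FunName P K K => fAll fun β : K => fEx fun tu : Node K × Node K =>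
    fAnd (fFact (tu.1.len = β ∧ tu.2.len = β))
      (fAnd (Starts h tu.1) (fAnd (Starts y tu.2) (C.mem tu)))

/-- `p ⊩ S is closed under initial segments` -/
def fTree (S : SetName P (Node K)) : P → Prop :=
  fAll fun t : Node K => fAll fun β : K => fImp (S.mem t)
    (fImp (fFact (β ≤ t.len)) (S.mem (t.res β)))

/-- `p ⊩ S is superclosed`: closed under initial segments, and for all `h : K → K` and limits `l`,
if `h ↾ β ∈ S` for all `β < l` then `h ↾ l ∈ S`. -/
def fSuperclosed (S : SetName P (Node K)) : P → Prop :=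
  fAnd (fTree S) (fAll fun h : FunName P K K => fAll fun l : K => fImp (fFact (IsSuccLimit l))
    (fImp (fAll fun β : Set.Iio l => ResIn h β S) (ResIn h l S)))

/-- `p ⊩ S ⊆ T` -/
def fSub (S T : SetName P (Node K)) : P → Prop := fAll fun t => fImp (S.mem t) (T.mem t)

/-- `p ⊩ t has κ many (unboundedly many) immediate successors in S` -/
def fSplits [SuccOrder K] (S : SetName P (Node K)) (t : Node K) : P → Prop :=
  fAll fun β : K => fEx fun a : K => fAnd (fFact (β ≤ a)) (S.mem (t.snoc a))

/-- `p ⊩ S is a κ-Miller tree` -/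
def fMiller [SuccOrder K] (S : SetName P (Node K)) : P → Prop :=
  fAnd (fEx S.mem) (fAnd (fSuperclosed S) (fAll fun t : Node K => fImp (S.mem t)
    (fEx fun s : Node K => fAnd (fFact (t ≤ s)) (fAnd (S.mem s) (fSplits S s)))))

/-- The name of a ground model set of nodes. -/
def checkSet (U : Set (Node K)) : SetName P (Node K) :=
  ⟨fun t _ => t ∈ U, fun _ => ⟨fun _ _ _ h => h, fun p h => by
    obtain ⟨_, _, h⟩ := h p le_rfl; exact h⟩⟩

/-- `p ⊩ [U] is not eventually dominated by a single function`, for a ground model tree `U`. -/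
def fUnbounded (U : SetName P (Node K)) : P → Prop :=
  fAll fun g : FunName P K K => fEx fun x : FunName P K K => fAnd (InBody x U)
    (fAll fun β : K => fEx fun c : K × K × K => fAnd (fFact (β ≤ c.1 ∧ c.2.1 < c.2.2))
      (fAnd (g.app c.1 c.2.1) (x.app c.1 c.2.2)))

/-- `p ⊩ s is the sequence of the first digits of x (latest digit first)` -/
def Path (x : FunName P (ULift.{u} ℕ) (ULift.{u} Bool)) : List Bool → P → Prop
  | [] => fFact True
  | i :: s => fAnd (x.app ⟨s.length⟩ ⟨i⟩) (Path x s)

/-- `p ⊩ there is no Cantor scheme in U`. -/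
def fNoCantor (U : SetName P (Node K)) : P → Prop :=
  fNot (fEx fun e : FunName P (ULift.{u} (List Bool)) (Node K) =>
    fAnd (fAll fun s : List Bool => fEx fun t : Node K => fAnd (e.app ⟨s⟩ t) (U.mem t))
      (fAnd (fAll fun s : List Bool => fAll fun i : Bool => fEx fun tt : Node K × Node K =>
        fAnd (fFact (tt.1 ≤ tt.2)) (fAnd (e.app ⟨s⟩ tt.1) (e.app ⟨i :: s⟩ tt.2)))
      (fAnd (fAll fun s : List Bool => fEx fun tt : Node K × Node K =>
        fAnd (fFact (¬ tt.1 ≤ tt.2 ∧ ¬ tt.2 ≤ tt.1))
          (fAnd (e.app ⟨true :: s⟩ tt.1) (e.app ⟨false :: s⟩ tt.2)))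
      (fAll fun x : FunName P (ULift.{u} ℕ) (ULift.{u} Bool) => fEx fun w : Node K =>
        fAnd (U.mem w) (fAll fun s : List Bool => fAll fun t : Node K =>
          fImp (Path x s) (fImp (e.app ⟨s⟩ t) (fFact (t ≤ w))))))))

/-- `p ⊩ U is a witness`. -/
def fWitness (U : SetName P (Node K)) : P → Prop := fAnd (fUnbounded U) (fNoCantor U)

/-- `p ⊩ there are no new nodes`: every initial segment of a function `K → K` is a ground model
node. -/
def fNoNewNodes (P K : Type u) [Preorder P] [LinearOrder K] [OrderBot K] : P → Prop :=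
  fAll fun h : FunName P K K => fAll fun β : K => fEx fun t : Node K =>
    fAnd (fFact (t.len = β)) (Starts h t)

/-- `p ⊩ κ is regular`: for every function `h : K → K` and every `β` the values of `h` below `β`
are bounded. -/
def fRegular (P K : Type u) [Preorder P] [LinearOrder K] : P → Prop :=
  fAll fun h : FunName P K K => fAll fun β : K => fEx fun b : K => fAll fun i : Set.Iio β =>
    fEx fun v : K => fAnd (fFact (v < b)) (h.app i v)

/-- `p ⊩ κ^{<κ} = κ`: there is a sequence of `κ` many functions `e ξ : K → K` such that for every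
function `h : K → K` and every `β` some `e ξ` agrees with `h` below `β`. -/
def fPowSelf (P K : Type u) [Preorder P] [LinearOrder K] : P → Prop :=
  fEx fun e : FunName P (K × K) K => fAll fun h : FunName P K K => fAll fun β : K =>
    fEx fun ξ : K => fAll fun i : Set.Iio β => fEx fun v : K =>
      fAnd (h.app i v) (e.app (ξ, i) v)

/-- `p ⊩ every Σ¹₁ subset of ^κκ is κ-Miller measurable`. -/
def fMillerMeasurable (P K : Type u) [Preorder P] [LinearOrder K] [OrderBot K] [SuccOrder K] :
    P → Prop :=
  fAll fun C : SetName P (Node K × Node K) => fAll fun T : SetName P (Node K) =>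
    fImp (fMiller T) (fEx fun S : SetName P (Node K) => fAnd (fAnd (fMiller S) (fSub S T))
      (fOr (fAll fun h : FunName P K K => fImp (InBody h S) (InProj h C))
        (fAll fun h : FunName P K K => fImp (InBody h S) (fNot (InProj h C)))))

end Forcing

section Posets

/-- Every decreasing sequence of conditions indexed by a proper initial segment of `K` has a lower
bound. -/
def IsClosedPoset (K P : Type*) [LinearOrder K] [Preorder P] : Prop :=
  ∀ (α : K) (f : K → P), (∀ β γ, β ≤ γ → γ < α → f γ ≤ f β) → ∃ q, ∀ β < α, q ≤ f β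

/-- Every decreasing `ω`-sequence of conditions has a lower bound. -/
def IsOmegaClosed (P : Type*) [Preorder P] : Prop :=
  ∀ f : ℕ → P, (∀ n, f (n + 1) ≤ f n) → ∃ q, ∀ n, q ≤ f n

/-- Every antichain has less than `κ` elements. -/
def HasCC (κ : Cardinal.{u}) (P : Type u) [Preorder P] : Prop :=
  ∀ A : Set P, (∀ a ∈ A, ∀ b ∈ A, a ≠ b → ¬ ∃ r, r ≤ a ∧ r ≤ b) → #A < κ

end Posets

section Cohen

/-- Partial functions of size less than `θ` from `E` to `A`. -/
structure Fn (θ : Cardinal.{u}) (E : Type u) (A : Type v) where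
  f : E → Option A
  small : #{e // f e ≠ none} < θ

/-- Stronger conditions are larger partial functions. -/
instance {θ : Cardinal.{u}} {E : Type u} {A : Type v} : Preorder (Fn θ E A) where
  le q p := ∀ e a, p.f e = some a → q.f e = some a
  le_refl _ _ _ h := h
  le_trans _ _ _ h₁ h₂ e a h := h₁ e a (h₂ e a h)

end Cohen

end Pool.Agent.KM
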