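import Pool.Agent.Lib.MP_8c1a1d_lc.Basic

set_option linter.unusedSectionVars false
set_option linter.unusedVariables false

namespace Pool.Agent.KM

open Cardinal Order

universe u v

section FnPoset

variable {θ : Cardinal.{u}} {E : Type u} {A : Type v}

theorem Fn.le_def {p q : Fn θ E A} : q ≤ p ↔ ∀ e a, p.f e = some a → q.f e = some a := Iff.rfl

theorem Fn.ext' {p q : Fn θ E A} (h : ∀ e, p.f e = q.f e) : p = q := by
  obtain ⟨f, hf⟩ := p
  obtain ⟨g, hg⟩ := q
  have : f = g := funext h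
  subst this; rfl

/-- the empty condition -/
def Fn.empty (hθ : ℵ₀ ≤ θ) : Fn θ E A :=
  ⟨fun _ => none, by
    have : IsEmpty {e : E // (none : Option A) ≠ none} := ⟨fun x => x.2 rfl⟩
    rw [Cardinal.mk_eq_zero]
    exact (Cardinal.aleph0_pos).trans_le hθ⟩

theorem Fn.le_empty (hθ : ℵ₀ ≤ θ) (p : Fn θ E A) : p ≤ Fn.empty hθ :=
  fun _ _ h => by cases h

/-- `q` extends `p` on the coordinates in `J` -/
def LeOn (J : Set E) (q p : Fn θ E A) : Prop := ∀ e ∈ J, ∀ a, p.f e = some a → q.f e = some a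

theorem LeOn.refl (J : Set E) (p : Fn θ E A) : LeOn J p p := fun _ _ _ h => h

theorem LeOn.trans {J : Set E} {r q p : Fn θ E A} (h₁ : LeOn J r q) (h₂ : LeOn J q p) :
    LeOn J r p := fun e he a h => h₁ e he a (h₂ e he a h)

theorem LeOn.of_le {J : Set E} {q p : Fn θ E A} (h : q ≤ p) : LeOn J q p := fun e _ a ha => h e a ha

theorem le_iff_leOn (J : Set E) {q p : Fn θ E A} : q ≤ p ↔ LeOn J q p ∧ LeOn Jᶜ q p := by
  constructor
  · intro h; exact ⟨LeOn.of_le h, LeOn.of_le h⟩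
  · rintro ⟨h1, h2⟩ e a ha
    by_cases he : e ∈ J
    · exact h1 e he a ha
    · exact h2 e he a ha

open Classical in
/-- the condition equal to `p` on `J` and to `q` off `J` -/
noncomputable def mix (hθ : ℵ₀ ≤ θ) (J : Set E) (p q : Fn θ E A) : Fn θ E A :=
  ⟨fun e => if e ∈ J then p.f e else q.f e, by
    have h1 : #{e // (if e ∈ J then p.f e else q.f e) ≠ none} ≤
        #{e // p.f e ≠ none} + #{e // q.f e ≠ none} := by
      have hsub : {e | (if e ∈ J then p.f e else q.f e) ≠ none} ⊆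
          {e | p.f e ≠ none} ∪ {e | q.f e ≠ none} := by
        intro e he
        by_cases hJ : e ∈ J
        · left; simpa [hJ] using he
        · right; simpa [hJ] using he
      exact (Cardinal.mk_le_mk_of_subset hsub).trans (Cardinal.mk_union_le _ _)
    exact h1.trans_lt (Cardinal.add_lt_of_lt hθ p.small q.small)⟩

variable (hθ : ℵ₀ ≤ θ)

theorem mix_f_mem {J : Set E} {p q : Fn θ E A} {e : E} (he : e ∈ J) :
    (mix hθ J p q).f e = p.f e := if_pos he

theorem mix_f_not_mem {J : Set E} {p q : Fn θ E A} {e : E} (he : e ∉ J) :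
    (mix hθ J p q).f e = q.f e := if_neg he

theorem le_mix_iff {J : Set E} {r p q : Fn θ E A} :
    r ≤ mix hθ J p q ↔ LeOn J r p ∧ LeOn Jᶜ r q := by
  constructor
  · intro h
    exact ⟨fun e he a ha => h e a (by rw [mix_f_mem hθ he]; exact ha),
      fun e he a ha => h e a (by rw [mix_f_not_mem hθ he]; exact ha)⟩
  · rintro ⟨h1, h2⟩ e a ha
    by_cases he : e ∈ J
    · rw [mix_f_mem hθ he] at ha; exact h1 e he a ha
    · rw [mix_f_not_mem hθ he] at ha; exact h2 e he a ha

theorem mix_leOn_left {J : Set E} {p q : Fn θ E A} : LeOn J (mix hθ J p q) p :=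
  ((le_mix_iff hθ).1 le_rfl).1

theorem mix_leOn_right {J : Set E} {p q : Fn θ E A} : LeOn Jᶜ (mix hθ J p q) q :=
  ((le_mix_iff hθ).1 le_rfl).2

theorem leOn_mix_left {J : Set E} {p q : Fn θ E A} : LeOn J p (mix hθ J p q) :=
  fun e he a ha => by rwa [mix_f_mem hθ he] at ha

theorem leOn_mix_right {J : Set E} {p q : Fn θ E A} : LeOn Jᶜ q (mix hθ J p q) :=
  fun e he a ha => by rwa [mix_f_not_mem hθ he] at ha

theorem mix_self (J : Set E) (p : Fn θ E A) : mix hθ J p p = p :=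
  Fn.ext' fun e => by
    by_cases he : e ∈ J
    · exact mix_f_mem hθ he
    · exact mix_f_not_mem hθ he

theorem mix_le_mix {J : Set E} {p p' q q' : Fn θ E A} (h : LeOn J p' p) (h' : LeOn Jᶜ q' q) :
    mix hθ J p' q' ≤ mix hθ J p q :=
  (le_mix_iff hθ).2 ⟨(mix_leOn_left hθ).trans h, (mix_leOn_right hθ).trans h'⟩

/-- mixing a stronger `J`-part into `p` strengthens `p` -/
theorem mix_le {J : Set E} {p q : Fn θ E A} (h : LeOn J q p) : mix hθ J q p ≤ p := by
  conv_rhs => rw [← mix_self hθ J p]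
  exact mix_le_mix hθ h (LeOn.refl _ _)

theorem mix_le' {J : Set E} {p q : Fn θ E A} (h : LeOn Jᶜ q p) : mix hθ J p q ≤ p := by
  conv_rhs => rw [← mix_self hθ J p]
  exact mix_le_mix hθ (LeOn.refl _ _) h

/-- a truth value which depends only on the coordinates in `J` (and is persistent) -/
def SPers (J : Set E) (φ : Fn θ E A → Prop) : Prop := ∀ p q, LeOn J q p → φ p → φ q

theorem SPers.pers {J : Set E} {φ : Fn θ E A → Prop} (h : SPers J φ) : Pers φ :=
  fun p q hq => h p q (LeOn.of_le hq)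

theorem spers_fFact (J : Set E) (a : Prop) : SPers (θ := θ) (A := A) J (fFact a) :=
  fun _ _ _ h => h

theorem spers_fAnd {J : Set E} {φ ψ : Fn θ E A → Prop} (h : SPers J φ) (h' : SPers J ψ) :
    SPers J (fAnd φ ψ) := fun p q hq hp => ⟨h p q hq hp.1, h' p q hq hp.2⟩

theorem spers_fAll {J : Set E} {I : Sort*} {φ : I → Fn θ E A → Prop} (h : ∀ i, SPers J (φ i)) :
    SPers J (fAll φ) := fun p q hq hp i => h i p q hq (hp i)

include hθ in
theorem spers_fEx {J : Set E} {I : Sort*} {φ : I → Fn θ E A → Prop} (h : ∀ i, SPers J (φ i)) :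
    SPers J (fEx φ) := by
  intro p q hq hp r hr
  -- mix the `J` part of `r` into `p`
  obtain ⟨s, hs, i, hi⟩ := hp (mix hθ J r p) (mix_le hθ ((LeOn.of_le hr).trans hq))
  refine ⟨mix hθ J s r, ?_, i, h i s _ (mix_leOn_left hθ) hi⟩
  exact mix_le hθ ((LeOn.of_le hs).trans (mix_leOn_left hθ))

include hθ in
theorem spers_fNot {J : Set E} {φ : Fn θ E A → Prop} (h : SPers J φ) : SPers J (fNot φ) := by
  intro p q hq hp r hr hφ
  refine hp (mix hθ J r p) (mix_le hθ ((LeOn.of_le hr).trans hq)) ?_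
  exact h r _ (mix_leOn_left hθ) hφ

include hθ in
theorem spers_fImp {J : Set E} {φ ψ : Fn θ E A → Prop} (h : SPers J φ) (h' : SPers J ψ) :
    SPers J (fImp φ ψ) := by
  intro p q hq hp r hr hφ
  refine h' _ r (leOn_mix_left hθ (q := p))
    (hp (mix hθ J r p) (mix_le hθ ((LeOn.of_le hr).trans hq)) ?_)
  exact h r _ (mix_leOn_left hθ) hφ

include hθ in
theorem spers_fOr {J : Set E} {φ ψ : Fn θ E A → Prop} (h : SPers J φ) (h' : SPers J ψ) :
    SPers J (fOr φ ψ) := by
  intro p q hq hp r hr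
  obtain ⟨s, hs, hi⟩ := hp (mix hθ J r p) (mix_le hθ ((LeOn.of_le hr).trans hq))
  refine ⟨mix hθ J s r, mix_le hθ ((LeOn.of_le hs).trans (mix_leOn_left hθ)), ?_⟩
  rcases hi with hi | hi
  · exact Or.inl (h s _ (mix_leOn_left hθ) hi)
  · exact Or.inr (h' s _ (mix_leOn_left hθ) hi)

end FnPoset

/-! ## Lower bounds and distributivity -/

section Closed

/-- a chain of less than `θ` conditions has a lower bound, whose coordinates are those of the
members of the chain -/
theorem Fn.exists_inf {θ : Cardinal.{u}} {E : Type u} {A : Type v} (hθ : θ.IsRegular)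
    {I : Type u} (hI : #I < θ) (f : I → Fn θ E A) (hc : ∀ i j, f i ≤ f j ∨ f j ≤ f i) :
    ∃ q : Fn θ E A, (∀ i, q ≤ f i) ∧ ∀ e a, q.f e = some a → ∃ i, (f i).f e = some a := by
  classical
  let g : E → Option A := fun e => if h : ∃ i, (f i).f e ≠ none then (f h.choose).f e else none
  have hg : ∀ e a, g e = some a → ∃ i, (f i).f e = some a := by
    intro e a h
    by_cases hex : ∃ i, (f i).f e ≠ none
    · refine ⟨hex.choose, ?_⟩
      simpa [g, hex] using h
    · simp [g, hex] at h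
  have hsm : #{e // g e ≠ none} < θ := by
    have hsub : {e | g e ≠ none} ⊆ ⋃ i, {e | (f i).f e ≠ none} := by
      intro e he
      obtain ⟨a, ha⟩ := Option.ne_none_iff_exists'.1 he
      obtain ⟨i, hi⟩ := hg e a ha
      exact Set.mem_iUnion.2 ⟨i, by show (f i).f e ≠ none; rw [hi]; simp⟩
    refine (Cardinal.mk_le_mk_of_subset hsub).trans_lt ?_
    refine Cardinal.mk_iUnion_le_sum_mk.trans_lt ?_
    exact Cardinal.sum_lt_of_isRegular hθ hI fun i => (f i).small
  refine ⟨⟨g, hsm⟩, fun i e a ha => ?_, hg⟩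
  have hex : ∃ i, (f i).f e ≠ none := ⟨i, by rw [ha]; simp⟩
  show g e = some a
  simp only [g, dif_pos hex]
  obtain ⟨b, hb⟩ := Option.ne_none_iff_exists'.1 hex.choose_spec
  rw [hb]
  rcases hc i hex.choose with h | h
  · have := h e b hb; rw [ha] at this; exact this.symm
  · have := h e a ha; rw [hb] at this; exact this

theorem Fn.isClosedPoset {θ : Cardinal.{u}} {E : Type u} {A : Type v} {K : Type u} [LinearOrder K]
    (hθ : θ.IsRegular) (hK : ∀ a : K, #(Set.Iio a) < θ) : IsClosedPoset K (Fn θ E A) := by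
  intro α f hf
  obtain ⟨q, hq, _⟩ := Fn.exists_inf hθ (hK α) (fun i : Set.Iio α => f i) (by
    intro i j
    rcases le_total i.1 j.1 with h | h
    · right; exact hf _ _ h j.2
    · left; exact hf _ _ h i.2)
  exact ⟨q, fun β hβ => hq ⟨β, hβ⟩⟩

/-- less than `κ` many dense sets have dense intersection -/
theorem IsClosedPoset.distrib {K P : Type*} [LinearOrder K] [OrderBot K] [WellFoundedLT K]
    [Preorder P]
    (hcl : IsClosedPoset K P) (α : K) (D : K → P → Prop) (hp : ∀ β < α, ∀ p q, q ≤ p → D β p → D β q)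
    (hd : ∀ β < α, ∀ p, ∃ q ≤ p, D β q) (p₀ : P) : ∃ q ≤ p₀, ∀ β < α, D β q := by
  classical
  -- recursive construction
  let step : (β : K) → ((γ : K) → γ < β → P) → P := fun β g =>
    if h : ∃ q, q ≤ p₀ ∧ (∀ γ (hγ : γ < β), q ≤ g γ hγ) ∧ (β < α → D β q) then h.choose else p₀
  let g : K → P := WellFounded.fix (wellFounded_lt (α := K)) step
  have hg : ∀ β, g β = step β fun γ _ => g γ := fun β =>
    WellFounded.fix_eq (wellFounded_lt (α := K)) step β
  have key : ∀ β ≤ α, (g β ≤ p₀ ∧ (∀ γ < β, g β ≤ g γ) ∧ (β < α → D β (g β))) := by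
    intro β
    induction β using WellFoundedLT.induction with
    | ind β ih =>
      intro hβ
      have hex : ∃ q, q ≤ p₀ ∧ (∀ γ, γ < β → q ≤ g γ) ∧ (β < α → D β q) := by
        obtain ⟨q, hq⟩ := hcl β g (by
          intro γ δ hγδ hδ
          rcases hγδ.lt_or_eq with h | h
          · exact (ih δ hδ (hδ.le.trans hβ)).2.1 γ h
          · rw [h])
        have hq' : ∃ q, q ≤ p₀ ∧ ∀ γ, γ < β → q ≤ g γ := by
          rcases eq_or_ne β ⊥ with h | h
          · exact ⟨p₀, le_rfl, fun γ hγ => absurd (h ▸ hγ) not_lt_bot⟩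
          · exact ⟨q, (hq ⊥ (bot_lt_iff_ne_bot.2 h)).trans
              (ih ⊥ (bot_lt_iff_ne_bot.2 h) bot_le).1, hq⟩
        obtain ⟨q', hq₁, hq₂⟩ := hq'
        by_cases hβα : β < α
        · obtain ⟨q'', h1, h2⟩ := hd β hβα q'
          exact ⟨q'', h1.trans hq₁, fun γ hγ => h1.trans (hq₂ γ hγ), fun _ => h2⟩
        · exact ⟨q', hq₁, hq₂, fun h => absurd h hβα⟩
      have : g β = hex.choose := by rw [hg β]; exact dif_pos hex
      rw [this]
      exact hex.choose_spec
  exact ⟨g α, (key α le_rfl).1, fun β hβ =>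
    hp β hβ _ _ ((key α le_rfl).2.1 β hβ) ((key β hβ.le).2.2 hβ)⟩

/-- choice form of distributivity -/
theorem IsClosedPoset.distrib_ex {K P : Type*} [LinearOrder K] [OrderBot K] [WellFoundedLT K]
    [Preorder P] {X : Type*} [Nonempty X]
    (hcl : IsClosedPoset K P) (α : K) (φ : K → X → P → Prop)
    (hp : ∀ β x, ∀ p q, q ≤ p → φ β x p → φ β x q) (p₀ : P)
    (hd : ∀ β < α, ∀ p ≤ p₀, ∃ q ≤ p, ∃ x, φ β x q) :
    ∃ q ≤ p₀, ∃ x : K → X, ∀ β < α, φ β (x β) q := by
  classical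
  obtain ⟨q, hq, h⟩ := hcl.distrib α (fun β q => (∃ x, φ β x q) ∨ ¬ ∃ r ≤ q, r ≤ p₀)
    (by
      rintro β hβ p q hq (⟨x, hx⟩ | h)
      · exact Or.inl ⟨x, hp β x p q hq hx⟩
      · exact Or.inr fun ⟨r, hr, h'⟩ => h ⟨r, hr.trans hq, h'⟩)
    (by
      intro β hβ p
      by_cases h : ∃ r ≤ p, r ≤ p₀
      · obtain ⟨r, hr, h'⟩ := h
        obtain ⟨q, hq, x, hx⟩ := hd β hβ r h'
        exact ⟨q, hq.trans hr, Or.inl ⟨x, hx⟩⟩
      · exact ⟨p, le_rfl, Or.inr h⟩) p₀
  have h' : ∀ β < α, ∃ x, φ β x q := by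
    intro β hβ
    rcases h β hβ with h | h
    · exact h
    · exact absurd ⟨q, le_rfl, hq⟩ h
  refine ⟨q, hq, fun β => if hβ : β < α then (h' β hβ).choose else Classical.arbitrary X, ?_⟩
  intro β hβ
  simp only [dif_pos hβ]
  exact (h' β hβ).choose_spec

end Closed

end Pool.Agent.KM
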