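import Pool.Agent.Lib.MP_8c1a1d_lc.Rec

set_option linter.unusedSectionVars false
set_option linter.unusedVariables false

namespace Pool.Agent.KM

open Cardinal Order

universe u v

/-! ## More on names -/

section Names

variable {P : Type u} [Preorder P]

theorem reg_imp_prop {c : Prop} {φ : P → Prop} (h : c → Reg φ) : Reg (fun p => c → φ p) := by
  by_cases hc : c
  · have := h hc
    exact ⟨fun p q hq hp _ => this.mono hq (hp hc), fun p hd _ =>
      this.dense fun q hq => (hd q hq).imp fun r hr => ⟨hr.1, hr.2 hc⟩⟩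
  · exact ⟨fun p q hq hp h' => absurd h' hc, fun p hd h' => absurd h' hc⟩

/-- A name below a condition extends to a name. -/
theorem exists_funName {A B : Type u} [Nonempty B] (q : P) (app₀ : A → B → P → Prop)
    (hreg : ∀ a b, Reg (app₀ a b))
    (hsv : ∀ a b c, ∀ p ≤ q, app₀ a b p → app₀ a c p → b = c)
    (htot : ∀ a, ∀ p ≤ q, ∃ r ≤ p, ∃ b, app₀ a b r) :
    ∃ y : FunName P A B, ∀ a b, ∀ p ≤ q, app₀ a b p → y.app a b p := by
  classical
  let G : P → Prop := fun p => ∀ r ≤ p, ∃ s ≤ r, s ≤ q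
  have hG : Reg G := ⟨fun p p' hp' h r hr => h r (hr.trans hp'), fun p hd r hr => by
    obtain ⟨s, hs, h⟩ := hd r hr
    obtain ⟨s', hs', h'⟩ := h s le_rfl
    exact ⟨s', hs'.trans hs, h'⟩⟩
  let d : B := Classical.arbitrary B
  refine ⟨⟨fun a b => fAnd (fImp G (app₀ a b)) (fImp (fNot G) (fFact (b = d))),
    fun a b => reg_fAnd (reg_fImp hG.pers (hreg a b)) (reg_fImp (reg_fNot hG.pers).pers (reg_fFact _)),
    ?_, ?_⟩, ?_⟩
  · rintro a b c p ⟨h1, h2⟩ ⟨h3, h4⟩
    by_cases hc : ∃ r ≤ p, r ≤ q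
    · obtain ⟨r, hr, hrq⟩ := hc
      have hGr : G r := fun s hs => ⟨s, le_rfl, hs.trans hrq⟩
      exact hsv a b c r hrq (h1 r hr hGr) (h3 r hr hGr)
    · have hn : fNot G p := fun r hr hGr => by
        obtain ⟨s, hs, hsq⟩ := hGr r le_rfl
        exact hc ⟨s, hs.trans hr, hsq⟩
      have e1 : b = d := h2 p le_rfl hn
      have e2 : c = d := h4 p le_rfl hn
      rw [e1, e2]
  · intro a p
    by_cases hc : ∃ r ≤ p, r ≤ q
    · obtain ⟨r, hr, hrq⟩ := hc
      obtain ⟨s, hs, b, hb⟩ := htot a r hrq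
      refine ⟨s, hs.trans hr, b, fun s' hs' _ => (hreg a b).mono hs' hb, fun s' hs' hn => ?_⟩
      exact absurd (fun s'' hs'' => ⟨s'', le_rfl, hs''.trans (hs'.trans (hs.trans hrq))⟩)
        (hn s' le_rfl)
    · refine ⟨p, le_rfl, d, fun s hs hGs => ?_, fun s hs _ => rfl⟩
      obtain ⟨s', hs', hq'⟩ := hGs s le_rfl
      exact absurd ⟨s', hs'.trans hs, hq'⟩ hc
  · intro a b p hp hb
    refine ⟨fun s hs _ => (hreg a b).mono hs hb, fun s hs hn => ?_⟩
    exact absurd (fun s'' hs'' => ⟨s'', le_rfl, hs''.trans (hs.trans hp)⟩) (hn s le_rfl)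

variable {K : Type u} [LinearOrder K] [OrderBot K] [WellFoundedLT K]

/-- initial segments of names can be decided -/
theorem decide_res (hcl : IsClosedPoset K P) (h : FunName P K K) (β : K) (p : P) :
    ∃ q ≤ p, ∃ t : Node K, t.len = β ∧ Starts h t q := by
  obtain ⟨q, hq, x, hx⟩ := hcl.distrib_ex (X := K) β (fun i a q => h.app i a q)
    (fun i a p q hq hp => (h.reg _ _).mono hq hp) p (fun i _ p' _ => h.tot i p')
  refine ⟨q, hq, cut x β, rfl, fun i (hi : i < β) => ?_⟩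
  rw [cut_val hi]; exact hx i hi

/-- `p ⊩ (h, y) ∈ [C]` -/
def PairIn (h y : FunName P K K) (C : SetName P (Node K × Node K)) : P → Prop :=
  fAll fun β : K => fEx fun tu : Node K × Node K =>
    fAnd (fFact (tu.1.len = β ∧ tu.2.len = β))
      (fAnd (Starts h tu.1) (fAnd (Starts y tu.2) (C.mem tu)))

theorem reg_pairIn (h y : FunName P K K) (C : SetName P (Node K × Node K)) :
    Reg (PairIn h y C) := reg_fAll fun _ => reg_fEx

/-- the ground nodes forced to be initial segments of a branch belong to the tree -/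
theorem mem_of_inBody {h : FunName P K K} {S : SetName P (Node K)} {t : Node K} {p : P}
    (hb : InBody h S p) (ht : Starts h t p) : S.mem t p := by
  refine (S.reg t).dense fun q hq => ?_
  obtain ⟨r, hr, s, hs, hs1, hs2⟩ := hb t.len q hq
  have hs' : s.len = t.len := hs
  have := starts_eq hs1 ((reg_starts h t).mono (hr.trans hq) ht) hs'
  exact ⟨r, hr, this ▸ hs2⟩

theorem mem_of_pairIn {h y : FunName P K K} {C : SetName P (Node K × Node K)} {t u : Node K} {p : P}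
    (hb : PairIn h y C p) (ht : Starts h t p) (hu : Starts y u p) (hl : t.len = u.len) :
    C.mem (t, u) p := by
  refine (C.reg _).dense fun q hq => ?_
  obtain ⟨r, hr, s, ⟨hs, hs'⟩, hs1, hs2, hs3⟩ := hb t.len q hq
  have e1 := starts_eq hs1 ((reg_starts h t).mono (hr.trans hq) ht) hs
  have e2 := starts_eq hs2 ((reg_starts y u).mono (hr.trans hq) hu) (hs'.trans hl)
  refine ⟨r, hr, ?_⟩
  have : s = (t, u) := Prod.ext e1 e2
  rw [← this]; exact hs3

end Names

section Fusion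

variable {θ : Cardinal.{u}} {E A : Type u}
variable {K : Type u} [LinearOrder K] [OrderBot K] [WellFoundedLT K] [SuccOrder K] [NoMaxOrder K]
variable (hθ : ℵ₀ ≤ θ) (J : Set E)

theorem reg_mix {φ : Fn θ E A → Prop} (h : Reg φ) (q : Fn θ E A) :
    Reg (fun p => φ (mix hθ J p q)) := by
  refine ⟨fun p p' hp' hp => h.mono (mix_le_mix hθ (LeOn.of_le hp') (LeOn.refl _ _)) hp,
    fun p hd => h.dense fun r hr => ?_⟩
  obtain ⟨h1, h2⟩ := (le_mix_iff hθ).1 hr
  obtain ⟨s, hs, hφ⟩ := hd (mix hθ J r p) (mix_le hθ h1)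
  have hsr : LeOn J s r := (LeOn.of_le hs).trans (mix_leOn_left hθ)
  exact ⟨mix hθ J s r, mix_le hθ hsr, h.mono (mix_le_mix hθ (LeOn.refl _ _) h2) hφ⟩

theorem spers_mix {φ : Fn θ E A → Prop} (h : Pers φ) (q : Fn θ E A) :
    SPers J (fun p => φ (mix hθ J p q)) :=
  fun p p' hp' hp => h _ _ (mix_le_mix hθ hp' (LeOn.refl _ _)) hp

/-- In the extension by `J`: some extension of `q` off `J` forces `t ⊆ h`. -/
def Poss (h : FunName (Fn θ E A) K K) (q : Fn θ E A) (t : Node K) : Fn θ E A → Prop :=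
  fEx fun r : Fn θ E A => fAnd (fFact (LeOn Jᶜ r q)) (fun p => Starts h t (mix hθ J p r))

/-- In the extension by `J`: unboundedly many successors of `t` are possible for `h` below `q`. -/
def Wide (h : FunName (Fn θ E A) K K) (q : Fn θ E A) (t : Node K) : Fn θ E A → Prop :=
  fAll fun β : K => fEx fun a : K => fAnd (fFact (β ≤ a)) (Poss hθ J h q (t.snoc a))

theorem reg_poss (h : FunName (Fn θ E A) K K) (q : Fn θ E A) (t : Node K) :
    Reg (Poss hθ J h q t) := reg_fEx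

theorem spers_poss (h : FunName (Fn θ E A) K K) (q : Fn θ E A) (t : Node K) :
    SPers J (Poss hθ J h q t) :=
  spers_fEx hθ fun r => spers_fAnd (spers_fFact J _) (spers_mix hθ J (reg_starts h t).pers r)

theorem reg_wide (h : FunName (Fn θ E A) K K) (q : Fn θ E A) (t : Node K) :
    Reg (Wide hθ J h q t) := reg_fAll fun _ => reg_fEx

theorem spers_wide (h : FunName (Fn θ E A) K K) (q : Fn θ E A) (t : Node K) :
    SPers J (Wide hθ J h q t) :=
  spers_fAll fun β => spers_fEx hθ fun a => spers_fAnd (spers_fFact J _) (spers_poss hθ J h q _)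

theorem Poss.mono {h : FunName (Fn θ E A) K K} {q q' : Fn θ E A} {t : Node K} {p : Fn θ E A}
    (hq : LeOn Jᶜ q' q) (hp : Poss hθ J h q' t p) : Poss hθ J h q t p := by
  intro r hr
  obtain ⟨s, hs, q'', h1, h2⟩ := hp r hr
  exact ⟨s, hs, q'', LeOn.trans h1 hq, h2⟩

theorem Wide.mono {h : FunName (Fn θ E A) K K} {q q' : Fn θ E A} {t : Node K} {p : Fn θ E A}
    (hq : LeOn Jᶜ q' q) (hp : Wide hθ J h q' t p) : Wide hθ J h q t p := by
  intro β r hr
  obtain ⟨s, hs, a, h1, h2⟩ := hp β r hr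
  exact ⟨s, hs, a, h1, Poss.mono hθ J hq h2⟩

/-- a possible node is forced by a condition below `mix p q` -/
theorem Poss.get {h : FunName (Fn θ E A) K K} {q : Fn θ E A} {t : Node K} {p : Fn θ E A}
    (hp : Poss hθ J h q t p) : ∃ m ≤ mix hθ J p q, Starts h t m := by
  obtain ⟨s, hs, r, h1, h2⟩ := hp p le_rfl
  exact ⟨mix hθ J s r, mix_le_mix hθ (LeOn.of_le hs) h1, h2⟩

/-- if `q` forces `t ⊆ h` then the wide nodes extend `t` -/
theorem le_of_wide {h : FunName (Fn θ E A) K K} {q p : Fn θ E A} {s t : Node K}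
    (hpq : p ≤ q) (ht : Starts h t q) (hw : Wide hθ J h q s p) : t ≤ s := by
  have key : ∀ β : K, ∃ a, β ≤ a ∧ ∃ m ≤ q, Starts h (s.snoc a) m := by
    intro β
    obtain ⟨r, hr, a, ha, hP⟩ := hw β p le_rfl
    obtain ⟨m, hm, hS⟩ := Poss.get hθ J hP
    refine ⟨a, ha, m, hm.trans ?_, hS⟩
    exact mix_le hθ (LeOn.of_le (hr.trans hpq))
  rcases le_or_gt t.len s.len with hl | hl
  · obtain ⟨a, _, m, hm, hS⟩ := key ⊥
    exact starts_comp ((reg_starts h t).mono hm ht) (starts_snoc.1 hS).1 hl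
  · obtain ⟨a, ha, m, hm, hS⟩ := key (succ (t.val s.len))
    have h1 := (starts_snoc.1 hS).2
    have h2 := (reg_starts h t).mono hm ht s.len hl
    have := h.sv _ _ _ _ h1 h2
    exact absurd (this ▸ ha) (not_le.2 (lt_succ _))

variable (h y : FunName (Fn θ E A) K K) (p₁ : Fn θ E A)

/-- the states: a condition, a target node, and a decided initial segment of `y` -/
abbrev St (θ : Cardinal.{u}) (E A K : Type u) [LinearOrder K] [OrderBot K] : Type u :=
  Fn θ E A × Node K × Node K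

/-- the successor `a` is allowed at the node `s` with state `x` -/
def Allowed (s : Node K) (x : St θ E A K) (a : K) : Fn θ E A → Prop := fun p =>
  (s ≠ x.2.1 → a = x.2.1.val s.len) ∧ (s = x.2.1 → Poss hθ J h x.1 (s.snoc a) p)

def inS (t : Node K) (Xs : K → St θ E A K) : Fn θ E A → Prop :=
  fAll fun β : Set.Iio t.len => Allowed hθ J h (t.res β) (Xs β) (t.val β)

def Keep (t : Node K) (Xs : K → St θ E A K) (β₀ : K) : Prop :=
  β₀ < t.len ∧ ∀ γ, β₀ ≤ γ → γ < t.len → Xs γ = Xs β₀ ∧ t.res γ ≠ (Xs β₀).2.1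

def New (t : Node K) (Xs : K → St θ E A K) (x : St θ E A K) : Fn θ E A → Prop := fun p =>
  (LeOn Jᶜ x.1 p₁ ∧ (∀ β < t.len, LeOn Jᶜ x.1 (Xs β).1 ∧ (Xs β).2.2 ≤ x.2.2) ∧
    t ≤ x.2.1 ∧ x.2.2.len = t.len) ∧
  Wide hθ J h x.1 x.2.1 p ∧ Starts h t (mix hθ J p x.1) ∧ Starts y x.2.2 (mix hθ J p x.1)

def Rule (t : Node K) (Xs : K → St θ E A K) (x : St θ E A K) : Fn θ E A → Prop :=
  fImp (fun p => LeOn J p p₁ ∧ inS hθ J h t Xs p)
    (fun p => (∀ β₀, Keep t Xs β₀ → x = Xs β₀) ∧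
      ((¬ ∃ β₀, Keep t Xs β₀) → New hθ J h y p₁ t Xs x p))

/-- validity of the state `x` at the node `t` (of length `β`), history `Xs` -/
def Valid (t : Node K) (Xs : K → St θ E A K) (β : K) (p : Fn θ E A) : Prop :=
  LeOn Jᶜ (Xs β).1 p₁ ∧ t.res β ≤ (Xs β).2.1 ∧ Wide hθ J h (Xs β).1 (Xs β).2.1 p ∧
  (Xs β).2.2.len ≤ β ∧ Starts h (t.res (Xs β).2.2.len) (mix hθ J p (Xs β).1) ∧
  Starts y (Xs β).2.2 (mix hθ J p (Xs β).1) ∧
  ∀ γ ≤ β, LeOn Jᶜ (Xs β).1 (Xs γ).1 ∧ (Xs γ).2.2 ≤ (Xs β).2.2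

theorem reg_allowed (s : Node K) (x : St θ E A K) (a : K) : Reg (Allowed hθ J h s x a) :=
  reg_fAnd (reg_fFact _) (reg_imp_prop fun _ => reg_poss hθ J h _ _)

theorem spers_allowed (s : Node K) (x : St θ E A K) (a : K) : SPers J (Allowed hθ J h s x a) :=
  fun p q hq hp => ⟨hp.1, fun hs => spers_poss hθ J h _ _ p q hq (hp.2 hs)⟩

theorem reg_inS (t : Node K) (Xs : K → St θ E A K) : Reg (inS hθ J h t Xs) :=
  reg_fAll fun _ => reg_allowed hθ J h _ _ _

theorem spers_inS (t : Node K) (Xs : K → St θ E A K) : SPers J (inS hθ J h t Xs) :=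
  spers_fAll fun _ => spers_allowed hθ J h _ _ _

theorem reg_new (t : Node K) (Xs : K → St θ E A K) (x : St θ E A K) :
    Reg (New hθ J h y p₁ t Xs x) :=
  reg_fAnd (reg_fFact _) (reg_fAnd (reg_wide hθ J h _ _)
    (reg_fAnd (reg_mix hθ J (reg_starts h t) _) (reg_mix hθ J (reg_starts y _) _)))

theorem spers_new (t : Node K) (Xs : K → St θ E A K) (x : St θ E A K) :
    SPers J (New hθ J h y p₁ t Xs x) :=
  spers_fAnd (spers_fFact J _) (spers_fAnd (spers_wide hθ J h _ _)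
    (spers_fAnd (spers_mix hθ J (reg_starts h t).pers _) (spers_mix hθ J (reg_starts y _).pers _)))

theorem reg_rule (t : Node K) (Xs : K → St θ E A K) (x : St θ E A K) :
    Reg (Rule hθ J h y p₁ t Xs x) :=
  reg_fImp (fun p q hq hp => ⟨(LeOn.of_le hq).trans hp.1, (reg_inS hθ J h t Xs).mono hq hp.2⟩)
    (reg_fAnd (reg_fFact _) (reg_imp_prop fun _ => reg_new hθ J h y p₁ t Xs x))

theorem spers_rule (t : Node K) (Xs : K → St θ E A K) (x : St θ E A K) :
    SPers J (Rule hθ J h y p₁ t Xs x) :=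
  spers_fImp hθ (fun p q hq hp => ⟨LeOn.trans hq hp.1, spers_inS hθ J h t Xs p q hq hp.2⟩)
    (fun p q hq hp => ⟨hp.1, fun hn => spers_new hθ J h y p₁ t Xs x p q hq (hp.2 hn)⟩)

theorem keep_congr {t : Node K} {Xs Ys : K → St θ E A K} (hXY : ∀ β < t.len, Xs β = Ys β) {β₀ : K}
    (hk : Keep t Xs β₀) : Keep t Ys β₀ := by
  refine ⟨hk.1, fun γ h1 h2 => ?_⟩
  rw [← hXY γ h2, ← hXY β₀ hk.1]
  exact hk.2 γ h1 h2

theorem inS_congr {t : Node K} {Xs Ys : K → St θ E A K} (hXY : ∀ β < t.len, Xs β = Ys β)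
    {p : Fn θ E A} (hi : inS hθ J h t Xs p) : inS hθ J h t Ys p := by
  intro β
  show Allowed hθ J h (t.res β) (Ys β) (t.val β) p
  rw [← hXY β β.2]
  exact hi β

theorem rule_congr (t : Node K) (Xs Ys : K → St θ E A K) (x : St θ E A K) (p : Fn θ E A)
    (hXY : ∀ β < t.len, Xs β = Ys β) (hr : Rule hθ J h y p₁ t Xs x p) :
    Rule hθ J h y p₁ t Ys x p := by
  have hYX : ∀ β < t.len, Ys β = Xs β := fun β hβ => (hXY β hβ).symm
  rintro q hq ⟨h1, h2⟩
  obtain ⟨h3, h4⟩ := hr q hq ⟨h1, inS_congr hθ J h hYX h2⟩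
  refine ⟨fun β₀ hk => ?_, fun hn => ?_⟩
  · rw [h3 β₀ (keep_congr hYX hk), hXY β₀ hk.1]
  · obtain ⟨⟨h5, h6, h7⟩, h8⟩ := h4 (fun ⟨β₀, hk⟩ => hn ⟨β₀, keep_congr hXY hk⟩)
    refine ⟨⟨h5, fun β hβ => ?_, h7⟩, h8⟩
    rw [← hXY β hβ]; exact h6 β hβ

theorem inS_res {t : Node K} {Xs : K → St θ E A K} {p : Fn θ E A} {β : K} (hβ : β ≤ t.len)
    (hi : inS hθ J h t Xs p) : inS hθ J h (t.res β) Xs p := by
  rintro ⟨γ, hγ⟩
  have hγ' : γ < β := hγ
  have := hi ⟨γ, hγ'.trans_le hβ⟩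
  show Allowed hθ J h ((t.res β).res γ) (Xs γ) ((t.res β).val γ) p
  rw [res_res hγ'.le, res_val hγ']
  exact this

/-- the states along a decided history are valid -/
theorem valid_of_hist {t : Node K} {Xs : K → St θ E A K} {p : Fn θ E A} (hp : LeOn J p p₁)
    (β : K) (hβ : β ≤ t.len) (hist : ∀ γ ≤ β, Rule hθ J h y p₁ (t.res γ) Xs (Xs γ) p)
    (hi : inS hθ J h (t.res β) Xs p) : Valid hθ J h y p₁ t Xs β p := by
  induction β using WellFoundedLT.induction with
  | ind β ih =>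
    have hinS : ∀ γ ≤ β, inS hθ J h (t.res γ) Xs p := fun γ hγ => by
      have := inS_res hθ J h (t := t.res β) (show γ ≤ (t.res β).len from hγ) hi
      rwa [res_res hγ] at this
    have hall : ∀ γ < β, Allowed hθ J h (t.res γ) (Xs γ) (t.val γ) p := fun γ hγ => by
      have := hi ⟨γ, hγ⟩
      change Allowed hθ J h ((t.res β).res γ) (Xs γ) ((t.res β).val γ) p at this
      rwa [res_res hγ.le, res_val hγ] at this
    obtain ⟨hk, hn⟩ := hist β le_rfl p le_rfl ⟨hp, hi⟩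
    by_cases hex : ∃ β₀, Keep (t.res β) Xs β₀
    · obtain ⟨β₀, hkeep⟩ := hex
      have hx : Xs β = Xs β₀ := hk β₀ hkeep
      have hβ₀ : β₀ < β := hkeep.1
      obtain ⟨v1, v2, v3, v4, v5, v6, v7⟩ := ih β₀ hβ₀ (hβ₀.le.trans hβ)
        (fun γ hγ => hist γ (hγ.trans hβ₀.le)) (hinS β₀ hβ₀.le)
      have hkeep' : ∀ γ, β₀ ≤ γ → γ < β → Xs γ = Xs β₀ ∧ t.res γ ≠ (Xs β₀).2.1 := by
        intro γ h1 h2
        have := hkeep.2 γ h1 h2
        rwa [res_res h2.le] at this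
      have hval : ∀ i < β, i < (Xs β₀).2.1.len ∨ β₀ ≤ i → t.val i = (Xs β₀).2.1.val i := by
        intro i hi' _
        rcases lt_or_ge i β₀ with h1 | h1
        · have := v2.2 i h1
          rwa [res_val h1] at this
        · have h2 := hall i hi'
          have h3 := hkeep' i h1 hi'
          rw [h3.1] at h2
          exact h2.1 h3.2
      have hlen : β ≤ (Xs β₀).2.1.len := by
        by_contra hlt
        rw [not_le] at hlt
        have h1 : β₀ ≤ (Xs β₀).2.1.len := v2.1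
        refine (hkeep' _ h1 hlt).2 ?_
        refine Node.eq_of rfl fun i (hi' : i < (Xs β₀).2.1.len) => ?_
        rw [res_val hi']
        exact hval i (hi'.trans hlt) (Or.inl hi')
      refine ⟨?_, ?_, ?_, ?_, ?_, ?_, ?_⟩
      · rw [hx]; exact v1
      · rw [hx]
        refine ⟨hlen, fun i (hi' : i < β) => ?_⟩
        rw [res_val hi']
        exact hval i hi' (Or.inl (hi'.trans_le hlen))
      · rw [hx]; exact v3
      · rw [hx]; exact v4.trans hβ₀.le
      · rw [hx]; exact v5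
      · rw [hx]; exact v6
      · intro γ hγ
        rw [hx]
        rcases le_total γ β₀ with h1 | h1
        · exact v7 γ h1
        · rcases hγ.lt_or_eq with h2 | h2
          · rw [(hkeep' γ h1 h2).1]; exact ⟨LeOn.refl _ _, Node.le_refl _⟩
          · rw [h2, hx]; exact ⟨LeOn.refl _ _, Node.le_refl _⟩
    · obtain ⟨⟨n1, n2, n3, n4⟩, n5, n6, n7⟩ := hn hex
      have n4' : (Xs β).2.2.len = β := n4
      refine ⟨n1, n3, n5, n4'.le, ?_, n7, ?_⟩
      · rw [n4']; exact n6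
      · intro γ hγ
        rcases hγ.lt_or_eq with h2 | h2
        · exact n2 γ h2
        · rw [h2]; exact ⟨LeOn.refl _ _, Node.le_refl _⟩

/-- the existence step of the recursion -/
theorem rule_exists [Nonempty A] (hcl : IsClosedPoset K (Fn θ E A))
    (hw : ∀ r ≤ p₁, ∃ r' ≤ r, ∃ t, Wide hθ J h r t r')
    (p : Fn θ E A) (t : Node K) (Xs : K → St θ E A K)
    (hist : ∀ β < t.len, Rule hθ J h y p₁ (t.res β) Xs (Xs β) p) :
    ∃ q ≤ p, ∃ x, Rule hθ J h y p₁ t Xs x q := by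
  classical
  by_cases hc : ∃ q ≤ p, LeOn J q p₁ ∧ inS hθ J h t Xs q
  swap
  · refine ⟨p, le_rfl, (p, root, root), ?_⟩
    intro q hq hA
    exact absurd ⟨q, hq, hA⟩ hc
  obtain ⟨q₀, hq₀, hJ, hi⟩ := hc
  have hist₀ : ∀ β < t.len, Rule hθ J h y p₁ (t.res β) Xs (Xs β) q₀ := fun β hβ =>
    (reg_rule hθ J h y p₁ _ _ _).mono hq₀ (hist β hβ)
  have hV : ∀ β < t.len, Valid hθ J h y p₁ t Xs β q₀ := fun β hβ =>
    valid_of_hist hθ J h y p₁ hJ β hβ.le (fun γ hγ => hist₀ γ (hγ.trans_lt hβ))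
      (inS_res hθ J h hβ.le hi)
  by_cases hkeep : ∃ β₀, Keep t Xs β₀
  · obtain ⟨β₀, hk⟩ := hkeep
    refine ⟨q₀, hq₀, Xs β₀, fun q hq _ => ⟨fun β₁ hk₁ => ?_, fun hn => absurd ⟨β₀, hk⟩ hn⟩⟩
    rcases le_total β₀ β₁ with h1 | h1
    · exact ((hk.2 β₁ h1 hk₁.1).1).symm
    · exact (hk₁.2 β₀ h1 hk.1).1
  -- a condition `r` forcing `t ⊆ h`
  have hr : ∃ r, LeOn J r q₀ ∧ LeOn Jᶜ r p₁ ∧ (∀ β < t.len, LeOn Jᶜ r (Xs β).1) ∧ Starts h t r := by
    rcases eq_or_ne t.len ⊥ with h0 | h0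
    · refine ⟨mix hθ J q₀ p₁, mix_leOn_left hθ, mix_leOn_right hθ,
        fun β hβ => absurd (h0 ▸ hβ) not_lt_bot, ?_⟩
      rw [eq_root h0]; exact starts_root h _
    by_cases hlim : IsSuccLimit t.len
    · -- limit length
      have hcof : ∀ i < t.len, ∃ β < t.len, i < (Xs β).2.2.len := by
        intro i hi'
        have hnk : ¬ Keep t Xs i := fun hk => hkeep ⟨i, hk⟩
        have hex : ∃ γ, i ≤ γ ∧ γ < t.len ∧ ¬ (Xs γ = Xs i ∧ t.res γ ≠ (Xs i).2.1) := by
          by_contra hcon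
          push Not at hcon
          exact hnk ⟨hi', fun γ h1 h2 => by
            have := hcon γ h1 h2; tauto⟩
        let S : Set K := {γ | i ≤ γ ∧ γ < t.len ∧ ¬ (Xs γ = Xs i ∧ t.res γ ≠ (Xs i).2.1)}
        let γ := WellFounded.min (wellFounded_lt (α := K)) S hex
        obtain ⟨g1, g2, g3⟩ := WellFounded.min_mem (wellFounded_lt (α := K)) S hex
        have hbelow : ∀ δ, i ≤ δ → δ < γ → Xs δ = Xs i ∧ t.res δ ≠ (Xs i).2.1 := by
          intro δ d1 d2
          by_contra hne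
          exact WellFounded.not_lt_min (wellFounded_lt (α := K)) S (x := δ)
            ⟨d1, d2.trans g2, hne⟩ d2
        have hXγ : Xs γ = Xs i := by
          by_contra hne
          have hlt : i < γ := lt_of_le_of_ne g1 (fun h => hne (by rw [← h]))
          refine hne ((hist₀ γ g2 q₀ le_rfl ⟨hJ, inS_res hθ J h g2.le hi⟩).1 i ?_)
          refine ⟨hlt, fun δ d1 d2 => ?_⟩
          have d2' : δ < γ := d2
          rw [res_res d2'.le]
          exact hbelow δ d1 d2'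
        have hres : t.res γ = (Xs i).2.1 := by
          by_contra hne; exact g3 ⟨hXγ, hne⟩
        have hβlt : succ γ < t.len := hlim.succ_lt g2
        refine ⟨succ γ, hβlt, ?_⟩
        obtain ⟨_, hn⟩ := hist₀ (succ γ) hβlt q₀ le_rfl ⟨hJ, inS_res hθ J h hβlt.le hi⟩
        have hnk2 : ¬ ∃ β₀, Keep (t.res (succ γ)) Xs β₀ := by
          rintro ⟨β₀, hk1, hk2⟩
          have h1 : β₀ ≤ γ := lt_succ_iff.1 hk1
          have := hk2 γ h1 (lt_succ γ)
          rw [res_res (le_succ γ)] at this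
          exact this.2 (by rw [hres, ← this.1, hXγ])
        obtain ⟨⟨_, _, _, n4⟩, _⟩ := hn hnk2
        have n4' : (Xs (succ γ)).2.2.len = succ γ := n4
        rw [n4']
        exact lt_of_le_of_lt g1 (lt_succ γ)
      obtain ⟨r, hr⟩ := hcl t.len (fun β => mix hθ J q₀ (Xs β).1) (by
        intro β γ hβγ hγ
        exact mix_le_mix hθ (LeOn.refl _ _) ((hV γ hγ).2.2.2.2.2.2 β hβγ).1)
      have hbot : (⊥ : K) < t.len := bot_lt_iff_ne_bot.2 h0
      refine ⟨r, (LeOn.of_le (hr ⊥ hbot)).trans (mix_leOn_left hθ),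
        ((LeOn.of_le (hr ⊥ hbot)).trans (mix_leOn_right hθ)).trans (hV ⊥ hbot).1,
        fun β hβ => (LeOn.of_le (hr β hβ)).trans (mix_leOn_right hθ), ?_⟩
      intro i hi'
      obtain ⟨β, hβ, hlt⟩ := hcof i hi'
      have := (reg_starts h _).mono (hr β hβ) (hV β hβ).2.2.2.2.1 i hlt
      rwa [res_val hlt] at this
    · -- successor length
      obtain ⟨α, hα⟩ : ∃ α, t.len = succ α := by
        have hnp : ¬ IsSuccPrelimit t.len := fun h' => hlim ⟨by
          rw [isMin_iff_eq_bot]; exact h0, h'⟩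
        rw [not_isSuccPrelimit_iff_succ_eq] at hnp
        obtain ⟨α, _, hα⟩ := hnp
        exact ⟨α, hα.symm⟩
      have hαlt : α < t.len := hα ▸ lt_succ α
      have hres : t.res α = (Xs α).2.1 := by
        by_contra hne
        refine hkeep ⟨α, hαlt, fun γ h1 h2 => ?_⟩
        rw [hα] at h2
        have : γ = α := le_antisymm (lt_succ_iff.1 h2) h1
        subst this
        exact ⟨rfl, hne⟩
      have hall : Poss hθ J h (Xs α).1 t q₀ := by
        have := (hi ⟨α, hαlt⟩).2 hres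
        change Poss hθ J h (Xs α).1 ((t.res α).snoc (t.val α)) q₀ at this
        rwa [← eq_snoc hα] at this
      obtain ⟨m, hm, hS⟩ := Poss.get hθ J hall
      obtain ⟨m1, m2⟩ := (le_mix_iff hθ).1 hm
      refine ⟨m, m1, m2.trans (hV α hαlt).1, fun β hβ => ?_, hS⟩
      rw [hα] at hβ
      exact m2.trans ((hV α hαlt).2.2.2.2.2.2 β (lt_succ_iff.1 hβ)).1
  obtain ⟨r, r1, r2, r3, r4⟩ := hr
  obtain ⟨r', hr', u, hu, hyu⟩ := decide_res hcl y t.len r
  have hr'p₁ : r' ≤ p₁ := (le_iff_leOn J).2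
    ⟨(LeOn.of_le hr').trans (r1.trans hJ), (LeOn.of_le hr').trans r2⟩
  obtain ⟨r'', hr'', τ, hτ⟩ := hw r' hr'p₁
  have htτ : t ≤ τ := le_of_wide hθ J hr'' ((reg_starts h t).mono hr' r4) hτ
  have hle : LeOn J r'' q₀ := (LeOn.of_le (hr''.trans hr')).trans r1
  have hnew : New hθ J h y p₁ t Xs (r', τ, u) r'' := by
    refine ⟨⟨LeOn.of_le hr'p₁, fun β hβ => ⟨(LeOn.of_le hr').trans (r3 β hβ), ?_⟩, htτ, hu⟩,
      hτ, ?_, ?_⟩
    · have h1 : r' ≤ mix hθ J q₀ (Xs β).1 := (le_mix_iff hθ).2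
        ⟨(LeOn.of_le hr').trans r1, (LeOn.of_le hr').trans (r3 β hβ)⟩
      have h2 := (reg_starts y _).mono h1 (hV β hβ).2.2.2.2.2.1
      refine starts_comp h2 hyu ?_
      rw [hu]
      exact (hV β hβ).2.2.2.1.trans hβ.le
    · refine (reg_starts h t).mono ?_ ((reg_starts h t).mono hr' r4)
      exact mix_le hθ (LeOn.of_le hr'')
    · exact (reg_starts y u).mono (mix_le hθ (LeOn.of_le hr'')) hyu
  refine ⟨mix hθ J r'' q₀, (mix_le hθ hle).trans hq₀, (r', τ, u), ?_⟩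
  intro q hq _
  refine ⟨fun β₀ hk => absurd ⟨β₀, hk⟩ hkeep, fun _ => ?_⟩
  exact spers_new hθ J h y p₁ t Xs _ r'' q ((LeOn.of_le hq).trans (mix_leOn_left hθ)) hnew

end Fusion

end Pool.Agent.KM
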