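import Pool.Agent.Lib.MP_8c1a1d_lc.Cantor

set_option linter.unusedSectionVars false
set_option linter.unusedVariables false

namespace Pool.Agent.KM

open Cardinal Order

universe u v

section Coord

variable {θ : Cardinal.{u}} {E : Type u} {A : Type u}

theorem reg_coord (hθ : ℵ₀ ≤ θ) [Nontrivial A] (e₀ : E) (a : A) :
    Reg (fun p : Fn θ E A => p.f e₀ = some a) := by
  refine ⟨fun p q hq h => hq _ _ h, fun p hd => ?_⟩
  show p.f e₀ = some a
  cases hcase : p.f e₀ with
  | some b =>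
    obtain ⟨r, hr, h⟩ := hd p le_rfl
    have h' : r.f e₀ = some a := h
    rw [hr _ _ hcase] at h'
    exact h'
  | none =>
    obtain ⟨b, hb⟩ := exists_ne a
    obtain ⟨q, hq, hqv, _⟩ := Fn.exists_insert hθ p e₀ b hcase
    obtain ⟨r, hr, h⟩ := hd q hq
    have h' : r.f e₀ = some a := h
    rw [hr _ _ hqv] at h'
    cases h'
    exact absurd rfl hb

/-- the name of the generic function along the coordinates `c` -/
def genericName (hθ : ℵ₀ ≤ θ) [Nontrivial A] {B : Type u} (c : B → E) :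
    FunName (Fn θ E A) B A where
  app n a p := p.f (c n) = some a
  reg n a := reg_coord hθ (c n) a
  sv n a b p h h' := by rw [h] at h'; cases h'; rfl
  tot n p := by
    cases hcase : p.f (c n) with
    | some b => exact ⟨p, le_rfl, b, hcase⟩
    | none =>
      obtain ⟨q, hq, hqv, _⟩ := Fn.exists_insert hθ p (c n) (Classical.arbitrary A) hcase
      exact ⟨q, hq, _, hqv⟩

end Coord

section CohenReals

variable {κ : Cardinal.{u}} {E : Type u}
variable {K : Type u} [LinearOrder K] [OrderBot K]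

/-- **Cohen reals**: after adding uncountably many Cohen reals there is no Cantor scheme in the
set of ground model nodes. -/
theorem fNoCantor_ground (hE : ℵ₀ < #E) (p : Fn ℵ₀ E (ULift.{u} Bool)) :
    fNoCantor (checkSet (Set.univ : Set (Node K))) p := by
  classical
  intro q hq hex
  obtain ⟨r₀, _, e, _, _, h3, h4⟩ := hex q le_rfl
  have hA : #(ULift.{u} Bool) ≤ ℵ₀ := Cardinal.mk_le_aleph0
  -- the support of `e`
  obtain ⟨J, hJ, hJd⟩ := support_countable hA (N := ULift.{u} (List Bool)) Cardinal.mk_le_aleph0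
    (fun s q => ∃ t, e.app s t q) (fun s p => e.tot s p)
  have hsp : ∀ s t, SPers J (e.app s t) := fun s t =>
    spers_of_dense le_rfl (φ := fun t => e.app s t) (e.reg s) (e.sv s) (fun p hp => hJd s p hp) t
  -- fresh coordinates
  have hinf : Jᶜ.Infinite := by
    intro hfin
    have h1 : #(Jᶜ : Set E) < ℵ₀ := hfin.lt_aleph0
    have h2 : #E ≤ #J + #(Jᶜ : Set E) := by
      rw [Cardinal.mk_sum_compl]
    exact absurd (h2.trans ((add_le_add hJ h1.le).trans (Cardinal.aleph0_add_aleph0).le))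
      (not_le.2 hE)
  let c : ℕ → E := fun n => (hinf.natEmbedding _ n : E)
  have hc : Function.Injective c := fun m n h =>
    (hinf.natEmbedding _).injective (Subtype.ext h)
  have hcJ : ∀ n, c n ∉ J := fun n => (hinf.natEmbedding _ n).2
  -- the new real and the node along it
  obtain ⟨q₂, hq₂, w, _, hbelow⟩ := h4 (genericName le_rfl fun n : ULift.{u} ℕ => c n.down) r₀ le_rfl
  have hpath : ∀ (s : List Bool) (p : Fn ℵ₀ E (ULift.{u} Bool)), Bits c s p →
      Path (genericName le_rfl fun n : ULift.{u} ℕ => c n.down) s p := by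
    intro s p h
    induction s with
    | nil => trivial
    | cons i s ih => exact ⟨h.1, ih h.2⟩
  -- a fresh coordinate
  obtain ⟨n, hn⟩ : ∃ n, q₂.f (c n) = none := by
    by_contra hcon
    push Not at hcon
    have h1 : #(ULift.{u} ℕ) ≤ #{e // q₂.f e ≠ none} := Cardinal.mk_le_of_injective
      (f := fun n : ULift.{u} ℕ => (⟨c n.down, hcon n.down⟩ : {e // q₂.f e ≠ none}))
      (fun m n h => ULift.ext _ _ (hc (show c m.down = c n.down from
        congrArg (fun x : {e // q₂.f e ≠ none} => x.1) h)))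
    rw [Cardinal.mk_uLift, Cardinal.mk_nat, Cardinal.lift_aleph0] at h1
    exact absurd q₂.small (not_lt.2 h1)
  obtain ⟨q₃, hq₃, hq₃n, s, hs, hbits⟩ := exists_bits hc n q₂
  -- decide the two successors without touching the coordinate
  have hdec : ∀ (i : Bool) (q : Fn ℵ₀ E (ULift.{u} Bool)), ∃ q' ≤ q,
      q'.f (c n) = q.f (c n) ∧ ∃ t, e.app ⟨i :: s⟩ t q' := by
    intro i q
    obtain ⟨r, hr, t, ht⟩ := e.tot ⟨i :: s⟩ q
    exact ⟨mix le_rfl J r q, mix_le le_rfl (LeOn.of_le hr), mix_f_not_mem le_rfl (hcJ n),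
      t, hsp _ _ _ _ (mix_leOn_left le_rfl) ht⟩
  obtain ⟨q₄, hq₄, hq₄n, t₁, ht₁⟩ := hdec true q₃
  obtain ⟨q₅, hq₅, hq₅n, t₂, ht₂⟩ := hdec false q₄
  have hnone : q₅.f (c n) = none := by rw [hq₅n, hq₄n, hq₃n, hn]
  have hq₅₂ : q₅ ≤ q₂ := hq₅.trans (hq₄.trans hq₃)
  have hfin : ∀ (i : Bool) (t : Node K), e.app ⟨i :: s⟩ t q₅ → t ≤ w := by
    intro i t ht
    obtain ⟨r, hr, hrv, _⟩ := Fn.exists_insert le_rfl q₅ (c n) (⟨i⟩ : ULift.{u} Bool) hnone
    refine hbelow (i :: s) t r (hr.trans hq₅₂) (hpath _ _ ⟨by rw [hs]; exact hrv,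
      hbits.mono (hr.trans (hq₅.trans hq₄))⟩) r le_rfl ((e.reg _ _).mono hr ht)
  have h1 := hfin true t₁ ((e.reg _ _).mono hq₅ ht₁)
  have h2 := hfin false t₂ ht₂
  obtain ⟨q₆, hq₆, ⟨t₁', t₂'⟩, h5, h6, h7⟩ := h3 s q₅ (hq₅₂.trans hq₂)
  have e1 : t₁' = t₁ := e.sv _ _ _ _ h6 ((e.reg _ _).mono (hq₆.trans hq₅) ht₁)
  have e2 : t₂' = t₂ := e.sv _ _ _ _ h7 ((e.reg _ _).mono hq₆ ht₂)
  have h5' : ¬ t₁' ≤ t₂' ∧ ¬ t₂' ≤ t₁' := h5
  rw [e1, e2] at h5'
  rcases le_total t₁.len t₂.len with h | h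
  · exact h5'.1 (Node.le_of_le_of_le h1 h2 h)
  · exact h5'.2 (Node.le_of_le_of_le h2 h1 h)

end CohenReals

/-! ## Regularity of `κ` and `κ^{<κ} = κ` in the extensions -/

section Closed

variable {κ : Cardinal.{u}} {P : Type u} [Preorder P]
variable {K : Type u} [LinearOrder K] [OrderBot K] [WellFoundedLT K]

theorem fRegular_of_closed (hreg : κ.IsRegular)
    (hO : Ordinal.type (fun a b : K => a < b) = κ.ord) (hcl : IsClosedPoset K P) (p : P) :
    fRegular P K p := by
  intro h β q hq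
  obtain ⟨r, hr, t, ht, hst⟩ := decide_res hcl h β q
  obtain ⟨b, hb⟩ := exists_bound hreg hO (Set.range fun i : Set.Iio β => t.val i)
    (Cardinal.mk_range_le.trans_lt (card_Iio_lt hO _))
  refine ⟨r, hr, b, ?_⟩
  rintro ⟨i, hi⟩ r' hr'
  exact ⟨r', le_rfl, t.val i, hb _ ⟨⟨i, hi⟩, rfl⟩,
    (h.reg _ _).mono hr' (hst i (by rw [ht]; exact hi))⟩

theorem fPowSelf_of_closed (hreg : κ.IsRegular) (hpow : ∀ c < κ, κ ^ c ≤ κ)
    (hO : Ordinal.type (fun a b : K => a < b) = κ.ord) (hcl : IsClosedPoset K P) (p : P) :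
    fPowSelf P K p := by
  classical
  have hnN : Nonempty (Node K) := ⟨root⟩
  obtain ⟨⟨f, hf⟩⟩ := Cardinal.le_def _ _ |>.1
    ((card_node hreg hpow hO).trans (card_of_type hO).ge)
  have hen : Function.Surjective (Function.invFun f) := Function.invFun_surjective hf
  refine fEx_intro (fun e => ?_) (checkFun P fun x : K × K => (Function.invFun f x.1).val x.2) ?_
  · exact (reg_fAll fun _ => reg_fAll fun _ => reg_fEx).pers
  · intro h β q hq
    obtain ⟨r, hr, t, ht, hst⟩ := decide_res hcl h β q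
    obtain ⟨ξ, hξ⟩ := hen t
    refine ⟨r, hr, ξ, ?_⟩
    rintro ⟨i, hi⟩ r' hr'
    refine ⟨r', le_rfl, t.val i, (h.reg _ _).mono hr' (hst i (by rw [ht]; exact hi)), ?_⟩
    show (Function.invFun f ξ).val i = t.val i
    rw [hξ]

end Closed

section CohenRealsPow

variable {κ : Cardinal.{u}} {E A : Type u}
variable {K : Type u} [LinearOrder K] [OrderBot K] [WellFoundedLT K]

theorem fRegular_reals (hreg : κ.IsRegular) (hunc : ℵ₀ < κ)
    (hO : Ordinal.type (fun a b : K => a < b) = κ.ord) (hA : #A ≤ ℵ₀) (p : Fn ℵ₀ E A) :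
    fRegular (Fn ℵ₀ E A) K p := by
  intro h β q hq
  obtain ⟨b, hb⟩ := exists_bound hreg hO (⋃ i : Set.Iio β, {b | ∃ r, h.app i b r}) (by
    refine Cardinal.mk_iUnion_le_sum_mk.trans_lt ?_
    exact Cardinal.sum_lt_of_isRegular hreg (card_Iio_lt hO β) fun i =>
      (possible_countable hA h i.1).trans_lt hunc)
  refine ⟨q, le_rfl, b, ?_⟩
  rintro i r hr
  obtain ⟨r', hr', v, hv⟩ := h.tot i.1 r
  exact ⟨r', hr', v, hb v (Set.mem_iUnion.2 ⟨i, r', hv⟩), hv⟩

theorem FunName.ext' {P : Type u} [Preorder P] {A B : Type u} {a b : FunName P A B}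
    (h : ∀ x y p, a.app x y p ↔ b.app x y p) : a = b := by
  obtain ⟨f, _, _, _⟩ := a
  obtain ⟨g, _, _, _⟩ := b
  have : f = g := by
    funext x y p
    exact propext (h x y p)
  subst this
  rfl

/-- the number of conditions -/
theorem card_fn (hreg : κ.IsRegular) (hunc : ℵ₀ < κ) (hpow : ∀ c < κ, κ ^ c ≤ κ) (hE : #E ≤ κ)
    (hA : #A ≤ κ) : #(Fn ℵ₀ E A) ≤ κ := by
  have h := card_supported hreg hpow hA (Set.univ : Set E) (by rw [Cardinal.mk_univ]; exact hE)
  refine le_trans (Cardinal.mk_le_of_injective (f := fun p : Fn ℵ₀ E A =>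
    (⟨⟨p.f, p.small.trans hunc⟩, fun e _ => Set.mem_univ e⟩ :
      {p : Fn κ E A // ∀ e, p.f e ≠ none → e ∈ (Set.univ : Set E)})) ?_) h
  intro p q hpq
  have : p.f = q.f := congrArg (fun x : {p : Fn κ E A // ∀ e, p.f e ≠ none →
    e ∈ (Set.univ : Set E)} => x.1.f) hpq
  exact Fn.ext' fun e => congrFun this e

/-- the number of names for elements of `K` -/
theorem card_names (hreg : κ.IsRegular) (hunc : ℵ₀ < κ) (hpow : ∀ c < κ, κ ^ c ≤ κ)
    (hE : #E ≤ κ) (hA : #A ≤ ℵ₀) (hK : #K ≤ κ) :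
    #(FunName (Fn ℵ₀ E A) PUnit.{u + 1} K) ≤ κ := by
  classical
  have hsupp : ∀ a : FunName (Fn ℵ₀ E A) PUnit.{u + 1} K, ∃ J : Set E, #J ≤ ℵ₀ ∧
      ∀ v, SPers J (a.app PUnit.unit v) := by
    intro a
    obtain ⟨J, hJ, h⟩ := support_countable hA (N := PUnit.{u + 1}) (by simp)
      (fun _ q => ∃ b, a.app PUnit.unit b q) (fun _ p => a.tot PUnit.unit p)
    exact ⟨J, hJ, fun v => spers_of_dense le_rfl (φ := fun v => a.app PUnit.unit v)
      (a.reg _) (a.sv _) (fun p hp => h PUnit.unit p hp) v⟩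
  choose J hJ hJs using hsupp
  have hB : #(Fn ℵ₀ E A × K) ≤ κ := by
    simp only [Cardinal.mk_prod, Cardinal.lift_id]
    exact (mul_le_mul' (card_fn hreg hunc hpow hE (hA.trans hunc.le)) hK).trans
      (Cardinal.mul_eq_self hreg.aleph0_le).le
  let G : FunName (Fn ℵ₀ E A) PUnit.{u + 1} K → Set (Fn ℵ₀ E A × K) := fun a =>
    {x | (∀ e, x.1.f e ≠ none → e ∈ J a) ∧ a.app PUnit.unit x.2 x.1}
  have hG : ∀ a, #(G a) < κ := by
    intro a
    refine lt_of_le_of_lt (Cardinal.mk_le_of_injective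
      (f := fun x : G a => (⟨x.1.1, x.2.1⟩ : {p : Fn ℵ₀ E A // ∀ e, p.f e ≠ none → e ∈ J a})) ?_)
      ((card_supported Cardinal.isRegular_aleph0 aleph0_pow_le hA (J a) (hJ a)).trans_lt hunc)
    rintro ⟨⟨p, v⟩, h1, h2⟩ ⟨⟨p', v'⟩, h1', h2'⟩ h
    have e1 : p = p' := congrArg Subtype.val h
    subst e1
    have e2 : v = v' := a.sv _ _ _ _ h2 h2'
    subst e2
    rfl
  have key : ∀ a b : FunName (Fn ℵ₀ E A) PUnit.{u + 1} K, G a = G b → ∀ v p,
      a.app PUnit.unit v p → b.app PUnit.unit v p := by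
    intro a b hab v p hp
    refine (b.reg _ _).dense fun q hq => ⟨q, le_rfl, ?_⟩
    have h1 : (mix le_rfl (J a) q (Fn.empty le_rfl), v) ∈ G a := by
      refine ⟨fun e he => ?_, hJs a v q _ (mix_leOn_left le_rfl) ((a.reg _ _).mono hq hp)⟩
      by_contra hne
      exact he (mix_f_not_mem le_rfl hne)
    rw [hab] at h1
    refine (b.reg _ _).mono ?_ h1.2
    exact (le_mix_iff le_rfl).2 ⟨LeOn.refl _ _, fun e _ a ha => by cases ha⟩
  refine (Cardinal.mk_le_of_injective (f := fun a => (⟨G a, hG a⟩ :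
    {G : Set (Fn ℵ₀ E A × K) // #G < κ})) ?_).trans (card_small_sets hreg hpow hB)
  intro a b h
  have hab : G a = G b := congrArg Subtype.val h
  exact FunName.ext' fun x y p => ⟨key a b hab y p, key b a hab.symm y p⟩

/-- the function coded by a sequence of names -/
noncomputable def codeApp {P : Type u} [Preorder P]
    (c : Σ β : K, (Set.Iio β → FunName P PUnit.{u + 1} K)) (i v : K) : P → Prop := by
  classical exact if h : i < c.1 then (c.2 ⟨i, h⟩).app PUnit.unit v else fFact (v = ⊥)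

theorem fPowSelf_reals (hreg : κ.IsRegular) (hunc : ℵ₀ < κ) (hpow : ∀ c < κ, κ ^ c ≤ κ)
    (hO : Ordinal.type (fun a b : K => a < b) = κ.ord) (hE : #E ≤ κ) (hA : #A ≤ ℵ₀)
    (p : Fn ℵ₀ E A) : fPowSelf (Fn ℵ₀ E A) K p := by
  classical
  have hK : #K = κ := card_of_type hO
  have hnames := card_names (K := K) hreg hunc hpow hE hA hK.le
  let Code := Σ β : K, (Set.Iio β → FunName (Fn ℵ₀ E A) PUnit.{u + 1} K)
  have hcode : #Code ≤ #K := by
    rw [Cardinal.mk_sigma, hK]
    refine (Cardinal.sum_le_sum _ (fun _ => κ) fun β => ?_).trans ?_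
    · rw [← Cardinal.power_def]
      exact (Cardinal.power_le_power_right hnames).trans (hpow _ (card_Iio_lt hO β))
    · rw [Cardinal.sum_const', hK]
      exact (Cardinal.mul_eq_self hreg.aleph0_le).le
  obtain ⟨⟨f, hf⟩⟩ := Cardinal.le_def _ _ |>.1 hcode
  have hne : Nonempty Code := ⟨⟨⊥, fun i => absurd i.2 not_lt_bot⟩⟩
  have hen : Function.Surjective (Function.invFun f) := Function.invFun_surjective hf
  have hreg' : ∀ (c : Code) (i v : K), Reg (codeApp c i v) := by
    intro c i v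
    unfold codeApp
    split_ifs with h
    · exact (c.2 ⟨i, h⟩).reg _ _
    · exact reg_fFact _
  let e : FunName (Fn ℵ₀ E A) (K × K) K :=
    { app := fun x v => codeApp (Function.invFun f x.1) x.2 v
      reg := fun x v => hreg' _ _ _
      sv := by
        intro x v w q h1 h2
        unfold codeApp at h1 h2
        split_ifs at h1 h2 with h
        · exact FunName.sv _ _ _ _ _ h1 h2
        · exact (show v = ⊥ from h1).trans (show w = ⊥ from h2).symm
      tot := by
        intro x q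
        by_cases h : x.2 < (Function.invFun f x.1).1
        · obtain ⟨r, hr, v, hv⟩ := ((Function.invFun f x.1).2 ⟨x.2, h⟩).tot PUnit.unit q
          refine ⟨r, hr, v, ?_⟩
          unfold codeApp
          rw [dif_pos h]; exact hv
        · refine ⟨q, le_rfl, ⊥, ?_⟩
          unfold codeApp
          rw [dif_neg h]; exact rfl }
  refine fEx_intro (fun e => ?_) e ?_
  · exact (reg_fAll fun _ => reg_fAll fun _ => reg_fEx).pers
  · intro h β
    obtain ⟨ξ, hξ⟩ := hen ⟨β, fun i =>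
      { app := fun _ v => h.app i v
        reg := fun _ v => h.reg _ _
        sv := fun _ => h.sv _
        tot := fun _ => h.tot _ }⟩
    refine fEx_intro (fun ξ => (reg_fAll fun _ => reg_fEx).pers) ξ ?_
    intro i q hq
    obtain ⟨r, hr, v, hv⟩ := h.tot i.1 q
    refine ⟨r, hr, v, hv, ?_⟩
    show codeApp (Function.invFun f ξ) i.1 v r
    rw [hξ]
    unfold codeApp
    rw [dif_pos (show i.1 < β from i.2)]
    exact hv

end CohenRealsPow

end Pool.Agent.KM
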