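import Pool.Agent.Lib.MP_8c1a1d_lc.Case2

set_option linter.unusedSectionVars false
set_option linter.unusedVariables false

namespace Pool.Agent.KM

open Cardinal Order

universe u v

section Count

variable {θ : Cardinal.{u}} {K : Type u} [LinearOrder K] [OrderBot K] [WellFoundedLT K]

/-- the number of nodes -/
theorem card_node (hreg : θ.IsRegular) (hpow : ∀ c < θ, θ ^ c ≤ θ)
    (hO : Ordinal.type (fun a b : K => a < b) = θ.ord) : #(Node K) ≤ θ := by
  have h1 : #(Node K) ≤ #(Σ β : K, (Set.Iio β → K)) := by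
    refine Cardinal.mk_le_of_injective
      (f := fun t : Node K => (⟨t.len, fun i => t.val i⟩ : Σ β : K, (Set.Iio β → K))) ?_
    rintro ⟨a, f, hf⟩ ⟨b, g, hg⟩ h
    simp only [Sigma.mk.injEq] at h
    obtain ⟨h1, h2⟩ := h
    subst h1
    have h3 := eq_of_heq h2
    refine Node.eq_of rfl fun i hi => congrFun h3 ⟨i, hi⟩
  refine h1.trans ?_
  rw [Cardinal.mk_sigma]
  refine (Cardinal.sum_le_sum _ (fun _ => θ) fun β => ?_).trans ?_
  · rw [← Cardinal.power_def, card_of_type hO]
    exact hpow _ (card_Iio_lt hO β)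
  · rw [Cardinal.sum_const', card_of_type hO]
    exact (Cardinal.mul_eq_self hreg.aleph0_le).le

end Count

section Supp

variable {θ : Cardinal.{u}} {ι A : Type u} {K : Type u} [LinearOrder K] [OrderBot K]
  [WellFoundedLT K]

/-- A family of at most `θ` many regular truth values depends on `θ` many columns only. -/
theorem exists_support_reg (hreg : θ.IsRegular) (hpow : ∀ c < θ, θ ^ c ≤ θ) (hA : #A ≤ θ)
    (hK : #K ≤ θ) {N : Type u} (hN : #N ≤ θ) (φ : N → Fn θ (ι × K) A → Prop)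
    (hφ : ∀ n, Reg (φ n)) :
    ∃ J' : Set ι, #J' ≤ θ ∧ ∀ n, SPers {e : ι × K | e.1 ∈ J'} (φ n) := by
  obtain ⟨J', h1, h2⟩ := exists_support hreg hpow hA (Prod.fst : ι × K → ι) (by
      intro i
      refine (Cardinal.mk_le_of_injective (f := fun e : {e : ι × K // e.1 = i} => e.1.2) ?_).trans hK
      rintro ⟨⟨a, b⟩, h⟩ ⟨⟨a', b'⟩, h'⟩ he
      simp only at h h' he
      subst h h' he
      rfl) hN (fun n p => ∃ b : Bool, (if b then φ n else fNot (φ n)) p) (by
      intro n p
      rcases decide_or (φ n) p with ⟨q, hq, h⟩ | h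
      · exact ⟨q, hq, true, h⟩
      · exact ⟨p, le_rfl, false, h⟩)
  refine ⟨J', h1, fun n => ?_⟩
  have := spers_of_dense hreg.aleph0_le (J := {e : ι × K | e.1 ∈ J'})
    (φ := fun (b : Bool) => if b then φ n else fNot (φ n))
    (by
      intro b
      cases b
      · exact reg_fNot (hφ n).pers
      · exact hφ n)
    (by
      intro a b p ha hb
      cases a <;> cases b
      · rfl
      · exact absurd hb (ha p le_rfl)
      · exact absurd ha (hb p le_rfl)
      · rfl)
    (fun p hp => h2 n p hp) true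
  exact this

end Supp

section Measurable

variable {θ : Cardinal.{u}} {ι : Type u}
variable {K : Type u} [LinearOrder K] [OrderBot K] [WellFoundedLT K] [SuccOrder K]

/-- **Theorem.** After adding more than `κ` many Cohen subsets of `κ` all `Σ¹₁` sets are
`κ`-Miller measurable. -/
theorem millerMeasurable (hreg : θ.IsRegular) (hunc : ℵ₀ < θ) (hpow : ∀ c < θ, θ ^ c ≤ θ)
    (hO : Ordinal.type (fun a b : K => a < b) = θ.ord) (hι : θ < #ι)
    (p : Fn θ (ι × K) K) : fMillerMeasurable (Fn θ (ι × K) K) K p := by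
  classical
  have hθ := hreg.aleph0_le
  have := noMaxOrder_of_type hreg hO
  have hK : #K = θ := card_of_type hO
  have hnode := card_node hreg hpow hO
  have hcl : IsClosedPoset K (Fn θ (ι × K) K) := Fn.isClosedPoset hreg (card_Iio_lt hO)
  intro C T q hq hmil q' hq'
  obtain ⟨J', hJ', hJ⟩ := exists_support_reg (ι := ι) (A := K) (K := K) hreg hpow hK.le hK.le
    (N := Node K ⊕ (Node K × Node K)) (by
      simp only [Cardinal.mk_sum, Cardinal.mk_prod, Cardinal.lift_id]
      exact (add_le_add hnode ((mul_le_mul' hnode hnode).trans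
        (Cardinal.mul_eq_self hθ).le)).trans (Cardinal.add_eq_self hθ).le)
    (Sum.elim T.mem C.mem) (by rintro (t | tu); exacts [T.reg t, C.reg tu])
  have hT : ∀ t, SPers {e : ι × K | e.1 ∈ J'} (T.mem t) := fun t => hJ (Sum.inl t)
  have hC : ∀ tu, SPers {e : ι × K | e.1 ∈ J'} (C.mem tu) := fun tu => hJ (Sum.inr tu)
  obtain ⟨i₀, hi₀⟩ : ∃ i₀ : ι, i₀ ∉ J' := by
    by_contra hcon
    push Not at hcon
    have : #ι ≤ #J' := Cardinal.mk_le_of_injective (f := fun i : ι => (⟨i, hcon i⟩ : J'))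
      fun a b h => congrArg Subtype.val h
    exact absurd (this.trans hJ') (not_le.2 hι)
  have hmil' : fMiller T q' := by
    refine ⟨fun r hr => hmil.1 r (hr.trans hq'), ⟨?_, ?_⟩, ?_⟩
    · exact fun t β r hr => hmil.2.1.1 t β r (hr.trans hq')
    · exact fun g l r hr => hmil.2.1.2 g l r (hr.trans hq')
    · exact fun t r hr => hmil.2.2 t r (hr.trans hq')
  by_cases hcase : ∃ p₁ ≤ q', ∃ h y, InBody h T p₁ ∧ PairIn h y C p₁ ∧
      ∀ r ≤ p₁, ∃ r' ≤ r, ∃ t, Wide hθ {e : ι × K | e.1 ∈ J'} h r t r'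
  · obtain ⟨p₁, hp₁, h, y, hb, hpair, hw⟩ := hcase
    obtain ⟨S, s1, s2, s3⟩ := case_one hcl hT hC hb hpair hw
    refine ⟨p₁, hp₁, S, ⟨s1, s2⟩, fOr_inl ?_ s3⟩
    exact fun a b hab ha g r hr => ha g r (hr.trans hab)
  · push Not at hcase
    obtain ⟨S, s1, s2, s3⟩ := case_two (i₀ := i₀) (J := {e : ι × K | e.1 ∈ J'}) hreg hunc hO
      (fun β => hi₀) hcl hT (C := C) hmil' (by
        intro p₁ hp₁ h y hb hpair
        obtain ⟨r, hr, hr'⟩ := hcase p₁ hp₁ h y hb hpair
        exact ⟨r, hr, hr'⟩)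
    refine ⟨q', le_rfl, S, ⟨s1, s2⟩, fOr_inr ?_ s3⟩
    exact fun a b hab ha g r hr => ha g r (hr.trans hab)

end Measurable

end Pool.Agent.KM
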