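import Pool.Agent.Lib.MP_8c1a1d_lc.Rec

set_option linter.unusedSectionVars false
set_option linter.unusedVariables false

namespace Pool.Agent.KM

open Cardinal Order

universe u v

section PerfectDefs

variable {K : Type u} [LinearOrder K] [OrderBot K]

/-- Closed under initial segments. -/
def IsTree (S : Set (Node K)) : Prop := ∀ t ∈ S, ∀ β ≤ t.len, t.res β ∈ S

/-- A superclosed tree: closed under initial segments, and a node of limit length belongs to `S`
as soon as all its proper initial segments do. -/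
def Superclosed (S : Set (Node K)) : Prop :=
  IsTree S ∧ ∀ t : Node K, IsSuccLimit t.len → (∀ β < t.len, t.res β ∈ S) → t ∈ S

/-- Nonempty, and every node has two incomparable extensions. -/
def IsPerfect (S : Set (Node K)) : Prop :=
  S.Nonempty ∧ ∀ t ∈ S, ∃ s ∈ S, ∃ s' ∈ S, t ≤ s ∧ t ≤ s' ∧ ¬ s ≤ s' ∧ ¬ s' ≤ s

/-- `U` has no superclosed perfect subtree. -/
def NoPerfect (U : Set (Node K)) : Prop :=
  ¬ ∃ S : Set (Node K), S ⊆ U ∧ Superclosed S ∧ IsPerfect S

end PerfectDefs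

/-! ## A perfect subtree from a closed system of conditions -/

section Perfect

variable {P : Type u} [Preorder P]
variable {K : Type u} [LinearOrder K] [OrderBot K] [WellFoundedLT K] [SuccOrder K] [NoMaxOrder K]

/-- state: a condition, the next splitting node, and two values there with their conditions -/
abbrev PSt (P K : Type u) [LinearOrder K] [OrderBot K] : Type u := P × Node K × (K × P) × (K × P)

/-- the state is a correct splitting -/
def PGood (R : Node K → P → Prop) (x : PSt P K) : Prop :=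
  R (x.2.1.snoc x.2.2.1.1) x.2.2.1.2 ∧ R (x.2.1.snoc x.2.2.2.1) x.2.2.2.2 ∧
    x.2.2.1.1 ≠ x.2.2.2.1 ∧ x.2.2.1.2 ≤ x.1 ∧ x.2.2.2.2 ≤ x.1

/-- the condition belonging to the value `v` at the node `s` -/
noncomputable def pcnd (s : Node K) (x : PSt P K) (v : K) : P := by
  classical exact if s = x.2.1 then (if v = x.2.2.1.1 then x.2.2.1.2 else x.2.2.2.2) else x.1

/-- the allowed values -/
def PAllowed (s : Node K) (x : PSt P K) (v : K) : Prop :=
  (s ≠ x.2.1 → v = x.2.1.val s.len) ∧ (s = x.2.1 → v = x.2.2.1.1 ∨ v = x.2.2.2.1)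

def PinS (t : Node K) (Xs : K → PSt P K) : Prop :=
  ∀ β < t.len, PAllowed (t.res β) (Xs β) (t.val β)

def PKeep (t : Node K) (Xs : K → PSt P K) (β₀ : K) : Prop :=
  β₀ < t.len ∧ ∀ γ, β₀ ≤ γ → γ < t.len → Xs γ = Xs β₀ ∧ t.res γ ≠ (Xs β₀).2.1

def PNew (R : Node K → P → Prop) (t : Node K) (Xs : K → PSt P K) (x : PSt P K) : Prop :=
  PGood R x ∧ t ≤ x.2.1 ∧ ∀ β < t.len, x.1 ≤ pcnd (t.res β) (Xs β) (t.val β)

def PRule (R : Node K → P → Prop) (t : Node K) (Xs : K → PSt P K) (x : PSt P K) : Prop :=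
  PinS t Xs → (∀ β₀, PKeep t Xs β₀ → x = Xs β₀) ∧ ((¬ ∃ β₀, PKeep t Xs β₀) → PNew R t Xs x)

variable {R : Node K → P → Prop}

theorem pcnd_le {s : Node K} {x : PSt P K} {v : K} (hx : PGood R x) : pcnd s x v ≤ x.1 := by
  classical
  unfold pcnd
  split_ifs
  · exact hx.2.2.2.1
  · exact hx.2.2.2.2
  · exact le_rfl

theorem pcnd_of_ne {s : Node K} {x : PSt P K} {v : K} (h : s ≠ x.2.1) : pcnd s x v = x.1 := by
  classical
  unfold pcnd
  exact if_neg h

/-- the condition of an allowed value at the splitting node -/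
theorem pcnd_split {s : Node K} {x : PSt P K} {v : K} (hx : PGood R x) (hs : s = x.2.1)
    (hv : PAllowed s x v) : R (s.snoc v) (pcnd s x v) := by
  classical
  unfold pcnd
  rw [if_pos hs, hs]
  rcases hv.2 hs with h | h
  · rw [if_pos h, h]; exact hx.1
  · have hne : v ≠ x.2.2.1.1 := by rw [h]; exact hx.2.2.1.symm
    rw [if_neg hne, h]; exact hx.2.1

theorem prule_congr (t : Node K) (Xs Ys : K → PSt P K) (x : PSt P K)
    (hXY : ∀ β < t.len, Xs β = Ys β) (hr : PRule R t Xs x) : PRule R t Ys x := by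
  have hYX : ∀ β < t.len, Ys β = Xs β := fun β hβ => (hXY β hβ).symm
  have hk : ∀ (Zs Ws : K → PSt P K), (∀ β < t.len, Zs β = Ws β) → ∀ β₀, PKeep t Zs β₀ →
      PKeep t Ws β₀ := by
    intro Zs Ws hZW β₀ hk
    refine ⟨hk.1, fun γ h1 h2 => ?_⟩
    rw [← hZW γ h2, ← hZW β₀ hk.1]
    exact hk.2 γ h1 h2
  intro hi
  obtain ⟨h3, h4⟩ := hr (fun β hβ => by rw [hXY β hβ]; exact hi β hβ)
  refine ⟨fun β₀ hk' => ?_, fun hn => ?_⟩
  · rw [h3 β₀ (hk _ _ hYX β₀ hk'), hXY β₀ hk'.1]
  · obtain ⟨h5, h6, h7⟩ := h4 (fun ⟨β₀, hk'⟩ => hn ⟨β₀, hk _ _ hXY β₀ hk'⟩)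
    refine ⟨h5, h6, fun β hβ => ?_⟩
    rw [← hXY β hβ]; exact h7 β hβ

theorem pinS_res {t : Node K} {Xs : K → PSt P K} {β : K} (hβ : β ≤ t.len) (hi : PinS t Xs) :
    PinS (t.res β) Xs := by
  intro γ (hγ : γ < β)
  rw [res_res hγ.le, res_val hγ]
  exact hi γ (hγ.trans_le hβ)

/-- validity of the states along a history -/
theorem pvalid {t : Node K} {Xs : K → PSt P K} (β : K) (hβ : β ≤ t.len)
    (hist : ∀ γ ≤ β, PRule R (t.res γ) Xs (Xs γ)) (hi : PinS (t.res β) Xs) :
    PGood R (Xs β) ∧ t.res β ≤ (Xs β).2.1 ∧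
      ∀ γ < β, (Xs β).1 ≤ pcnd (t.res γ) (Xs γ) (t.val γ) := by
  induction β using WellFoundedLT.induction with
  | ind β ih =>
    have hinS : ∀ γ ≤ β, PinS (t.res γ) Xs := fun γ hγ => by
      have := pinS_res (t := t.res β) (show γ ≤ (t.res β).len from hγ) hi
      rwa [res_res hγ] at this
    have hall : ∀ γ < β, PAllowed (t.res γ) (Xs γ) (t.val γ) := fun γ hγ => by
      have := hi γ hγ
      rwa [res_res hγ.le, res_val hγ] at this
    obtain ⟨hk, hn⟩ := hist β le_rfl hi
    by_cases hex : ∃ β₀, PKeep (t.res β) Xs β₀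
    · obtain ⟨β₀, hkeep⟩ := hex
      have hx : Xs β = Xs β₀ := hk β₀ hkeep
      have hβ₀ : β₀ < β := hkeep.1
      obtain ⟨v1, v2, v3⟩ := ih β₀ hβ₀ (hβ₀.le.trans hβ)
        (fun γ hγ => hist γ (hγ.trans hβ₀.le)) (hinS β₀ hβ₀.le)
      have hkeep' : ∀ γ, β₀ ≤ γ → γ < β → Xs γ = Xs β₀ ∧ t.res γ ≠ (Xs β₀).2.1 := by
        intro γ h1 h2
        have := hkeep.2 γ h1 h2
        rwa [res_res h2.le] at this
      have hval : ∀ i < β, t.val i = (Xs β₀).2.1.val i := by
        intro i hi'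
        rcases lt_or_ge i β₀ with h1 | h1
        · have := v2.2 i h1
          rwa [res_val h1] at this
        · have h2 := hall i hi'
          have h3 := hkeep' i h1 hi'
          rw [h3.1] at h2
          exact h2.1 h3.2
      have hlen : β ≤ (Xs β₀).2.1.len := by
        by_contra hlt
        rw [not_le] at hlt
        refine (hkeep' _ v2.1 hlt).2 ?_
        refine Node.eq_of rfl fun i (hi' : i < (Xs β₀).2.1.len) => ?_
        rw [res_val hi']
        exact hval i (hi'.trans hlt)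
      refine ⟨by rw [hx]; exact v1, ?_, ?_⟩
      · rw [hx]
        refine ⟨hlen, fun i (hi' : i < β) => ?_⟩
        rw [res_val hi']
        exact hval i hi'
      · intro γ hγ
        rw [hx]
        rcases lt_or_ge γ β₀ with h1 | h1
        · exact v3 γ h1
        · have h2 := hkeep' γ h1 hγ
          rw [h2.1, pcnd_of_ne h2.2]
    · obtain ⟨n1, n2, n3⟩ := hn hex
      refine ⟨n1, n2, fun γ hγ => ?_⟩
      have := n3 γ hγ
      rwa [res_res hγ.le, res_val hγ] at this

/-- **Perfect subtree lemma.** -/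
theorem exists_perfect (hcl : IsClosedPoset K P) (R : Node K → P → Prop)
    (r0 : ∃ q, R root q)
    (r1 : ∀ t q q', q' ≤ q → R t q → R t q')
    (r2 : ∀ t q, R t q → ∀ β ≤ t.len, R (t.res β) q)
    (r3 : ∀ (t : Node K) q, IsSuccLimit t.len → (∀ β < t.len, R (t.res β) q) → R t q)
    (r4 : ∀ t q, R t q → ∃ s, t ≤ s ∧ ∃ a a', a ≠ a' ∧ ∃ q₁ ≤ q, ∃ q₂ ≤ q,
      R (s.snoc a) q₁ ∧ R (s.snoc a') q₂) (U : Set (Node K)) (r5 : ∀ t q, R t q → t ∈ U) :
    ∃ S : Set (Node K), S ⊆ U ∧ Superclosed S ∧ IsPerfect S := by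
  classical
  obtain ⟨p₀, hp₀⟩ := r0
  have : Nonempty (PSt P K) := ⟨(p₀, root, (⊥, p₀), (⊥, p₀))⟩
  obtain ⟨F, hF⟩ := ground_recursion (X := PSt P K) (PRule R) prule_congr (by
    intro t Xs hist
    by_cases hi : PinS t Xs
    swap
    · exact ⟨(p₀, root, (⊥, p₀), (⊥, p₀)), fun h => absurd h hi⟩
    have hV : ∀ β < t.len, PGood R (Xs β) ∧ t.res β ≤ (Xs β).2.1 ∧
        ∀ γ < β, (Xs β).1 ≤ pcnd (t.res γ) (Xs γ) (t.val γ) := fun β hβ =>
      pvalid β hβ.le (fun γ hγ => hist γ (hγ.trans_lt hβ)) (pinS_res hβ.le hi)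
    by_cases hkeep : ∃ β₀, PKeep t Xs β₀
    · obtain ⟨β₀, hk⟩ := hkeep
      refine ⟨Xs β₀, fun _ => ⟨fun β₁ hk₁ => ?_, fun hn => absurd ⟨β₀, hk⟩ hn⟩⟩
      rcases le_total β₀ β₁ with h1 | h1
      · exact ((hk.2 β₁ h1 hk₁.1).1).symm
      · exact (hk₁.2 β₀ h1 hk.1).1
    have hr : ∃ r, R t r ∧ ∀ β < t.len, r ≤ pcnd (t.res β) (Xs β) (t.val β) := by
      rcases eq_or_ne t.len ⊥ with h0 | h0
      · exact ⟨p₀, by rw [eq_root h0]; exact hp₀, fun β hβ => absurd (h0 ▸ hβ) not_lt_bot⟩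
      by_cases hlim : IsSuccLimit t.len
      · have hcof : ∀ i < t.len, ∃ γ, i ≤ γ ∧ γ < t.len ∧ t.res γ = (Xs γ).2.1 := by
          intro i hi'
          have hnk : ¬ PKeep t Xs i := fun hk => hkeep ⟨i, hk⟩
          have hex : ∃ γ, i ≤ γ ∧ γ < t.len ∧ ¬ (Xs γ = Xs i ∧ t.res γ ≠ (Xs i).2.1) := by
            by_contra hcon
            push Not at hcon
            exact hnk ⟨hi', fun γ h1 h2 => by
              have := hcon γ h1 h2; tauto⟩
          let S : Set K := {γ | i ≤ γ ∧ γ < t.len ∧ ¬ (Xs γ = Xs i ∧ t.res γ ≠ (Xs i).2.1)}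
          let γ := WellFounded.min (wellFounded_lt (α := K)) S hex
          obtain ⟨g1, g2, g3⟩ := WellFounded.min_mem (wellFounded_lt (α := K)) S hex
          have hbelow : ∀ δ, i ≤ δ → δ < γ → Xs δ = Xs i ∧ t.res δ ≠ (Xs i).2.1 := by
            intro δ d1 d2
            by_contra hne
            exact WellFounded.not_lt_min (wellFounded_lt (α := K)) S (x := δ)
              ⟨d1, d2.trans g2, hne⟩ d2
          have hXγ : Xs γ = Xs i := by
            by_contra hne
            have hlt : i < γ := lt_of_le_of_ne g1 (fun h => hne (by rw [← h]))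
            refine hne ((hist γ g2 (pinS_res g2.le hi)).1 i ?_)
            refine ⟨hlt, fun δ d1 d2 => ?_⟩
            have d2' : δ < γ := d2
            rw [res_res d2'.le]
            exact hbelow δ d1 d2'
          refine ⟨γ, g1, g2, ?_⟩
          by_contra hne
          exact g3 ⟨hXγ, by rw [← hXγ]; exact hne⟩
        obtain ⟨r, hr⟩ := hcl t.len (fun β => pcnd (t.res β) (Xs β) (t.val β)) (by
          intro β γ hβγ hγ
          rcases hβγ.lt_or_eq with h | h
          · exact (pcnd_le (hV γ hγ).1).trans ((hV γ hγ).2.2 β h)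
          · rw [h])
        refine ⟨r, r3 t r hlim fun β hβ => ?_, hr⟩
        obtain ⟨γ, g1, g2, g3⟩ := hcof β hβ
        have h1 : R ((t.res γ).snoc (t.val γ)) (pcnd (t.res γ) (Xs γ) (t.val γ)) :=
          pcnd_split (hV γ g2).1 g3 (hi γ g2)
        have h2 := r1 _ _ _ (hr γ g2) h1
        rw [← res_succ g2] at h2
        have h3 := r2 _ _ h2 β (g1.trans (le_succ γ))
        rwa [res_res (g1.trans (le_succ γ))] at h3
      · obtain ⟨α, hα⟩ : ∃ α, t.len = succ α := by
          have hnp : ¬ IsSuccPrelimit t.len := fun h' => hlim ⟨by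
            rw [isMin_iff_eq_bot]; exact h0, h'⟩
          rw [not_isSuccPrelimit_iff_succ_eq] at hnp
          obtain ⟨α, _, hα⟩ := hnp
          exact ⟨α, hα.symm⟩
        have hαlt : α < t.len := hα ▸ lt_succ α
        have hres : t.res α = (Xs α).2.1 := by
          by_contra hne
          refine hkeep ⟨α, hαlt, fun γ h1 h2 => ?_⟩
          rw [hα] at h2
          have : γ = α := le_antisymm (lt_succ_iff.1 h2) h1
          subst this
          exact ⟨rfl, hne⟩
        refine ⟨pcnd (t.res α) (Xs α) (t.val α), ?_, fun β hβ => ?_⟩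
        · have := pcnd_split (hV α hαlt).1 hres (hi α hαlt)
          rwa [← eq_snoc hα] at this
        · rw [hα] at hβ
          rcases (lt_succ_iff.1 hβ).lt_or_eq with h | h
          · exact (pcnd_le (hV α hαlt).1).trans ((hV α hαlt).2.2 β h)
          · rw [h]
    obtain ⟨r, hr1, hr2⟩ := hr
    obtain ⟨s, hs, a, a', hne, q₁, hq₁, q₂, hq₂, h1, h2⟩ := r4 t r hr1
    exact ⟨(r, s, (a, q₁), (a', q₂)), fun _ => ⟨fun β₀ hk => absurd ⟨β₀, hk⟩ hkeep,
      fun _ => ⟨⟨h1, h2, hne, hq₁, hq₂⟩, hs, hr2⟩⟩⟩)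
  let Xt : Node K → K → PSt P K := fun t β => F (t.res β)
  let S : Set (Node K) := {t | PinS t (Xt t)}
  have hXt : ∀ t β γ, γ ≤ β → Xt (t.res β) γ = Xt t γ := by
    intro t β γ h
    show F ((t.res β).res γ) = F (t.res γ)
    rw [res_res h]
  have hrule : ∀ t γ, γ ≤ t.len → PRule R (t.res γ) (Xt t) (Xt t γ) := by
    intro t γ hγ
    refine prule_congr _ _ _ _ ?_ (hF (t.res γ))
    intro δ (hδ : δ < γ)
    exact hXt t γ δ hδ.le
  have hvalid : ∀ t ∈ S, PGood R (F t) ∧ t ≤ (F t).2.1 := by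
    intro t ht
    have h1 := pvalid (R := R) (t := t) (Xs := Xt t) t.len le_rfl (hrule t)
      (by rw [res_self]; exact ht)
    have e : Xt t t.len = F t := by show F (t.res t.len) = F t; rw [res_self]
    rw [e, res_self] at h1
    exact ⟨h1.1, h1.2.1⟩
  have htree : IsTree S := by
    intro t ht β hβ
    show PinS (t.res β) (Xt (t.res β))
    intro γ (hγ : γ < β)
    rw [hXt t β γ hγ.le, res_res hγ.le, res_val hγ]
    exact ht γ (hγ.trans_le hβ)
  refine ⟨S, ?_, ⟨htree, ?_⟩, ⟨root, ?_⟩, ?_⟩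
  · intro t ht
    obtain ⟨h1, h2⟩ := hvalid t ht
    have h3 := r2 _ _ h1.1 t.len (h2.1.trans (le_succ _))
    rw [res_snoc_le h2.1, res_eq_of_le h2] at h3
    exact r5 t _ h3
  · intro t hl hall β hβ
    have h1 := hall (succ β) (hl.succ_lt hβ) β (lt_succ β)
    rwa [hXt t _ _ (le_succ β), res_res (le_succ β), res_val (lt_succ β)] at h1
  · intro β hβ
    exact absurd hβ not_lt_bot
  · intro t ht
    obtain ⟨hg, hle⟩ := hvalid t ht
    -- the walk to the splitting node
    have walk : ∀ γ, t.len ≤ γ → γ ≤ (F t).2.1.len → F ((F t).2.1.res γ) = F t := by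
      intro γ
      induction γ using WellFoundedLT.induction with
      | ind γ ih =>
        intro g1 g2
        rcases g1.eq_or_lt with h0 | hlt
        · rw [← h0, res_eq_of_le hle]
        have hne : ∀ δ < γ, (F t).2.1.res δ ≠ (F t).2.1 := by
          intro δ hδ he
          have : δ = (F t).2.1.len := congrArg Node.len he
          rw [← this] at g2
          exact absurd hδ (not_lt.2 g2)
        have hst : ∀ δ, t.len ≤ δ → δ < γ → Xt ((F t).2.1.res γ) δ = F t := by
          intro δ d1 d2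
          rw [hXt _ _ _ d2.le]
          exact ih δ d2 d1 (d2.le.trans g2)
        have hin : PinS ((F t).2.1.res γ) (Xt ((F t).2.1.res γ)) := by
          intro δ (hδ : δ < γ)
          rw [res_res hδ.le, res_val hδ]
          rcases lt_or_ge δ t.len with h' | h'
          · rw [hXt _ _ _ hδ.le]
            show PAllowed _ (F ((F t).2.1.res δ)) _
            rw [res_eq_res hle h'.le, ← hle.2 δ h']
            exact ht δ h'
          · rw [hst δ h' hδ]
            exact ⟨fun _ => rfl, fun he => absurd he (hne δ hδ)⟩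
        have hk : PKeep ((F t).2.1.res γ) (Xt ((F t).2.1.res γ)) t.len := by
          refine ⟨hlt, fun δ d1 d2 => ?_⟩
          have d2' : δ < γ := d2
          rw [hst δ d1 d2', hst t.len le_rfl hlt, res_res d2'.le]
          exact ⟨rfl, hne δ d2'⟩
        rw [(hF ((F t).2.1.res γ) hin).1 t.len hk]
        exact hst t.len le_rfl hlt
    have hmem : ∀ a, a = (F t).2.2.1.1 ∨ a = (F t).2.2.2.1 → (F t).2.1.snoc a ∈ S := by
      intro a ha δ hδ
      have hδ' : δ ≤ (F t).2.1.len := lt_succ_iff.1 hδ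
      have e1 : Xt ((F t).2.1.snoc a) δ = F ((F t).2.1.res δ) := by
        show F (((F t).2.1.snoc a).res δ) = _
        rw [res_snoc_le hδ']
      rw [e1, res_snoc_le hδ']
      rcases lt_or_ge δ t.len with h' | h'
      · rw [snoc_val_lt (h'.trans_le hle.1), res_eq_res hle h'.le, ← hle.2 δ h']
        exact ht δ h'
      · rw [walk δ h' hδ']
        rcases hδ'.lt_or_eq with h2 | h2
        · rw [snoc_val_lt h2]
          exact ⟨fun _ => rfl, fun he => absurd (congrArg Node.len he) (ne_of_lt h2)⟩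
        · subst h2
          rw [res_self, snoc_val_len]
          exact ⟨fun he => absurd rfl he, fun _ => ha⟩
    exact ⟨_, hmem _ (Or.inl rfl), _, hmem _ (Or.inr rfl), Node.le_trans hle (le_snoc _ _),
      Node.le_trans hle (le_snoc _ _), snoc_not_le hg.2.2.1, snoc_not_le hg.2.2.1.symm⟩

end Perfect

end Pool.Agent.KM
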