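import Pool.Agent.Lib.MP_8c1a1d_lc.Measurable

set_option linter.unusedSectionVars false
set_option linter.unusedVariables false

namespace Pool.Agent.KM

open Cardinal Order

universe u v

section Unbounded

variable {θ : Cardinal.{u}} {ι A : Type u}
variable {K : Type u} [LinearOrder K] [OrderBot K] [WellFoundedLT K] [SuccOrder K] [NoMaxOrder K]

/-- Adding Cohen subsets of `κ` preserves that a set of branches is unbounded. -/
theorem fUnbounded_of_cohen (hreg : θ.IsRegular) (hpow : ∀ c < θ, θ ^ c ≤ θ) (hA : #A ≤ θ)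
    (hO : Ordinal.type (fun a b : K => a < b) = θ.ord) {U : Set (Node K)}
    (hU : IsUnbounded (Body U)) (p : Fn θ (ι × K) A) : fUnbounded (checkSet U) p := by
  classical
  have hθ := hreg.aleph0_le
  have hK : #K = θ := card_of_type hO
  intro g
  obtain ⟨J', hJ', hJ⟩ := exists_support_reg (ι := ι) (A := A) (K := K) hreg hpow hA hK.le
    (N := K × K) (by
      simp only [Cardinal.mk_prod, Cardinal.lift_id, hK]
      exact (Cardinal.mul_eq_self hθ).le)
    (fun x => g.app x.1 x.2) (fun x => g.reg _ _)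
  set J : Set (ι × K) := {e : ι × K | e.1 ∈ J'} with hJdef
  have hJcard : #J ≤ θ := by
    have : #J ≤ #(J' × K) := Cardinal.mk_le_of_injective
      (f := fun e : J => ((⟨e.1.1, e.2⟩ : J'), e.1.2)) (by
        rintro ⟨⟨a, b⟩, h⟩ ⟨⟨a', b'⟩, h'⟩ he
        simp only [Prod.mk.injEq, Subtype.mk.injEq] at he
        obtain ⟨e1, e2⟩ := he
        subst e1; subst e2; rfl)
    refine this.trans ?_
    simp only [Cardinal.mk_prod, Cardinal.lift_id, hK]
    exact (mul_le_mul' hJ' le_rfl).trans (Cardinal.mul_eq_self hθ).le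
  -- an enumeration of the conditions supported in `J`
  have hcs := (card_supported hreg hpow hA J hJcard).trans hK.ge
  obtain ⟨⟨f, hf⟩⟩ := Cardinal.le_def _ _ |>.1 hcs
  have hne : Nonempty {p : Fn θ (ι × K) A // ∀ e, p.f e ≠ none → e ∈ J} :=
    ⟨⟨Fn.empty hθ, fun e he => absurd rfl he⟩⟩
  let en : K → {p : Fn θ (ι × K) A // ∀ e, p.f e ≠ none → e ∈ J} := Function.invFun f
  have hen : Function.Surjective en := Function.invFun_surjective hf
  choose ext hext b hb using fun (ξ γ : K) => g.tot γ (en ξ).1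
  have hG : ∀ γ : K, ∃ G, ∀ ξ ≤ γ, b ξ γ < G := by
    intro γ
    obtain ⟨G, hG⟩ := exists_bound hreg hO (Set.range fun ξ : Set.Iio (succ γ) => b ξ γ)
      (Cardinal.mk_range_le.trans_lt (card_Iio_lt hO _))
    exact ⟨G, fun ξ hξ => hG _ ⟨⟨ξ, lt_succ_iff.2 hξ⟩, rfl⟩⟩
  choose G hG using hG
  obtain ⟨x, hx, hxG⟩ := hU G
  refine fEx_intro (fun y => ?_) (checkFun _ x) ⟨?_, ?_⟩
  · exact (reg_fAnd (reg_inBody _ _) (reg_fAll fun _ => reg_fEx)).pers
  · intro β
    exact resIn_check.2 (hx β)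
  · intro β q _
    -- the `J` part of `q`
    obtain ⟨ξ, hξ⟩ := hen ⟨mix hθ J q (Fn.empty hθ), by
      intro e he
      by_contra hne
      exact he (mix_f_not_mem hθ hne)⟩
    obtain ⟨γ, hγ, hlt⟩ := hxG (max β ξ)
    have h1 := hext ξ γ
    have h2 := hb ξ γ
    rw [hξ] at h1
    have h3 : LeOn J (ext ξ γ) q := (LeOn.of_le h1).trans (mix_leOn_left hθ)
    refine ⟨mix hθ J (ext ξ γ) q, mix_le hθ h3, (γ, b ξ γ, x γ),
      ⟨(le_max_left _ _).trans hγ, (hG γ ξ ((le_max_right _ _).trans hγ)).trans hlt⟩, ?_, rfl⟩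
    exact hJ (γ, b ξ γ) _ _ (mix_leOn_left hθ) h2

end Unbounded

end Pool.Agent.KM
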