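import Pool.Agent.Lib.MP_8c1a1d_lc.FnPoset

set_option linter.unusedSectionVars false
set_option linter.unusedVariables false

namespace Pool.Agent.KM

open Cardinal Order

universe u v

section Rec

variable {θ : Cardinal.{u}} {E : Type u} {A : Type u}
variable {K : Type u} [LinearOrder K] [OrderBot K] [WellFoundedLT K]

/-- Ground model recursion along the nodes. -/
theorem ground_recursion {X : Type*} [Nonempty X] (Φ : Node K → (K → X) → X → Prop)
    (hloc : ∀ (t : Node K) Xs Ys x, (∀ β < t.len, Xs β = Ys β) → Φ t Xs x → Φ t Ys x)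
    (H : ∀ (t : Node K) Xs, (∀ β < t.len, Φ (t.res β) Xs (Xs β)) → ∃ x, Φ t Xs x) :
    ∃ F : Node K → X, ∀ t, Φ t (fun β => F (t.res β)) (F t) := by
  classical
  let wf : WellFounded (fun s t : Node K => s.len < t.len) :=
    InvImage.wf Node.len (wellFounded_lt (α := K))
  let step : (t : Node K) → ((s : Node K) → s.len < t.len → X) → X := fun t G =>
    if h : ∃ x, Φ t (fun β => if hβ : β < t.len then G (t.res β) hβ else Classical.arbitrary X) x
    then h.choose else Classical.arbitrary X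
  let F : Node K → X := wf.fix step
  have hF : ∀ t, F t = step t fun s _ => F s := fun t => wf.fix_eq step t
  refine ⟨F, fun t => ?_⟩
  induction t using wf.induction with
  | _ t ih =>
    have h1 : ∃ x, Φ t (fun β => if hβ : β < t.len then F (t.res β) else Classical.arbitrary X) x := by
      apply H
      intro β hβ
      refine hloc _ (fun γ => F ((t.res β).res γ)) _ _ ?_ ?_
      · intro γ hγ
        have hγ' : γ < β := hγ
        rw [res_res hγ'.le, dif_pos (hγ'.trans hβ)]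
      · rw [dif_pos hβ]
        exact ih (t.res β) hβ
    have h2 : F t = h1.choose := by rw [hF t]; exact dif_pos h1
    refine hloc _ _ _ _ ?_ (h2 ▸ h1.choose_spec)
    intro β hβ
    rw [dif_pos hβ]

/-- Recursion along the nodes in the extension by the coordinates in `J`: there are names `F t`
for elements of the ground model set `X` obeying the recursion rule `Φ`. -/
theorem forced_recursion (hθ : ℵ₀ ≤ θ) (J : Set E) (hcl : IsClosedPoset K (Fn θ E A))
    {X : Type u} [Nonempty X]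
    (Φ : Node K → (K → X) → X → Fn θ E A → Prop)
    (hreg : ∀ t Xs x, Reg (Φ t Xs x)) (hsp : ∀ t Xs x, SPers J (Φ t Xs x))
    (hloc : ∀ (t : Node K) Xs Ys x p, (∀ β < t.len, Xs β = Ys β) → Φ t Xs x p → Φ t Ys x p)
    (H : ∀ p (t : Node K) Xs, (∀ β < t.len, Φ (t.res β) Xs (Xs β) p) → ∃ q ≤ p, ∃ x, Φ t Xs x q) :
    ∃ F : Node K → X → Fn θ E A → Prop,
      (∀ t x, Reg (F t x)) ∧ (∀ t x, SPers J (F t x)) ∧
      (∀ t x y p, F t x p → F t y p → x = y) ∧
      ∀ (t : Node K) p, ∃ q ≤ p, ∃ Xs : K → X, (∀ β ≤ t.len, F (t.res β) (Xs β) q) ∧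
        ∀ β ≤ t.len, Φ (t.res β) Xs (Xs β) q := by
  classical
  let wf : WellFounded (fun s t : Node K => s.len < t.len) :=
    InvImage.wf Node.len (wellFounded_lt (α := K))
  let N : (t : Node K) → ((s : Node K) → s.len < t.len → X → Fn θ E A → Prop) → X →
      Fn θ E A → Prop := fun t G x =>
    fEx fun Xs : K → X => fAnd (fAll fun β : Set.Iio t.len => G (t.res β) β.2 (Xs β)) (Φ t Xs x)
  let step : (t : Node K) → ((s : Node K) → s.len < t.len → X → Fn θ E A → Prop) → X →
      Fn θ E A → Prop := fun t G x =>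
    fAnd (N t G x) (fAll fun y : {y : X // WellOrderingRel y x} => fNot (N t G y))
  let F : Node K → X → Fn θ E A → Prop := wf.fix step
  have hF : ∀ t, F t = step t fun s _ => F s := fun t => wf.fix_eq step t
  have hFdef : ∀ t x, F t x = fAnd (N t (fun s _ => F s) x)
      (fAll fun y : {y : X // WellOrderingRel y x} => fNot (N t (fun s _ => F s) y)) := by
    intro t x; rw [hF t]
  have hregF : ∀ t x, Reg (F t x) := by
    intro t x
    rw [hFdef]
    exact reg_fAnd reg_fEx (reg_fAll fun y => reg_fNot (reg_fEx.pers))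
  have hspF : ∀ t x, SPers J (F t x) := by
    intro t
    induction t using wf.induction with
    | _ t ih =>
      have hN : ∀ x, SPers J (N t (fun s _ => F s) x) := fun x =>
        spers_fEx hθ fun Xs => spers_fAnd (spers_fAll fun β => ih (t.res β) β.2 _) (hsp t Xs x)
      intro x
      rw [hFdef]
      exact spers_fAnd (hN x) (spers_fAll fun y => spers_fNot hθ (hN y))
  have hsv : ∀ t x y p, F t x p → F t y p → x = y := by
    intro t x y p hx hy
    rw [hFdef] at hx hy
    rcases trichotomous_of (WellOrderingRel (α := X)) x y with h | h | h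
    · exact absurd hx.1 (hy.2 ⟨x, h⟩ p le_rfl)
    · exact h
    · exact absurd hy.1 (hx.2 ⟨y, h⟩ p le_rfl)
  refine ⟨F, hregF, hspF, hsv, ?_⟩
  intro t
  induction t using wf.induction with
  | _ t ih =>
    intro p
    -- histories below `t.len`
    obtain ⟨q, hq, Ys, hYs⟩ := hcl.distrib_ex (X := K → X) t.len
      (fun β Xs q => (∀ γ ≤ β, F (t.res γ) (Xs γ) q) ∧ ∀ γ ≤ β, Φ (t.res γ) Xs (Xs γ) q)
      (fun β x p q hq h => ⟨fun γ hγ => (hregF _ _).mono hq (h.1 γ hγ),
        fun γ hγ => (hreg _ _ _).mono hq (h.2 γ hγ)⟩) p (by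
        intro β hβ p' _
        obtain ⟨q, hq, Xs, h1, h2⟩ := ih (t.res β) hβ p'
        refine ⟨q, hq, Xs, fun γ hγ => ?_, fun γ hγ => ?_⟩
        · have := h1 γ hγ; rwa [res_res hγ] at this
        · have := h2 γ hγ; rwa [res_res hγ] at this)
    let Xs : K → X := fun β => Ys β β
    have hcoh : ∀ β < t.len, ∀ γ ≤ β, Ys β γ = Xs γ := fun β hβ γ hγ =>
      hsv _ _ _ q ((hYs β hβ).1 γ hγ) ((hYs γ (hγ.trans_lt hβ)).1 γ le_rfl)
    have hFX : ∀ β < t.len, F (t.res β) (Xs β) q := fun β hβ => (hYs β hβ).1 β le_rfl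
    have hΦX : ∀ β < t.len, Φ (t.res β) Xs (Xs β) q := fun β hβ =>
      hloc _ _ _ _ _ (fun γ (hγ : γ < β) => hcoh β hβ γ hγ.le) ((hYs β hβ).2 β le_rfl)
    obtain ⟨q₁, hq₁, x₀, hx₀⟩ := H q t Xs hΦX
    have hex : ∃ x, ∃ r ≤ q₁, N t (fun s _ => F s) x r :=
      ⟨x₀, q₁, le_rfl, fun r hr => ⟨r, le_rfl, Xs, fun β => (hregF _ _).mono (hr.trans hq₁)
        (hFX β β.2), (hreg _ _ _).mono hr hx₀⟩⟩
    let x₁ := WellOrderingRel.isWellOrder.wf.min {x | ∃ r ≤ q₁, N t (fun s _ => F s) x r} hex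
    obtain ⟨q₂, hq₂, hN⟩ := WellOrderingRel.isWellOrder.wf.min_mem
      {x | ∃ r ≤ q₁, N t (fun s _ => F s) x r} hex
    have hmin : ∀ y, WellOrderingRel y x₁ → ∀ r ≤ q₁, ¬ N t (fun s _ => F s) y r := by
      intro y hy r hr hNy
      exact WellOrderingRel.isWellOrder.wf.not_lt_min
        {x | ∃ r ≤ q₁, N t (fun s _ => F s) x r} (x := y) ⟨r, hr, hNy⟩ hy
    have hFx₁ : F t x₁ q₂ := by
      rw [hFdef]
      exact ⟨hN, fun y r hr => hmin y.1 y.2 r (hr.trans hq₂)⟩
    obtain ⟨q₃, hq₃, Zs, hZ, hΦZ⟩ := hN q₂ le_rfl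
    have hZX : ∀ β < t.len, Zs β = Xs β := fun β hβ =>
      hsv _ _ _ q₃ (hZ ⟨β, hβ⟩) ((hregF _ _).mono (hq₃.trans (hq₂.trans hq₁)) (hFX β hβ))
    have hle : q₃ ≤ q := hq₃.trans (hq₂.trans hq₁)
    let W : K → X := fun β => if β = t.len then x₁ else Xs β
    have hW1 : ∀ β < t.len, W β = Xs β := fun β hβ => if_neg hβ.ne
    have hW2 : W t.len = x₁ := if_pos rfl
    refine ⟨q₃, hle.trans hq, W, ?_, ?_⟩
    · intro β hβ
      rcases hβ.lt_or_eq with h | h
      · rw [hW1 β h]; exact (hregF _ _).mono hle (hFX β h)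
      · rw [h, hW2, res_self]; exact (hregF _ _).mono hq₃ hFx₁
    · intro β hβ
      rcases hβ.lt_or_eq with h | h
      · rw [hW1 β h]
        refine hloc _ Xs _ _ _ ?_ ((hreg _ _ _).mono hle (hΦX β h))
        intro γ (hγ : γ < β)
        exact (hW1 γ (hγ.trans h)).symm
      · rw [h, hW2, res_self]
        refine hloc _ Zs _ _ _ ?_ hΦZ
        intro γ hγ
        rw [hW1 γ hγ, hZX γ hγ]

end Rec

end Pool.Agent.KM
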